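import Pool.Agent.Work.MP_8f25a0_lc.Decoy.Basic

/-!
# Reductions between query problems
-/

namespace Pool.Agent.Work.MP_8f25a0_lc.Decoy

open Finset

/-- simulate the questions about `f (π x) xor σ x` by questions about `f` -/
def b28_map {n n' : ℕ} (π : Cube n' → Cube n) (σ : Cube n' → Bool) : Tree n' → Tree n
  | .out r => .out r
  | .ask x t => .ask (π x) (fun b => b28_map π σ (t (xor b (σ x))))

theorem b28_eval {n n' : ℕ} (π : Cube n' → Cube n) (σ : Cube n' → Bool) (f : Cube n → Bool)
    (g : Cube n' → Bool) (h : ∀ x, g x = xor (f (π x)) (σ x)) (T : Tree n') :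
    (b28_map π σ T).eval f = T.eval g := by
  induction T with
  | out r => rfl
  | ask x t ih =>
    simp only [b28_map, Tree.eval]
    rw [ih, h]

theorem b28_depth {n n' : ℕ} (π : Cube n' → Cube n) (σ : Cube n' → Bool) (T : Tree n') :
    (b28_map π σ T).depth = T.depth := by
  induction T with
  | out r => rfl
  | ask x t ih =>
    simp only [b28_map, Tree.depth]
    rw [ih, ih]
    cases σ x
    · simp
    · simp [max_comm]

theorem reduction {n k n' k' : ℕ} {ε : ℝ} (hε : 0 ≤ ε) (Φ : (Cube n → Bool) → Cube n' → Bool)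
    (π : Cube n' → Cube n) (σ : Cube n' → Bool)
    (hΦ : ∀ f x, Φ f x = xor (f (π x)) (σ x)) (hd : ∀ f, distK k' (Φ f) = distK k f) :
    queryComplexity n k ε ≤ queryComplexity n' k' ε := by
  obtain ⟨A, hA1, hA2⟩ := exists_approximates n' k' hε
  refine queryComplexity_le (A := A.map (b28_map π σ)) ⟨?_, ?_⟩
  · intro T hT
    rw [PMF.mem_support_map_iff] at hT
    obtain ⟨T', hT', rfl⟩ := hT
    rw [b28_depth]
    exact hA1 T' hT'
  · intro f
    rw [PMF.toOuterMeasure_map_apply]
    refine (hA2 (Φ f)).trans (le_of_eq ?_)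
    congr 1
    ext T
    simp only [Set.mem_setOf_eq, Set.mem_preimage]
    rw [b28_eval π σ f (Φ f) (hΦ f) T, hd f]

end Pool.Agent.Work.MP_8f25a0_lc.Decoy
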