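import Pool.Agent.Work.MP_8f25a0_lc.Decoy.B30

namespace Pool.Agent.Work.MP_8f25a0_lc.Decoy

open Finset

theorem distK_dummy {n k : ℕ} (f : Cube n → Bool) :
    distK k (fun x : Cube (n + 1) => f (x ∘ Fin.castSucc)) = distK k f := by
  classical
  have hF : ∀ (g : Cube n → Bool) (b : Bool), (fun y : Cube n =>
      g ((Fin.snoc (α := fun _ => Bool) y b : Cube (n + 1)) ∘ Fin.castSucc)) = g := by
    intro g b
    funext y
    rw [b30_snoc_comp]
  apply le_antisymm
  · obtain ⟨g, ⟨J, hJ, hg⟩, hg'⟩ := exists_distK k f
    rw [hg']
    have hj : IsJunta k (fun x : Cube (n + 1) => g (x ∘ Fin.castSucc)) := by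
      refine ⟨J.image Fin.castSucc, card_image_le.trans hJ, ?_⟩
      intro x y hxy
      apply hg
      intro i hi
      exact hxy _ (mem_image_of_mem _ hi)
    refine (distK_le hj).trans (le_of_eq ?_)
    rw [b30_dist, hF, hF, hF, hF]
    ring
  · apply le_distK
    rintro G ⟨J, hJ, hG⟩
    rw [b30_dist, hF, hF]
    have hjb : ∀ b : Bool, distK k f ≤ dist f
        (fun y => G (Fin.snoc (α := fun _ => Bool) y b)) := by
      intro b
      apply distK_le
      refine ⟨univ.filter fun i : Fin n => Fin.castSucc i ∈ J, ?_, ?_⟩
      · have h1 : ((univ.filter fun i : Fin n => Fin.castSucc i ∈ J).image Fin.castSucc) ⊆ J := by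
          intro i hi
          obtain ⟨j, hj, rfl⟩ := mem_image.1 hi
          exact (mem_filter.1 hj).2
        have h2 := card_le_card h1
        rw [card_image_of_injective _ (Fin.castSucc_injective n)] at h2
        omega
      · intro x y hxy
        apply hG
        intro i hi
        induction i using Fin.lastCases with
        | last => simp
        | cast j =>
          have := hxy j (mem_filter.2 ⟨mem_univ _, hi⟩)
          simpa using this
    have h1 := hjb false
    have h2 := hjb true
    linarith

end Pool.Agent.Work.MP_8f25a0_lc.Decoy
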