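import Pool.Agent.Work.MP_8f25a0_lc.Decoy.Basic

namespace Pool.Agent.Work.MP_8f25a0_lc.Decoy

open Finset

/-- counting on the cube of dimension `n + 1` by the last coordinate -/
theorem b30_card {n : ℕ} (p : Cube (n + 1) → Prop) [DecidablePred p]
    [DecidablePred fun y : Cube n => p (Fin.snoc (α := fun _ => Bool) y false)]
    [DecidablePred fun y : Cube n => p (Fin.snoc (α := fun _ => Bool) y true)] :
    (univ.filter p).card =
      (univ.filter fun y : Cube n => p (Fin.snoc (α := fun _ => Bool) y false)).card +
      (univ.filter fun y : Cube n => p (Fin.snoc (α := fun _ => Bool) y true)).card := by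
  classical
  let e : Bool × Cube n ≃ Cube (n + 1) := Fin.snocEquiv (fun _ => Bool)
  have he : ∀ b y, e (b, y) = Fin.snoc (α := fun _ => Bool) y b := fun b y => rfl
  have h1 : (univ.filter p).card = (univ.filter fun q : Bool × Cube n => p (e q)).card := by
    rw [← Fintype.card_subtype, ← Fintype.card_subtype]
    exact (Fintype.card_congr (e.subtypeEquiv fun _ => Iff.rfl)).symm
  rw [h1]
  have h2 : (univ.filter fun q : Bool × Cube n => p (e q)) =
      ((univ.filter fun y : Cube n => p (Fin.snoc (α := fun _ => Bool) y false)).image
        fun y => (false, y)) ∪
      ((univ.filter fun y : Cube n => p (Fin.snoc (α := fun _ => Bool) y true)).image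
        fun y => (true, y)) := by
    ext ⟨b, y⟩
    simp only [mem_filter, mem_univ, true_and, mem_union, mem_image, Prod.mk.injEq, he]
    cases b <;> simp
  rw [h2, card_union_of_disjoint, card_image_of_injective, card_image_of_injective]
  · intro a b h
    exact (Prod.mk.inj h).2
  · intro a b h
    exact (Prod.mk.inj h).2
  · rw [disjoint_left]
    intro q h1 h2
    obtain ⟨y, _, rfl⟩ := mem_image.1 h1
    obtain ⟨y', _, h3⟩ := mem_image.1 h2
    exact absurd (Prod.mk.inj h3).1 (by simp)

theorem b30_snoc_comp {n : ℕ} (y : Cube n) (b : Bool) :
    (Fin.snoc (α := fun _ => Bool) y b : Cube (n + 1)) ∘ Fin.castSucc = y := by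
  funext i
  simp

theorem b30_snoc_last {n : ℕ} (y : Cube n) (b : Bool) :
    (Fin.snoc (α := fun _ => Bool) y b : Cube (n + 1)) (Fin.last n) = b := by
  simp

theorem b30_dist {n : ℕ} (F G : Cube (n + 1) → Bool) :
    dist F G = (dist (fun y : Cube n => F (Fin.snoc (α := fun _ => Bool) y false))
        (fun y => G (Fin.snoc (α := fun _ => Bool) y false)) +
      dist (fun y : Cube n => F (Fin.snoc (α := fun _ => Bool) y true))
        (fun y => G (Fin.snoc (α := fun _ => Bool) y true))) / 2 := by
  unfold dist
  rw [b30_card (fun x => F x ≠ G x)]
  push_cast
  rw [pow_succ]
  field_simp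

theorem distK_xor {n k : ℕ} (f : Cube n → Bool) :
    distK (k + 1) (fun x : Cube (n + 1) => xor (f (x ∘ Fin.castSucc)) (x (Fin.last n))) =
      distK k f := by
  classical
  apply le_antisymm
  · obtain ⟨g, ⟨J, hJ, hg⟩, hg'⟩ := exists_distK k f
    rw [hg']
    have hj : IsJunta (k + 1)
        (fun x : Cube (n + 1) => xor (g (x ∘ Fin.castSucc)) (x (Fin.last n))) := by
      refine ⟨insert (Fin.last n) (J.image Fin.castSucc), ?_, ?_⟩
      · exact (card_insert_le _ _).trans (by have := card_image_le (s := J) (f := Fin.castSucc); omega)
      · intro x y hxy
        have h1 : g (x ∘ Fin.castSucc) = g (y ∘ Fin.castSucc) := by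
          apply hg
          intro i hi
          exact hxy _ (mem_insert_of_mem (mem_image_of_mem _ hi))
        have h2 := hxy (Fin.last n) (mem_insert_self _ _)
        change xor _ _ = xor _ _
        rw [h1, h2]
    refine (distK_le hj).trans (le_of_eq ?_)
    rw [b30_dist]
    have h0 : ∀ b : Bool, dist
        (fun y : Cube n => xor (f ((Fin.snoc (α := fun _ => Bool) y b : Cube (n + 1)) ∘ Fin.castSucc))
          ((Fin.snoc (α := fun _ => Bool) y b : Cube (n + 1)) (Fin.last n)))
        (fun y : Cube n => xor (g ((Fin.snoc (α := fun _ => Bool) y b : Cube (n + 1)) ∘ Fin.castSucc))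
          ((Fin.snoc (α := fun _ => Bool) y b : Cube (n + 1)) (Fin.last n))) = dist f g := by
      intro b
      unfold dist
      congr 2
      congr 1
      ext y
      simp only [mem_filter, mem_univ, true_and, b30_snoc_comp, b30_snoc_last]
      cases b <;> simp
    rw [h0 false, h0 true]
    ring
  · apply le_distK
    rintro G ⟨J, hJ, hG⟩
    rw [b30_dist]
    have hF : ∀ b : Bool, (fun y : Cube n =>
        xor (f ((Fin.snoc (α := fun _ => Bool) y b : Cube (n + 1)) ∘ Fin.castSucc))
          ((Fin.snoc (α := fun _ => Bool) y b : Cube (n + 1)) (Fin.last n))) =
        fun y => xor (f y) b := by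
      intro b
      funext y
      rw [b30_snoc_comp, b30_snoc_last]
    rw [hF, hF]
    by_cases hl : Fin.last n ∈ J
    · -- the last coordinate is read
      have hjb : ∀ b : Bool, distK k f ≤ dist (fun y : Cube n => xor (f y) b)
          (fun y => G (Fin.snoc (α := fun _ => Bool) y b)) := by
        intro b
        have hj : IsJunta k (fun y : Cube n => xor (G (Fin.snoc (α := fun _ => Bool) y b)) b) := by
          refine ⟨univ.filter fun i : Fin n => Fin.castSucc i ∈ J, ?_, ?_⟩
          · have h1 : ((univ.filter fun i : Fin n => Fin.castSucc i ∈ J).image Fin.castSucc) ⊆
                J.erase (Fin.last n) := by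
              intro i hi
              obtain ⟨j, hj, rfl⟩ := mem_image.1 hi
              rw [mem_erase]
              exact ⟨(Fin.castSucc_lt_last j).ne, (mem_filter.1 hj).2⟩
            have h2 := card_le_card h1
            rw [card_image_of_injective _ (Fin.castSucc_injective n), card_erase_of_mem hl] at h2
            omega
          · intro x y hxy
            change xor _ _ = xor _ _
            congr 1
            apply hG
            intro i hi
            induction i using Fin.lastCases with
            | last => simp
            | cast j =>
              have := hxy j (mem_filter.2 ⟨mem_univ _, hi⟩)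
              simpa using this
        refine (distK_le hj).trans (le_of_eq ?_)
        unfold dist
        congr 2
        congr 1
        ext y
        simp only [mem_filter, mem_univ, true_and]
        cases b <;> cases f y <;> cases G (Fin.snoc (α := fun _ => Bool) y _) <;> simp
      have h1 := hjb false
      have h2 := hjb true
      linarith
    · -- the last coordinate is not read
      have hGG : ∀ y : Cube n, G (Fin.snoc (α := fun _ => Bool) y true) =
          G (Fin.snoc (α := fun _ => Bool) y false) := by
        intro y
        apply hG
        intro i hi
        induction i using Fin.lastCases with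
        | last => exact absurd hi hl
        | cast j => simp
      have hsum : dist (fun y : Cube n => xor (f y) false)
            (fun y => G (Fin.snoc (α := fun _ => Bool) y false)) +
          dist (fun y : Cube n => xor (f y) true)
            (fun y => G (Fin.snoc (α := fun _ => Bool) y true)) = 1 := by
        unfold dist
        simp_rw [hGG]
        have hc : (univ.filter fun y : Cube n =>
              xor (f y) false ≠ G (Fin.snoc (α := fun _ => Bool) y false)).card +
            (univ.filter fun y : Cube n =>
              xor (f y) true ≠ G (Fin.snoc (α := fun _ => Bool) y false)).card = 2 ^ n := by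
          have h1 : (univ.filter fun y : Cube n =>
              xor (f y) true ≠ G (Fin.snoc (α := fun _ => Bool) y false)) =
              univ.filter fun y : Cube n =>
              ¬ (xor (f y) false ≠ G (Fin.snoc (α := fun _ => Bool) y false)) := by
            ext y
            simp only [mem_filter, mem_univ, true_and]
            cases f y <;> cases G (Fin.snoc (α := fun _ => Bool) y false) <;> simp
          rw [h1, card_filter_add_card_filter_not]
          simp
        rw [← add_div, ← Nat.cast_add, hc]
        push_cast
        exact div_self (by positivity)
      rw [hsum]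
      -- constants are juntas
      have hk1 := distK_le (k := k) (f := f) (isJunta_const false)
      have hk2 := distK_le (k := k) (f := f) (isJunta_const true)
      have hc : dist f (fun _ => false) + dist f (fun _ => true) = 1 := by
        unfold dist
        have hc : (univ.filter fun y : Cube n => f y ≠ false).card +
            (univ.filter fun y : Cube n => f y ≠ true).card = 2 ^ n := by
          have h1 : (univ.filter fun y : Cube n => f y ≠ true) =
              univ.filter fun y : Cube n => ¬ (f y ≠ false) := by
            ext y
            simp only [mem_filter, mem_univ, true_and]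
            cases f y <;> simp
          rw [h1, card_filter_add_card_filter_not]
          simp
        rw [← add_div, ← Nat.cast_add, hc]
        push_cast
        exact div_self (by positivity)
      linarith

end Pool.Agent.Work.MP_8f25a0_lc.Decoy
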