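import Pool.Agent.Work.MP_8f25a0_lc.Decoy.Basic

/-!
# Decoys: B31, polynomials against exponentials
-/

namespace Pool.Agent.Work.MP_8f25a0_lc.Decoy

open Finset

theorem star (A : ℝ) (h : ℕ) (hh : 1 ≤ h) :
    ∃ k₀ : ℕ, ∀ k : ℕ, k₀ ≤ k → A * ((k : ℝ) + 6) ^ 10 ≤ 2 ^ (k / h) := by
  have h1 : Filter.Tendsto (fun n : ℕ => (n : ℝ) ^ 10 / (2 : ℝ) ^ n) Filter.atTop (nhds 0) :=
    tendsto_pow_const_div_const_pow_of_one_lt 10 (by norm_num)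
  have h2 : Filter.Tendsto (fun n : ℕ => (|A| * (h + 6) ^ 10 * 2) *
      ((n : ℝ) ^ 10 / (2 : ℝ) ^ n)) Filter.atTop (nhds ((|A| * (h + 6) ^ 10 * 2) * 0)) :=
    h1.const_mul _
  rw [mul_zero] at h2
  have h3 := h2.eventually (gt_mem_nhds (zero_lt_one' ℝ))
  obtain ⟨j₀, hj₀⟩ := Filter.eventually_atTop.mp h3
  refine ⟨h * j₀, fun k hk => ?_⟩
  have hh' : 0 < h := hh
  set j := k / h with hj
  have hj1 : j₀ ≤ j := by
    rw [hj, Nat.le_div_iff_mul_le hh', mul_comm]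
    exact hk
  have hk1 : k < h * (j + 1) := by
    have := Nat.lt_div_mul_add hh' (a := k)
    rw [← hj] at this
    calc k < j * h + h := this
      _ = h * (j + 1) := by ring
  have hk2 : (k : ℝ) + 6 ≤ (h + 6) * ((j + 1 : ℕ) : ℝ) := by
    have e1 : (k : ℝ) ≤ h * ((j + 1 : ℕ) : ℝ) := by exact_mod_cast hk1.le
    have e2 : (6 : ℝ) ≤ 6 * ((j + 1 : ℕ) : ℝ) := by
      have : (1 : ℝ) ≤ ((j + 1 : ℕ) : ℝ) := by exact_mod_cast Nat.succ_le_succ (Nat.zero_le j)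
      linarith
    linarith
  have h4 := hj₀ (j + 1) (by omega)
  have h5 : (0 : ℝ) < 2 ^ (j + 1) := by positivity
  rw [← mul_div_assoc, div_lt_one h5] at h4
  have h6 : |A| * (h + 6) ^ 10 * ((j + 1 : ℕ) : ℝ) ^ 10 ≤ 2 ^ j := by
    have : (2 : ℝ) ^ (j + 1) = 2 * 2 ^ j := by ring
    rw [this] at h4
    linarith
  calc A * ((k : ℝ) + 6) ^ 10 ≤ |A| * ((k : ℝ) + 6) ^ 10 :=
        mul_le_mul_of_nonneg_right (le_abs_self A) (by positivity)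
    _ ≤ |A| * ((h + 6) * ((j + 1 : ℕ) : ℝ)) ^ 10 := by gcongr
    _ = |A| * (h + 6) ^ 10 * ((j + 1 : ℕ) : ℝ) ^ 10 := by ring
    _ ≤ 2 ^ j := h6

end Pool.Agent.Work.MP_8f25a0_lc.Decoy
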