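import Pool.Agent.Work.MP_8f25a0_lc.Decoy.Step
import Pool.Agent.Work.MP_8f25a0_lc.Decoy.B28
import Pool.Agent.Work.MP_8f25a0_lc.Decoy.B29
import Pool.Agent.Work.MP_8f25a0_lc.Decoy.B30
import Pool.Agent.Work.MP_8f25a0_lc.Decoy.B31
import Pool.Agent.Work.MP_8f25a0_lc.Final

/-!
# Decoys: the lower bound
-/

namespace Pool.Agent.Work.MP_8f25a0_lc.Decoy

open Finset

theorem qc_succ {n k : ℕ} {ε : ℝ} (hε : 0 ≤ ε) :
    queryComplexity n k ε ≤ queryComplexity (n + 1) k ε :=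
  reduction hε (fun f x => f (x ∘ Fin.castSucc)) (fun x => x ∘ Fin.castSucc) (fun _ => false)
    (fun f x => by simp) distK_dummy

theorem qc_mono {n n' k : ℕ} {ε : ℝ} (hε : 0 ≤ ε) (h : n ≤ n') :
    queryComplexity n k ε ≤ queryComplexity n' k ε := by
  induction h with
  | refl => exact le_rfl
  | step _ ih => exact ih.trans (qc_succ hε)

theorem qc_xor {n k : ℕ} {ε : ℝ} (hε : 0 ≤ ε) (i : ℕ) :
    queryComplexity n k ε ≤ queryComplexity (n + i) (k + i) ε := by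
  induction i with
  | zero => exact le_rfl
  | succ i ih =>
    refine ih.trans ?_
    exact reduction hε (fun f x => xor (f (x ∘ Fin.castSucc)) (x (Fin.last (n + i))))
      (fun x => x ∘ Fin.castSucc) (fun x => x (Fin.last (n + i))) (fun f x => rfl) distK_xor

theorem qc_eps {n k : ℕ} {ε ε' : ℝ} (hε : 0 ≤ ε) (h : ε ≤ ε') :
    queryComplexity n k ε' ≤ queryComplexity n k ε := by
  obtain ⟨A, hA⟩ := exists_approximates n k hε
  exact queryComplexity_le (hA.mono h)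

theorem core_num {h k : ℕ} (hk : 1 ≤ k)
    (hst : 10 ^ 13 * 16 ^ (h ^ 2) * ((k : ℝ) + 6) ^ 10 ≤ 2 ^ (k / (4 * h))) :
    32 * ((k : ℝ) + 6) * (2 ^ (k / h + 1) * (10 ^ 10 * 16 ^ (h ^ 2) * k * ((k : ℝ) + 3) ^ 8)) ≤
      2 ^ (2 * (k / h)) := by
  have hk0 : (0 : ℝ) ≤ k := Nat.cast_nonneg _
  have h1 : (2 : ℝ) ^ (k / (4 * h)) ≤ 2 ^ (k / h) := by
    apply pow_le_pow_right₀ (by norm_num)
    rw [mul_comm, ← Nat.div_div_eq_div_mul]
    exact Nat.div_le_self _ _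
  have h2 : ((k : ℝ) + 6) * (k * ((k : ℝ) + 3) ^ 8) ≤ ((k : ℝ) + 6) ^ 10 := by
    calc ((k : ℝ) + 6) * (k * ((k : ℝ) + 3) ^ 8) ≤
          ((k : ℝ) + 6) * (((k : ℝ) + 6) * ((k : ℝ) + 6) ^ 8) := by
          gcongr <;> linarith
      _ = _ := by ring
  calc 32 * ((k : ℝ) + 6) * (2 ^ (k / h + 1) * (10 ^ 10 * 16 ^ (h ^ 2) * k * ((k : ℝ) + 3) ^ 8))
      = 64 * 10 ^ 10 * 16 ^ (h ^ 2) * (((k : ℝ) + 6) * (k * ((k : ℝ) + 3) ^ 8)) * 2 ^ (k / h) := by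
        rw [pow_succ]; ring
    _ ≤ 10 ^ 13 * 16 ^ (h ^ 2) * ((k : ℝ) + 6) ^ 10 * 2 ^ (k / h) := by
        gcongr
        norm_num
    _ ≤ 2 ^ (k / h) * 2 ^ (k / h) := by
        apply mul_le_mul_of_nonneg_right (hst.trans h1) (by positivity)
    _ = 2 ^ (2 * (k / h)) := by rw [← pow_add]; congr 1; ring

theorem core {h k n : ℕ} {ε : ℝ} (hh : 2 ≤ h) (hk : 1 ≤ k)
    (hst : 10 ^ 13 * 16 ^ (h ^ 2) * ((k : ℝ) + 6) ^ 10 ≤ 2 ^ (k / (4 * h)))
    (hn : 4 * (k * 16 ^ (h ^ 2)) ≤ n) (hlog : Real.log n ≤ 2 ^ k) (hε0 : 0 < ε)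
    (hε1 : ε ≤ 1 / 2 ^ (k * 16 ^ (h ^ 2))) :
    2 ^ k * min (2 ^ n / 2 ^ k) (1 / ε ^ 2) ≤ 2 ^ (2 * (k / h)) * (queryComplexity n k ε : ℝ) := by
  have hk1 : (1 : ℝ) ≤ k := by exact_mod_cast hk
  have hk0 : (0 : ℝ) < k := by linarith
  have hq0 : 65536 ≤ 16 ^ (h ^ 2) := by
    calc 65536 = 16 ^ 4 := by norm_num
      _ ≤ 16 ^ (h ^ 2) := Nat.pow_le_pow_right (by norm_num) (by nlinarith)
  obtain ⟨N, hN⟩ : ∃ N : ℕ, N = k * 16 ^ (h ^ 2) := ⟨_, rfl⟩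
  have hkN : 65536 * k ≤ N := by rw [hN]; nlinarith
  rw [← hN] at hn hε1
  have hnum := core_num hk hst
  set Z : ℝ := 2 ^ (k / h + 1) * (10 ^ 10 * 16 ^ (h ^ 2) * k * ((k : ℝ) + 3) ^ 8) with hZ
  have hZ0 : 0 < Z := by positivity
  have hK1 : (1 : ℝ) ≤ 32 * ((k : ℝ) + 6) := by linarith
  have h2k : (0 : ℝ) < 2 ^ k := by positivity
  have hstepZ : ∀ e : ℝ, 0 < e → 2 ^ k / 2 ^ (k / h + 1) /
      (10 ^ 10 * 16 ^ (h ^ 2) * k * ((k : ℝ) + 3) ^ 8 * e ^ 2) = 2 ^ k / (Z * e ^ 2) := by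
    intro e he
    rw [hZ, div_div]
    congr 1
    ring
  rcases le_or_gt (32 * ((k : ℝ) + 6)) (2 ^ n / 2 ^ k * ε ^ 2) with hA | hB
  · -- many variables
    classical
    have hex : ∃ i : ℕ, 32 * ((k : ℝ) + 6) ≤ 2 ^ i / 2 ^ k * ε ^ 2 := ⟨n, hA⟩
    set n₁ := Nat.find hex with hn₁
    have hn₁P : 32 * ((k : ℝ) + 6) ≤ 2 ^ n₁ / 2 ^ k * ε ^ 2 := Nat.find_spec hex
    have hn₁n : n₁ ≤ n := Nat.find_min' hex hA
    have hsmall : ∀ i : ℕ, i ≤ N → 2 ^ i / 2 ^ k * ε ^ 2 < 32 * ((k : ℝ) + 6) := by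
      intro i hi
      have e1 : ε ^ 2 ≤ (1 / 2 ^ N) ^ 2 := pow_le_pow_left₀ hε0.le hε1 2
      have e2 : (2 : ℝ) ^ i ≤ 2 ^ N := pow_le_pow_right₀ (by norm_num) hi
      calc 2 ^ i / 2 ^ k * ε ^ 2 ≤ 2 ^ i * ε ^ 2 := by
            apply mul_le_mul_of_nonneg_right _ (by positivity)
            exact div_le_self (by positivity) (one_le_pow₀ (by norm_num))
        _ ≤ 2 ^ N * (1 / 2 ^ N) ^ 2 := by gcongr
        _ = 1 / 2 ^ N := by field_simp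
        _ ≤ 1 := by
            rw [div_le_one (by positivity)]
            exact one_le_pow₀ (by norm_num)
        _ < 32 * ((k : ℝ) + 6) := by linarith
    have hNn₁ : N < n₁ := by
      by_contra hcon
      push Not at hcon
      exact absurd hn₁P (not_le.mpr (hsmall n₁ hcon))
    have hhi : 2 ^ n₁ / 2 ^ k * ε ^ 2 ≤ 64 * ((k : ℝ) + 6) := by
      have h1 : ¬ 32 * ((k : ℝ) + 6) ≤ 2 ^ (n₁ - 1) / 2 ^ k * ε ^ 2 :=
        Nat.find_min hex (by omega)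
      push Not at h1
      have h2 : (2 : ℝ) ^ n₁ = 2 ^ (n₁ - 1) * 2 := by
        rw [← pow_succ]
        congr 1
        omega
      rw [h2]
      have h3 : (2 : ℝ) ^ (n₁ - 1) * 2 / 2 ^ k * ε ^ 2 = 2 * (2 ^ (n₁ - 1) / 2 ^ k * ε ^ 2) := by
        ring
      rw [h3]
      linarith
    have hlog₁ : Real.log n₁ ≤ 2 ^ k := by
      refine le_trans (Real.log_le_log ?_ ?_) hlog
      · have : 0 < n₁ := by omega
        exact_mod_cast this
      · exact_mod_cast hn₁n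
    obtain ⟨A, hA'⟩ := exists_approximates n₁ k hε0.le
    have h1 := step hh hk hst (by rw [← hN]; omega) hlog₁ hε0 (by rw [← hN]; exact hε1) hn₁P hhi hA'
    rw [hstepZ ε hε0] at h1
    have h2 : (queryComplexity n₁ k ε : ℝ) ≤ queryComplexity n k ε := by
      exact_mod_cast qc_mono hε0.le hn₁n
    calc 2 ^ k * min (2 ^ n / 2 ^ k) (1 / ε ^ 2) ≤ 2 ^ k * (1 / ε ^ 2) :=
          mul_le_mul_of_nonneg_left (min_le_right _ _) h2k.le
      _ = Z * (2 ^ k / (Z * ε ^ 2)) := by field_simp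
      _ ≤ Z * queryComplexity n k ε := mul_le_mul_of_nonneg_left (h1.trans h2) hZ0.le
      _ ≤ 2 ^ (2 * (k / h)) * queryComplexity n k ε := by
          apply mul_le_mul_of_nonneg_right _ (Nat.cast_nonneg _)
          refine le_trans ?_ hnum
          exact le_mul_of_one_le_left hZ0.le hK1
  · -- few variables
    set ε₂ : ℝ := √(32 * ((k : ℝ) + 6) * 2 ^ k / 2 ^ n) with hε₂
    have hε₂sq : ε₂ ^ 2 = 32 * ((k : ℝ) + 6) * 2 ^ k / 2 ^ n := Real.sq_sqrt (by positivity)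
    have hε₂0 : 0 < ε₂ := Real.sqrt_pos.mpr (by positivity)
    have heq : 2 ^ n / 2 ^ k * ε₂ ^ 2 = 32 * ((k : ℝ) + 6) := by
      rw [hε₂sq]; field_simp
    have hεε : ε ≤ ε₂ := by
      have h1 : 2 ^ n / 2 ^ k * ε ^ 2 < 2 ^ n / 2 ^ k * ε₂ ^ 2 := by rw [heq]; exact hB
      have h2 : ε ^ 2 < ε₂ ^ 2 := lt_of_mul_lt_mul_left h1 (by positivity)
      exact le_of_sq_le_sq h2.le hε₂0.le
    have hε₂1 : ε₂ ≤ 1 / 2 ^ N := by
      apply le_of_sq_le_sq _ (by positivity)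
      rw [hε₂sq, div_pow, one_pow, div_le_div_iff₀ (by positivity) (by positivity), one_mul]
      have h1 : 32 * ((k : ℝ) + 6) ≤ 2 ^ (k + 8) := by
        have h2 : k + 6 ≤ 2 ^ (k + 3) := by
          have := Nat.lt_two_pow_self (n := k)
          rw [pow_add]
          omega
        have h3 : (k : ℝ) + 6 ≤ 2 ^ (k + 3) := by exact_mod_cast h2
        calc 32 * ((k : ℝ) + 6) ≤ 32 * 2 ^ (k + 3) := by linarith
          _ = 2 ^ (k + 8) := by rw [pow_add, pow_add]; ring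
      calc 32 * ((k : ℝ) + 6) * 2 ^ k * (2 ^ N) ^ 2 ≤ 2 ^ (k + 8) * 2 ^ k * (2 ^ N) ^ 2 := by
            gcongr
        _ = 2 ^ (k + 8 + k + N * 2) := by rw [← pow_mul, ← pow_add, ← pow_add]
        _ ≤ 2 ^ n := pow_le_pow_right₀ (by norm_num) (by omega)
    obtain ⟨A, hA'⟩ := exists_approximates n k hε₂0.le
    have h1 := step hh hk hst (by rw [← hN]; omega) hlog hε₂0 (by rw [← hN]; exact hε₂1) heq.ge
      (by rw [heq]; linarith) hA'
    rw [hstepZ ε₂ hε₂0] at h1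
    have h2 : (queryComplexity n k ε₂ : ℝ) ≤ queryComplexity n k ε := by
      exact_mod_cast qc_eps hε0.le hεε
    have h3 : (2 : ℝ) ^ n / 2 ^ k = 32 * ((k : ℝ) + 6) / ε₂ ^ 2 := by
      rw [eq_div_iff (by positivity)]
      exact heq
    calc 2 ^ k * min (2 ^ n / 2 ^ k) (1 / ε ^ 2) ≤ 2 ^ k * (2 ^ n / 2 ^ k) :=
          mul_le_mul_of_nonneg_left (min_le_left _ _) h2k.le
      _ = 2 ^ k * (32 * ((k : ℝ) + 6) / ε₂ ^ 2) := by rw [h3]
      _ = (32 * ((k : ℝ) + 6) * Z) * (2 ^ k / (Z * ε₂ ^ 2)) := by field_simp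
      _ ≤ (32 * ((k : ℝ) + 6) * Z) * queryComplexity n k ε :=
          mul_le_mul_of_nonneg_left (h1.trans h2) (by positivity)
      _ ≤ 2 ^ (2 * (k / h)) * queryComplexity n k ε :=
          mul_le_mul_of_nonneg_right hnum (Nat.cast_nonneg _)

/-- **The lower bound.** -/
theorem decoy_lower {γ : ℝ} (hγ : 0 < γ) : ∃ C : ℝ, 1 ≤ C ∧ ∀ (n k : ℕ) (ε : ℝ),
    k < n → C * k ≤ n → Real.log n ≤ 2 ^ k → 0 < ε → ε < 1 / 4 → ε ≤ 2 ^ (-(C * k)) →
    2 ^ ((1 - γ) * k) * min (2 ^ n / 2 ^ k) (1 / ε ^ 2) ≤ C * (queryComplexity n k ε : ℝ) := by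
  -- the parameter
  obtain ⟨h, hh, hhγ⟩ : ∃ h : ℕ, 2 ≤ h ∧ 2 / (h : ℝ) ≤ γ := by
    obtain ⟨i, hi⟩ := exists_nat_ge (2 / γ)
    refine ⟨i + 2, by omega, ?_⟩
    have h1 : (0 : ℝ) < ((i + 2 : ℕ) : ℝ) := by positivity
    rw [div_le_iff₀ h1]
    rw [div_le_iff₀ hγ] at hi
    push_cast
    nlinarith
  obtain ⟨k₀, hk₀⟩ := star (10 ^ 13 * 16 ^ (h ^ 2)) (4 * h) (by omega)
  set C : ℝ := 4000 * 2 ^ k₀ * (4 * 16 ^ (h ^ 2)) with hC
  have h2k₀ : (1 : ℝ) ≤ 2 ^ k₀ := one_le_pow₀ (by norm_num)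
  have h16 : (1 : ℝ) ≤ 16 ^ (h ^ 2) := one_le_pow₀ (by norm_num)
  have hC1 : 4 * 16 ^ (h ^ 2) ≤ C := by
    rw [hC]
    exact le_mul_of_one_le_left (by positivity) (by linarith)
  have hC2 : 4000 * 2 ^ k₀ ≤ C := by
    rw [hC]
    exact le_mul_of_one_le_right (by positivity) (by linarith)
  refine ⟨C, by linarith, ?_⟩
  intro n k ε hkn hCn hlog hε0 hε4 hεC
  have hq : (0 : ℝ) ≤ queryComplexity n k ε := Nat.cast_nonneg _
  have hmin0 : (0 : ℝ) ≤ min (2 ^ n / 2 ^ k) (1 / ε ^ 2) := by positivity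
  have hk0 : (0 : ℝ) ≤ k := Nat.cast_nonneg _
  rcases lt_or_ge k k₀ with hk | hk
  · -- small `k`
    obtain ⟨A, hA⟩ := exists_approximates n k hε0.le
    have h1 := lower_bound hkn hε0 hε4 hA
    have h2 : (2 : ℝ) ^ ((1 - γ) * k) ≤ 2 ^ k₀ := by
      rw [← Real.rpow_natCast]
      apply Real.rpow_le_rpow_of_exponent_le (by norm_num)
      have : (k : ℝ) ≤ k₀ := by exact_mod_cast hk.le
      nlinarith
    have h3 : min (2 ^ n / 2 ^ k) (1 / ε ^ 2) ≤ min (2 ^ n) (1 / ε ^ 2) := by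
      apply min_le_min_right
      exact div_le_self (by positivity) (one_le_pow₀ (by norm_num))
    calc _ ≤ 2 ^ k₀ * min ((2 : ℝ) ^ n) (1 / ε ^ 2) :=
          mul_le_mul h2 h3 hmin0 (by positivity)
      _ ≤ 2 ^ k₀ * (4000 * queryComplexity n k ε) := by
          apply mul_le_mul_of_nonneg_left _ (by positivity)
          linarith
      _ = (4000 * 2 ^ k₀) * queryComplexity n k ε := by ring
      _ ≤ C * queryComplexity n k ε := mul_le_mul_of_nonneg_right hC2 hq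
  · -- large `k`
    have hst := hk₀ k hk
    have hk1 : 4 * h ≤ k := by
      by_contra hcon
      push Not at hcon
      rw [Nat.div_eq_of_lt hcon, pow_zero] at hst
      have h1 : (1 : ℝ) ≤ ((k : ℝ) + 6) ^ 10 := one_le_pow₀ (by linarith)
      have h2 : (1 : ℝ) ≤ 16 ^ (h ^ 2) * ((k : ℝ) + 6) ^ 10 := one_le_mul_of_one_le_of_one_le h16 h1
      nlinarith
    have hCk : (4 * (k * 16 ^ (h ^ 2)) : ℝ) ≤ C * k := by nlinarith
    have hn1 : 4 * (k * 16 ^ (h ^ 2)) ≤ n := by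
      have h1 : (4 * (k * 16 ^ (h ^ 2)) : ℝ) ≤ n := hCk.trans hCn
      exact_mod_cast h1
    have hε1 : ε ≤ 1 / 2 ^ (k * 16 ^ (h ^ 2)) := by
      refine hεC.trans ?_
      rw [Real.rpow_neg (by norm_num), ← one_div]
      apply one_div_le_one_div_of_le (by positivity)
      rw [← Real.rpow_natCast]
      apply Real.rpow_le_rpow_of_exponent_le (by norm_num)
      push_cast
      nlinarith
    have hcore := core hh (by omega : 1 ≤ k) hst hn1 hlog hε0 hε1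
    have hexp : (2 : ℝ) ^ ((1 - γ) * k) * 2 ^ (2 * (k / h)) ≤ 2 ^ k := by
      rw [← Real.rpow_natCast 2 (2 * (k / h)), ← Real.rpow_natCast 2 k,
        ← Real.rpow_add (by norm_num)]
      apply Real.rpow_le_rpow_of_exponent_le (by norm_num)
      have h1 : ((k / h : ℕ) : ℝ) ≤ (k : ℝ) / h := Nat.cast_div_le
      have h2 : 2 * ((k : ℝ) / h) ≤ γ * k := by
        calc 2 * ((k : ℝ) / h) = 2 / h * k := by ring
          _ ≤ γ * k := mul_le_mul_of_nonneg_right hhγ hk0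
      push_cast
      linarith
    have hfin : (2 : ℝ) ^ (2 * (k / h)) * (2 ^ ((1 - γ) * k) *
        min (2 ^ n / 2 ^ k) (1 / ε ^ 2)) ≤ 2 ^ (2 * (k / h)) *
        (queryComplexity n k ε : ℝ) := by
      calc (2 : ℝ) ^ (2 * (k / h)) * (2 ^ ((1 - γ) * k) * min (2 ^ n / 2 ^ k) (1 / ε ^ 2))
          = (2 ^ ((1 - γ) * k) * 2 ^ (2 * (k / h))) * min (2 ^ n / 2 ^ k) (1 / ε ^ 2) := by ring
        _ ≤ 2 ^ k * min (2 ^ n / 2 ^ k) (1 / ε ^ 2) := mul_le_mul_of_nonneg_right hexp hmin0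
        _ ≤ 2 ^ (2 * (k / h)) * queryComplexity n k ε := hcore
    have hfin2 := le_of_mul_le_mul_left hfin (by positivity)
    calc _ ≤ (queryComplexity n k ε : ℝ) := hfin2
      _ ≤ C * queryComplexity n k ε := le_mul_of_one_le_left hq (by linarith)

end Pool.Agent.Work.MP_8f25a0_lc.Decoy
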