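import Pool.Agent.Work.MP_8f25a0_lc.Decoy.Basic

namespace Pool.Agent.Work.MP_8f25a0_lc.Decoy

open Finset

/-- the involution exchanging the coordinate `i` with an extra coordinate -/
def b01_swap {I V : Type*} [DecidableEq I] (i : I) : (I → V) × V ≃ (I → V) × V where
  toFun q := (Function.update q.1 i q.2, q.1 i)
  invFun q := (Function.update q.1 i q.2, q.1 i)
  left_inv q := by simp
  right_inv q := by simp

theorem EL_update {I V : Type*} [Fintype I] [DecidableEq I] [Fintype V] (u : I → V → ℝ) (i : I)
    (hi : ∑ v, u i v = 1) (w : V → ℝ) (Φ : (I → V) → ℝ) :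
    EL (Function.update u i w) Φ =
      EL u (fun Ξ => ∑ v, w v * Φ (Function.update Ξ i v)) := by
  have key : ∀ q : (I → V) × V, LW u q.1 * w q.2 =
      LW (Function.update u i w) (b01_swap i q).1 * u i (b01_swap i q).2 := by
    rintro ⟨Ξ, v⟩
    show (∏ j, u j (Ξ j)) * w v =
      (∏ j, Function.update u i w j (Function.update Ξ i v j)) * u i (Ξ i)
    rw [← Finset.mul_prod_erase univ (fun j => u j (Ξ j)) (mem_univ i),
      ← Finset.mul_prod_erase univ
        (fun j => Function.update u i w j (Function.update Ξ i v j)) (mem_univ i)]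
    have h : ∏ j ∈ univ.erase i, u j (Ξ j) =
        ∏ j ∈ univ.erase i, Function.update u i w j (Function.update Ξ i v j) :=
      prod_congr rfl fun j hj => by
        rw [Function.update_of_ne (ne_of_mem_erase hj), Function.update_of_ne (ne_of_mem_erase hj)]
    rw [h, Function.update_self, Function.update_self]
    ring
  calc EL (Function.update u i w) Φ
      = ∑ Ξ, ∑ v, LW (Function.update u i w) Ξ * u i v * Φ Ξ := by
        unfold EL
        refine sum_congr rfl fun Ξ _ => ?_
        rw [← sum_mul, ← mul_sum, hi, mul_one]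
    _ = ∑ q : (I → V) × V, LW (Function.update u i w) q.1 * u i q.2 * Φ q.1 :=
        (Fintype.sum_prod_type
          (f := fun q : (I → V) × V => LW (Function.update u i w) q.1 * u i q.2 * Φ q.1)).symm
    _ = ∑ q : (I → V) × V, LW (Function.update u i w) (b01_swap i q).1 *
          u i (b01_swap i q).2 * Φ (b01_swap i q).1 :=
        (Equiv.sum_comp (b01_swap i)
          (fun q : (I → V) × V => LW (Function.update u i w) q.1 * u i q.2 * Φ q.1)).symm
    _ = ∑ q : (I → V) × V, LW u q.1 * (w q.2 * Φ (Function.update q.1 i q.2)) := by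
        refine sum_congr rfl fun q _ => ?_
        rw [← key q, mul_assoc]
        rfl
    _ = ∑ Ξ, ∑ v, LW u Ξ * (w v * Φ (Function.update Ξ i v)) :=
        Fintype.sum_prod_type
          (f := fun q : (I → V) × V => LW u q.1 * (w q.2 * Φ (Function.update q.1 i q.2)))
    _ = EL u (fun Ξ => ∑ v, w v * Φ (Function.update Ξ i v)) := by
        unfold EL
        exact sum_congr rfl fun Ξ _ => (mul_sum _ _ _).symm

end Pool.Agent.Work.MP_8f25a0_lc.Decoy
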