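import Pool.Agent.Work.MP_8f25a0_lc.Decoy.B01

namespace Pool.Agent.Work.MP_8f25a0_lc.Decoy

open Finset

theorem hybrid {I V : Type*} [Fintype I] [DecidableEq I] [Fintype V] {w0 w1 : V → ℝ}
    (n0 : ∀ v, 0 ≤ w0 v) (n1 : ∀ v, 0 ≤ w1 v) (s0 : ∑ v, w0 v = 1) (s1 : ∑ v, w1 v = 1)
    (Φ : (I → V) → ℝ) {κ : ℝ} (A : Finset I)
    (h : ∀ i ∈ A, ∀ Ξ, |∑ v, (w1 v - w0 v) * Φ (Function.update Ξ i v)| ≤ κ) :
    |EL (fun i => if i ∈ A then w1 else w0) Φ - EL (fun _ => w0) Φ| ≤ A.card * κ := by
  induction A using Finset.induction_on with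
  | empty => simp
  | insert i A hi ih =>
    have ih' := ih fun j hj => h j (mem_insert_of_mem hj)
    set uA : I → V → ℝ := fun j => if j ∈ A then w1 else w0 with huA
    have hs : ∀ j, ∑ v, uA j v = 1 := by
      intro j
      show ∑ v, (if j ∈ A then w1 else w0) v = 1
      split_ifs
      · exact s1
      · exact s0
    have hn : ∀ j v, 0 ≤ uA j v := by
      intro j v
      show 0 ≤ (if j ∈ A then w1 else w0) v
      split_ifs
      · exact n1 v
      · exact n0 v
    have h1 : (fun j => if j ∈ insert i A then w1 else w0) = Function.update uA i w1 := by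
      funext j
      by_cases hj : j = i
      · subst hj
        rw [Function.update_self, if_pos (mem_insert_self _ _)]
      · rw [Function.update_of_ne hj]
        show (if j ∈ insert i A then w1 else w0) = if j ∈ A then w1 else w0
        by_cases hA : j ∈ A
        · rw [if_pos hA, if_pos (mem_insert_of_mem hA)]
        · rw [if_neg hA, if_neg]
          rw [mem_insert, not_or]
          exact ⟨hj, hA⟩
    have h0 : uA = Function.update uA i w0 := by
      funext j
      by_cases hj : j = i
      · subst hj
        rw [Function.update_self]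
        show (if j ∈ A then w1 else w0) = w0
        rw [if_neg hi]
      · rw [Function.update_of_ne hj]
    have h2 : EL (fun j => if j ∈ insert i A then w1 else w0) Φ - EL uA Φ =
        EL uA (fun Ξ => ∑ v, (w1 v - w0 v) * Φ (Function.update Ξ i v)) := by
      rw [h1]
      conv_lhs => rw [show EL uA Φ = EL (Function.update uA i w0) Φ from by rw [← h0]]
      rw [EL_update uA i (hs i) w1 Φ, EL_update uA i (hs i) w0 Φ, ← EL_sub]
      congr 1
      funext Ξ
      rw [← sum_sub_distrib]
      exact sum_congr rfl fun v _ => by ring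
    have h3 : |EL uA (fun Ξ => ∑ v, (w1 v - w0 v) * Φ (Function.update Ξ i v))| ≤ κ := by
      rw [abs_le]
      constructor
      · rw [← EL_const hs (-κ)]
        exact EL_mono hn fun Ξ => (abs_le.mp (h i (mem_insert_self _ _) Ξ)).1
      · rw [← EL_const hs κ]
        exact EL_mono hn fun Ξ => (abs_le.mp (h i (mem_insert_self _ _) Ξ)).2
    rw [card_insert_of_notMem hi]
    push_cast
    calc |EL (fun j => if j ∈ insert i A then w1 else w0) Φ - EL (fun _ => w0) Φ|
        = |(EL (fun j => if j ∈ insert i A then w1 else w0) Φ - EL uA Φ) +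
            (EL uA Φ - EL (fun _ => w0) Φ)| := by congr 1; ring
      _ ≤ |EL (fun j => if j ∈ insert i A then w1 else w0) Φ - EL uA Φ| +
            |EL uA Φ - EL (fun _ => w0) Φ| := abs_add_le _ _
      _ ≤ κ + A.card * κ := by
          rw [h2]
          exact add_le_add h3 ih'
      _ = (A.card + 1) * κ := by ring

end Pool.Agent.Work.MP_8f25a0_lc.Decoy
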