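import Pool.Agent.Work.MP_8f25a0_lc.Decoy.Basic

/-!
# Decoys, block B03: Hoeffding's inequality (helper23)
-/

namespace Pool.Agent.Work.MP_8f25a0_lc.Decoy

open Finset

theorem b03_exp (s : ℝ) {y : ℝ} (hy : |y| ≤ 1) :
    Real.exp (s * y) ≤ Real.cosh s + y * Real.sinh s := by
  have h1 := abs_le.mp hy
  have h2 := convexOn_exp.2 (Set.mem_univ s) (Set.mem_univ (-s))
    (show 0 ≤ (1 + y) / 2 by linarith) (show 0 ≤ (1 - y) / 2 by linarith) (by ring)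
  simp only [smul_eq_mul] at h2
  have h3 : (1 + y) / 2 * s + (1 - y) / 2 * -s = s * y := by ring
  rw [h3] at h2
  refine h2.trans (le_of_eq ?_)
  rw [Real.cosh_eq, Real.sinh_eq]
  ring

theorem b03_mgf {V : Type*} [Fintype V] {u Y : V → ℝ} (h0 : ∀ v, 0 ≤ u v)
    (h1 : ∑ v, u v = 1) (hY : ∀ v, |Y v| ≤ 1) (hm : ∑ v, u v * Y v = 0) (s : ℝ) :
    ∑ v, u v * Real.exp (s * Y v) ≤ Real.exp (s ^ 2 / 2) := by
  have h2 : ∑ v, u v * Real.exp (s * Y v) ≤ ∑ v, u v * (Real.cosh s + Y v * Real.sinh s) :=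
    sum_le_sum fun v _ => mul_le_mul_of_nonneg_left (b03_exp s (hY v)) (h0 v)
  have h3 : ∑ v, u v * (Real.cosh s + Y v * Real.sinh s) = Real.cosh s := by
    have h4 : ∀ v, u v * (Real.cosh s + Y v * Real.sinh s) =
        u v * Real.cosh s + (u v * Y v) * Real.sinh s := fun v => by ring
    rw [sum_congr rfl fun v _ => h4 v, sum_add_distrib, ← sum_mul, ← sum_mul, h1, hm]
    ring
  exact (h2.trans_eq h3).trans (Real.cosh_le_exp_half_sq s)

theorem hoeff {I V : Type*} [Fintype I] [DecidableEq I] [Fintype V] {u : I → V → ℝ}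
    (h0 : ∀ i v, 0 ≤ u i v) (h1 : ∀ i, ∑ v, u i v = 1) {Y : I → V → ℝ}
    (hY : ∀ i v, |Y i v| ≤ 1) (hm : ∀ i, ∑ v, u i v * Y i v = 0) (c : I → ℝ) {t v : ℝ}
    (ht : 0 ≤ t) (hv : 0 < v) (hc : ∑ i, c i ^ 2 ≤ v) :
    EL u (fun Ξ => ind (t ≤ ∑ i, c i * Y i (Ξ i))) ≤ Real.exp (-(t ^ 2 / (2 * v))) := by
  set l : ℝ := t / v with hl
  have hl0 : 0 ≤ l := div_nonneg ht hv.le
  have h2 : EL u (fun Ξ => ind (t ≤ ∑ i, c i * Y i (Ξ i))) ≤
      EL u (fun Ξ => Real.exp (-(l * t)) * Real.exp (l * ∑ i, c i * Y i (Ξ i))) := by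
    refine EL_mono h0 fun Ξ => ?_
    rw [← Real.exp_add]
    by_cases h : t ≤ ∑ i, c i * Y i (Ξ i)
    · rw [ind_of h]
      apply Real.one_le_exp
      have := mul_le_mul_of_nonneg_left h hl0
      linarith
    · rw [ind_of_not h]
      exact (Real.exp_pos _).le
  have h3 : EL u (fun Ξ => Real.exp (l * ∑ i, c i * Y i (Ξ i))) =
      ∏ i, ∑ w, u i w * Real.exp (l * c i * Y i w) := by
    unfold EL LW
    rw [Finset.prod_univ_sum, Fintype.piFinset_univ]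
    refine sum_congr rfl fun Ξ _ => ?_
    show (∏ i, u i (Ξ i)) * Real.exp (l * ∑ i, c i * Y i (Ξ i)) =
      ∏ i, u i (Ξ i) * Real.exp (l * c i * Y i (Ξ i))
    rw [mul_sum, Real.exp_sum, ← prod_mul_distrib]
    refine prod_congr rfl fun i _ => ?_
    rw [mul_assoc l]
  have h4 : ∏ i, ∑ w, u i w * Real.exp (l * c i * Y i w) ≤ ∏ i, Real.exp ((l * c i) ^ 2 / 2) := by
    refine prod_le_prod (fun i _ => sum_nonneg fun w _ => mul_nonneg (h0 i w)
      (Real.exp_pos _).le) fun i _ => ?_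
    exact b03_mgf (h0 i) (h1 i) (hY i) (hm i) (l * c i)
  have h5 : ∏ i, Real.exp ((l * c i) ^ 2 / 2) = Real.exp (l ^ 2 / 2 * ∑ i, c i ^ 2) := by
    rw [← Real.exp_sum, mul_sum]
    congr 1
    exact sum_congr rfl fun i _ => by ring
  have h6 : Real.exp (l ^ 2 / 2 * ∑ i, c i ^ 2) ≤ Real.exp (l ^ 2 / 2 * v) :=
    Real.exp_le_exp.mpr (mul_le_mul_of_nonneg_left hc (by positivity))
  have h7 : EL u (fun Ξ => Real.exp (-(l * t)) * Real.exp (l * ∑ i, c i * Y i (Ξ i))) ≤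
      Real.exp (-(l * t)) * Real.exp (l ^ 2 / 2 * v) := by
    rw [EL_mul_left, h3]
    exact mul_le_mul_of_nonneg_left ((h4.trans_eq h5).trans h6) (Real.exp_pos _).le
  refine (h2.trans h7).trans (le_of_eq ?_)
  rw [← Real.exp_add, hl]
  congr 1
  field_simp
  ring

end Pool.Agent.Work.MP_8f25a0_lc.Decoy
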