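import Pool.Agent.Work.MP_8f25a0_lc.Decoy.Basic

/-!
# Block B04: bounds for the difference of two laws after a decision tree
-/

namespace Pool.Agent.Work.MP_8f25a0_lc.Decoy

open Finset

/-- Jensen's inequality for the square root, two points -/
theorem b04_jensen {w y : Bool → ℝ} (hw : ∀ b, 0 ≤ w b) (h1 : ∑ b, w b = 1) (hy : ∀ b, 0 ≤ y b) :
    ∑ b, w b * √(y b) ≤ √(∑ b, w b * y b) := by
  apply Real.le_sqrt_of_sq_le
  rw [Fintype.sum_bool] at h1
  rw [Fintype.sum_bool, Fintype.sum_bool]
  have e1 := Real.sq_sqrt (hy true)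
  have e2 := Real.sq_sqrt (hy false)
  have h2 : w false = 1 - w true := by linarith
  have h3 := mul_nonneg (mul_nonneg (hw true) (hw false)) (sq_nonneg (√(y true) - √(y false)))
  rw [h2] at h3 ⊢
  generalize √(y true) = a at *
  generalize √(y false) = b at *
  rw [← e1, ← e2]
  nlinarith

/-- the quadratic forms, one step -/
theorem b04_quad {τ s : ℝ} (hs : 0 ≤ s) (hτ : s ≤ τ) (a : ℕ → ℝ) (g : ℕ → ℝ)
    (h0 : g 0 ≤ a 0 ^ 2) (hg : ∀ l, g (l + 1) ≤ a (l + 1) ^ 2 + s * a l ^ 2) (j : ℕ) :
    ∑ l ∈ range (j + 1), (τ - s) ^ (j - l) * g l ≤ ∑ l ∈ range (j + 1), τ ^ (j - l) * a l ^ 2 := by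
  have hd : 0 ≤ τ - s := by linarith
  have h1 : ∑ l ∈ range (j + 1), (τ - s) ^ (j - l) * g l ≤
      ∑ l ∈ range (j + 1), (τ - s) ^ (j - l) * a l ^ 2 +
        ∑ l ∈ range j, s * ((τ - s) ^ (j - (l + 1)) * a l ^ 2) := by
    rw [sum_range_succ', sum_range_succ' (fun l => (τ - s) ^ (j - l) * a l ^ 2)]
    have h2 : ∑ l ∈ range j, (τ - s) ^ (j - (l + 1)) * g (l + 1) ≤
        ∑ l ∈ range j, (τ - s) ^ (j - (l + 1)) * a (l + 1) ^ 2 +
          ∑ l ∈ range j, s * ((τ - s) ^ (j - (l + 1)) * a l ^ 2) := by
      rw [← sum_add_distrib]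
      apply sum_le_sum
      intro l _
      have := mul_le_mul_of_nonneg_left (hg l) (pow_nonneg hd (j - (l + 1)))
      calc _ ≤ _ := this
        _ = _ := by ring
    have h3 : (τ - s) ^ (j - 0) * g 0 ≤ (τ - s) ^ (j - 0) * a 0 ^ 2 :=
      mul_le_mul_of_nonneg_left h0 (pow_nonneg hd _)
    linarith
  refine h1.trans ?_
  rw [sum_range_succ, sum_range_succ (fun l => τ ^ (j - l) * a l ^ 2), Nat.sub_self, pow_zero,
    pow_zero]
  have h4 : ∑ l ∈ range j, (τ - s) ^ (j - l) * a l ^ 2 +
      ∑ l ∈ range j, s * ((τ - s) ^ (j - (l + 1)) * a l ^ 2) ≤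
      ∑ l ∈ range j, τ ^ (j - l) * a l ^ 2 := by
    rw [← sum_add_distrib]
    apply sum_le_sum
    intro l hl
    have hl' := mem_range.mp hl
    have e : j - l = (j - (l + 1)) + 1 := by omega
    have h5 : (τ - s) ^ (j - (l + 1)) ≤ τ ^ (j - (l + 1)) :=
      pow_le_pow_left₀ hd (by linarith) _
    have h6 : 0 ≤ τ * a l ^ 2 := mul_nonneg (by linarith) (sq_nonneg _)
    calc (τ - s) ^ (j - l) * a l ^ 2 + s * ((τ - s) ^ (j - (l + 1)) * a l ^ 2)
        = (τ - s) ^ (j - (l + 1)) * (τ * a l ^ 2) := by
          rw [e, pow_succ]; ring_nf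
      _ ≤ τ ^ (j - (l + 1)) * (τ * a l ^ 2) := mul_le_mul_of_nonneg_right h5 h6
      _ = τ ^ (j - l) * a l ^ 2 := by rw [e, pow_succ]; ring_nf
  linarith

/-- the coefficients of the product with a linear factor -/
theorem b04_coeff (c : Polynomial ℝ) (r : ℝ) :
    (c * (1 + Polynomial.C r * Polynomial.X)).coeff 0 = c.coeff 0 ∧
      ∀ l, (c * (1 + Polynomial.C r * Polynomial.X)).coeff (l + 1) =
        c.coeff (l + 1) + r * c.coeff l := by
  have e : c * (1 + Polynomial.C r * Polynomial.X) = c + Polynomial.C r * c * Polynomial.X := by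
    ring
  rw [e]
  constructor
  · simp
  · intro l
    rw [Polynomial.coeff_add, Polynomial.coeff_mul_X, Polynomial.coeff_C_mul]

/-- the inequality for one `j` -/
theorem b04_step {τ s : ℝ} (hs : 0 ≤ s) (hτ : s ≤ τ) (c : Polynomial ℝ) {w r : Bool → ℝ}
    (hw : ∀ b, 0 ≤ w b) (h1 : ∑ b, w b = 1) (hr : ∑ b, w b * r b = 0)
    (hr2 : ∑ b, w b * r b ^ 2 ≤ s) (j : ℕ) :
    ∑ b, w b * √(∑ l ∈ range (j + 1), (τ - s) ^ (j - l) *
      (c * (1 + Polynomial.C (r b) * Polynomial.X)).coeff l ^ 2) ≤
    √(∑ l ∈ range (j + 1), τ ^ (j - l) * c.coeff l ^ 2) := by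
  have hd : 0 ≤ τ - s := by linarith
  refine (b04_jensen hw h1 fun b => sum_nonneg fun l _ =>
    mul_nonneg (pow_nonneg hd _) (sq_nonneg _)).trans ?_
  apply Real.sqrt_le_sqrt
  have e : ∑ b, w b * ∑ l ∈ range (j + 1), (τ - s) ^ (j - l) *
      (c * (1 + Polynomial.C (r b) * Polynomial.X)).coeff l ^ 2 =
      ∑ l ∈ range (j + 1), (τ - s) ^ (j - l) *
        ∑ b, w b * (c * (1 + Polynomial.C (r b) * Polynomial.X)).coeff l ^ 2 := by
    simp_rw [mul_sum]
    rw [sum_comm]
    apply sum_congr rfl
    intro l _
    apply sum_congr rfl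
    intro b _
    ring
  rw [e]
  refine b04_quad hs hτ c.coeff
    (fun l => ∑ b, w b * (c * (1 + Polynomial.C (r b) * Polynomial.X)).coeff l ^ 2) ?_ ?_ j
  · simp only [(b04_coeff c _).1]
    rw [← sum_mul, h1, one_mul]
  · intro l
    simp only [(b04_coeff c _).2]
    have e2 : ∑ b, w b * (c.coeff (l + 1) + r b * c.coeff l) ^ 2 =
        (∑ b, w b) * c.coeff (l + 1) ^ 2 + 2 * c.coeff (l + 1) * c.coeff l * (∑ b, w b * r b) +
          (∑ b, w b * r b ^ 2) * c.coeff l ^ 2 := by
      rw [sum_mul, mul_sum, sum_mul, ← sum_add_distrib, ← sum_add_distrib]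
      apply sum_congr rfl
      intro b _
      ring
    rw [e2, h1, hr, one_mul, mul_zero, add_zero]
    have := mul_le_mul_of_nonneg_right hr2 (sq_nonneg (c.coeff l))
    linarith

theorem b04_deg (c : Polynomial ℝ) (r : ℝ) :
    (c * (1 + Polynomial.C r * Polynomial.X)).natDegree ≤ c.natDegree + 1 := by
  refine Polynomial.natDegree_mul_le.trans (Nat.add_le_add_left ?_ _)
  refine (Polynomial.natDegree_add_le _ _).trans (max_le (by simp) ?_)
  refine (Polynomial.natDegree_C_mul_le r Polynomial.X).trans ?_
  exact Polynomial.natDegree_X_le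

theorem b04_out {n : ℕ} {V : Type*} [Fintype V] (μ X : V → ℝ) (κ : ℝ) (O : Set ℝ) (r : ℝ)
    (C : Finset (Cube n)) (p : Cube n → ℝ) (c : Polynomial ℝ) (K : ℕ) (τ : ℝ)
    (hK : c.natDegree ≤ K) (hτ : 0 ≤ τ) :
    |∑ v, μ v * c.eval (X v) *
        Ex (fun x => if x ∈ C then p x + κ * X v else p x) (oi (.out r) O)| ≤
      ∑ j ∈ range (K + 1), |∑ v, μ v * X v ^ j| *
        √(∑ l ∈ range (j + 1), τ ^ (j - l) * c.coeff l ^ 2) := by
  have hc : oi (n := n) (.out r) O = fun _ => O.indicator 1 r := rfl
  have hw : |O.indicator (1 : ℝ → ℝ) r| ≤ 1 := by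
    by_cases h : r ∈ O <;> simp [h]
  have e : ∑ v, μ v * c.eval (X v) *
      Ex (fun x => if x ∈ C then p x + κ * X v else p x) (oi (.out r) O) =
      (∑ j ∈ range (K + 1), c.coeff j * ∑ v, μ v * X v ^ j) * O.indicator 1 r := by
    simp_rw [hc, Ex_const, mul_sum]
    rw [sum_comm, ← sum_mul]
    congr 1
    apply sum_congr rfl
    intro v _
    rw [Polynomial.eval_eq_sum_range' (Nat.lt_succ_of_le hK), mul_sum]
    apply sum_congr rfl
    intro j _
    ring
  rw [e, abs_mul]
  have h1 : |∑ j ∈ range (K + 1), c.coeff j * ∑ v, μ v * X v ^ j| ≤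
      ∑ j ∈ range (K + 1), |∑ v, μ v * X v ^ j| *
        √(∑ l ∈ range (j + 1), τ ^ (j - l) * c.coeff l ^ 2) := by
    refine (abs_sum_le_sum_abs _ _).trans (sum_le_sum fun j _ => ?_)
    rw [abs_mul, mul_comm]
    apply mul_le_mul_of_nonneg_left _ (abs_nonneg _)
    rw [← Real.sqrt_sq_eq_abs]
    apply Real.sqrt_le_sqrt
    rw [sum_range_succ, Nat.sub_self, pow_zero, one_mul]
    have : 0 ≤ ∑ l ∈ range j, τ ^ (j - l) * c.coeff l ^ 2 :=
      sum_nonneg fun l _ => mul_nonneg (pow_nonneg hτ _) (sq_nonneg _)
    linarith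
  calc _ ≤ |∑ j ∈ range (K + 1), c.coeff j * ∑ v, μ v * X v ^ j| * 1 :=
        mul_le_mul_of_nonneg_left hw (abs_nonneg _)
    _ ≤ _ := by rw [mul_one]; exact h1

/-- conditioning the expectation on the first answer -/
theorem b04_ask {n : ℕ} (O : Set ℝ) (x : Cube n) (t : Bool → Tree n) (p : Cube n → ℝ) :
    Ex p (oi (.ask x t) O) =
      ∑ b, pb (p x) b * Ex (Function.update p x (bit b)) (oi (t b) O) := by
  rw [Ex_cond p _ x]
  apply sum_congr rfl
  intro b _
  congr 1
  apply Ex_update_congr
  intro a ha
  unfold oi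
  simp only [Tree.eval, ha]

theorem b04_bit (b : Bool) : 0 ≤ bit b ∧ bit b ≤ 1 := by cases b <;> simp [bit]

theorem b04_pb_sum (p : ℝ) : ∑ b, pb p b = 1 := by
  rw [Fintype.sum_bool, pb_true, pb_false]; ring

theorem tree_poly {n : ℕ} {V : Type*} [Fintype V] (μ X : V → ℝ) (κ : ℝ) (O : Set ℝ)
    (T : Tree n) : ∀ (C : Finset (Cube n)) (p : Cube n → ℝ) (c : Polynomial ℝ) (K : ℕ) (τ : ℝ),
      (∀ x, 0 ≤ p x) → (∀ x, p x ≤ 1) → (∀ x ∈ C, 1 / 4 ≤ p x ∧ p x ≤ 3 / 4) →
      c.natDegree + hits T C ≤ K → (hits T C : ℝ) * (16 / 3 * κ ^ 2) ≤ τ →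
      |∑ v, μ v * c.eval (X v) *
        Ex (fun x => if x ∈ C then p x + κ * X v else p x) (oi T O)| ≤
      ∑ j ∈ range (K + 1), |∑ v, μ v * X v ^ j| *
        √(∑ l ∈ range (j + 1), τ ^ (j - l) * c.coeff l ^ 2) := by
  induction T with
  | out r =>
    intro C p c K τ _ _ _ hK hτ
    refine b04_out μ X κ O r C p c K τ ?_ ?_
    · simpa [hits] using hK
    · simpa [hits] using hτ
  | ask x t ih =>
    intro C p c K τ h0 h1 hC hK hτ
    set s : ℝ := 16 / 3 * κ ^ 2 with hs
    have hs0 : 0 ≤ s := by positivity
    by_cases hx : x ∈ C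
    · -- the question hits the cell
      have hh : hits (.ask x t) C =
          1 + max (hits (t false) (C.erase x)) (hits (t true) (C.erase x)) := by
        simp [hits, hx]
      rw [hh] at hK hτ
      have hb : ∀ b, hits (t b) (C.erase x) ≤
          max (hits (t false) (C.erase x)) (hits (t true) (C.erase x)) := by
        intro b; cases b
        · exact le_max_left _ _
        · exact le_max_right _ _
      obtain ⟨hp1, hp2⟩ := hC x hx
      have hp0 : 0 < p x := by linarith
      have hp3 : 0 < 1 - p x := by linarith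
      set r : Bool → ℝ := fun b => if b then κ / p x else -κ / (1 - p x) with hr
      have hrt : r true = κ / p x := by simp [hr]
      have hrf : r false = -κ / (1 - p x) := by simp [hr]
      clear_value r
      have hpb : ∀ (b : Bool) (v : V), pb (p x + κ * X v) b = pb (p x) b * (1 + r b * X v) := by
        intro b v
        cases b
        · rw [pb_false, pb_false, hrf]
          field_simp
          ring
        · rw [pb_true, pb_true, hrt]
          field_simp
      have hmean : ∑ b, pb (p x) b * r b = 0 := by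
        rw [Fintype.sum_bool, pb_true, pb_false, hrt, hrf]
        field_simp
        ring
      have hvar : ∑ b, pb (p x) b * r b ^ 2 ≤ s := by
        rw [Fintype.sum_bool, pb_true, pb_false, hrt, hrf]
        have e : p x * (κ / p x) ^ 2 + (1 - p x) * (-κ / (1 - p x)) ^ 2 =
            κ ^ 2 / (p x * (1 - p x)) := by
          field_simp
          ring
        rw [e, hs, div_le_iff₀ (mul_pos hp0 hp3)]
        have h2 : 3 / 16 ≤ p x * (1 - p x) := by nlinarith
        have h3 := mul_le_mul_of_nonneg_left h2 (show (0 : ℝ) ≤ 16 / 3 * κ ^ 2 by positivity)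
        linarith
      have hsτ : s ≤ τ := by
        refine le_trans ?_ hτ
        push_cast
        have : (0 : ℝ) ≤ max ((hits (t false) (C.erase x) : ℕ) : ℝ)
          ((hits (t true) (C.erase x) : ℕ) : ℝ) := le_max_of_le_left (Nat.cast_nonneg _)
        nlinarith
      have key : ∀ b : Bool, |∑ v, μ v *
          (c * (1 + Polynomial.C (r b) * Polynomial.X)).eval (X v) *
          Ex (fun y => if y ∈ C.erase x then Function.update p x (bit b) y + κ * X v
            else Function.update p x (bit b) y) (oi (t b) O)| ≤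
          ∑ j ∈ range (K + 1), |∑ v, μ v * X v ^ j| *
            √(∑ l ∈ range (j + 1), (τ - s) ^ (j - l) *
              (c * (1 + Polynomial.C (r b) * Polynomial.X)).coeff l ^ 2) := by
        intro b
        refine ih b (C.erase x) (Function.update p x (bit b)) _ K (τ - s) ?_ ?_ ?_ ?_ ?_
        · intro y
          by_cases hy : y = x
          · subst hy; rw [Function.update_self]; exact (b04_bit b).1
          · rw [Function.update_of_ne hy]; exact h0 y
        · intro y
          by_cases hy : y = x
          · subst hy; rw [Function.update_self]; exact (b04_bit b).2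
          · rw [Function.update_of_ne hy]; exact h1 y
        · intro y hy
          rw [Function.update_of_ne (ne_of_mem_erase hy)]
          exact hC y (mem_of_mem_erase hy)
        · have := b04_deg c (r b)
          have := hb b
          omega
        · have h4 : ((hits (t b) (C.erase x) : ℕ) : ℝ) ≤
              ((max (hits (t false) (C.erase x)) (hits (t true) (C.erase x)) : ℕ) : ℝ) := by
            exact_mod_cast hb b
          have h5 := mul_le_mul_of_nonneg_right h4 hs0
          rw [Nat.cast_add, Nat.cast_one, add_mul, one_mul] at hτ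
          linarith
      have e : ∑ v, μ v * c.eval (X v) *
          Ex (fun y => if y ∈ C then p y + κ * X v else p y) (oi (.ask x t) O) =
          ∑ b, pb (p x) b * ∑ v, μ v *
          (c * (1 + Polynomial.C (r b) * Polynomial.X)).eval (X v) *
          Ex (fun y => if y ∈ C.erase x then Function.update p x (bit b) y + κ * X v
            else Function.update p x (bit b) y) (oi (t b) O) := by
        simp_rw [mul_sum]
        rw [sum_comm]
        apply sum_congr rfl
        intro v _
        rw [b04_ask, mul_sum]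
        apply sum_congr rfl
        intro b _
        simp only [hx, if_true]
        rw [hpb b v]
        have e1 : Function.update (fun y => if y ∈ C then p y + κ * X v else p y) x (bit b) =
            (fun y => if y ∈ C.erase x then Function.update p x (bit b) y + κ * X v
            else Function.update p x (bit b) y) := by
          ext y
          by_cases hy : y = x
          · subst hy
            simp
          · simp [Function.update_of_ne hy, hy]
        rw [e1, Polynomial.eval_mul, Polynomial.eval_add, Polynomial.eval_one,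
          Polynomial.eval_mul, Polynomial.eval_C, Polynomial.eval_X]
        ring
      rw [e]
      have hpbn : ∀ b, 0 ≤ pb (p x) b := pb_nonneg (h0 x) (h1 x)
      calc _ ≤ ∑ b, pb (p x) b * ∑ j ∈ range (K + 1), |∑ v, μ v * X v ^ j| *
            √(∑ l ∈ range (j + 1), (τ - s) ^ (j - l) *
              (c * (1 + Polynomial.C (r b) * Polynomial.X)).coeff l ^ 2) := by
            refine (abs_sum_le_sum_abs _ _).trans (sum_le_sum fun b _ => ?_)
            rw [abs_mul, abs_of_nonneg (hpbn b)]
            exact mul_le_mul_of_nonneg_left (key b) (hpbn b)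
        _ = ∑ j ∈ range (K + 1), |∑ v, μ v * X v ^ j| * ∑ b, pb (p x) b *
            √(∑ l ∈ range (j + 1), (τ - s) ^ (j - l) *
              (c * (1 + Polynomial.C (r b) * Polynomial.X)).coeff l ^ 2) := by
            simp_rw [mul_sum]
            rw [sum_comm]
            apply sum_congr rfl
            intro j _
            apply sum_congr rfl
            intro b _
            ring
        _ ≤ _ := by
            apply sum_le_sum
            intro j _
            exact mul_le_mul_of_nonneg_left
              (b04_step hs0 hsτ c hpbn (b04_pb_sum _) hmean hvar j) (abs_nonneg _)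
    · -- the question does not hit the cell
      have hh : hits (.ask x t) C = max (hits (t false) C) (hits (t true) C) := by
        simp [hits, hx]
      rw [hh] at hK hτ
      have hb : ∀ b, hits (t b) C ≤ max (hits (t false) C) (hits (t true) C) := by
        intro b; cases b
        · exact le_max_left _ _
        · exact le_max_right _ _
      have key : ∀ b : Bool, |∑ v, μ v * c.eval (X v) *
          Ex (fun y => if y ∈ C then Function.update p x (bit b) y + κ * X v
            else Function.update p x (bit b) y) (oi (t b) O)| ≤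
          ∑ j ∈ range (K + 1), |∑ v, μ v * X v ^ j| *
            √(∑ l ∈ range (j + 1), τ ^ (j - l) * c.coeff l ^ 2) := by
        intro b
        refine ih b C (Function.update p x (bit b)) c K τ ?_ ?_ ?_ ?_ ?_
        · intro y
          by_cases hy : y = x
          · subst hy; rw [Function.update_self]; exact (b04_bit b).1
          · rw [Function.update_of_ne hy]; exact h0 y
        · intro y
          by_cases hy : y = x
          · subst hy; rw [Function.update_self]; exact (b04_bit b).2
          · rw [Function.update_of_ne hy]; exact h1 y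
        · intro y hy
          have hyx : y ≠ x := by
            rintro rfl
            exact hx hy
          rw [Function.update_of_ne hyx]
          exact hC y hy
        · have := hb b
          omega
        · have h4 : ((hits (t b) C : ℕ) : ℝ) ≤
              ((max (hits (t false) C) (hits (t true) C) : ℕ) : ℝ) := by
            exact_mod_cast hb b
          have h5 := mul_le_mul_of_nonneg_right h4 hs0
          linarith
      have e : ∑ v, μ v * c.eval (X v) *
          Ex (fun y => if y ∈ C then p y + κ * X v else p y) (oi (.ask x t) O) =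
          ∑ b, pb (p x) b * ∑ v, μ v * c.eval (X v) *
          Ex (fun y => if y ∈ C then Function.update p x (bit b) y + κ * X v
            else Function.update p x (bit b) y) (oi (t b) O) := by
        simp_rw [mul_sum]
        rw [sum_comm]
        apply sum_congr rfl
        intro v _
        rw [b04_ask, mul_sum]
        apply sum_congr rfl
        intro b _
        simp only [hx, if_false]
        have e1 : Function.update (fun y => if y ∈ C then p y + κ * X v else p y) x (bit b) =
            (fun y => if y ∈ C then Function.update p x (bit b) y + κ * X v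
            else Function.update p x (bit b) y) := by
          ext y
          by_cases hy : y = x
          · subst hy
            simp [hx]
          · simp [Function.update_of_ne hy]
        rw [e1]
        ring
      rw [e]
      have hpbn : ∀ b, 0 ≤ pb (p x) b := pb_nonneg (h0 x) (h1 x)
      calc _ ≤ ∑ b, pb (p x) b * ∑ j ∈ range (K + 1), |∑ v, μ v * X v ^ j| *
            √(∑ l ∈ range (j + 1), τ ^ (j - l) * c.coeff l ^ 2) := by
            refine (abs_sum_le_sum_abs _ _).trans (sum_le_sum fun b _ => ?_)
            rw [abs_mul, abs_of_nonneg (hpbn b)]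
            exact mul_le_mul_of_nonneg_left (key b) (hpbn b)
        _ = _ := by rw [← sum_mul, b04_pb_sum, one_mul]

end Pool.Agent.Work.MP_8f25a0_lc.Decoy
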