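import Pool.Agent.Work.MP_8f25a0_lc.Decoy.Basic
import Pool.Agent.Work.MP_8f25a0_lc.Decoy.B04

/-!
# Block B05: matching moments
-/

namespace Pool.Agent.Work.MP_8f25a0_lc.Decoy

open Finset

theorem b05_geom {m : ℕ → ℝ} {D : ℕ} (h1 : ∀ j < D, m j = 0) (h2 : ∀ j, m j ≤ 2) (K : ℕ) :
    ∑ j ∈ range K, m j * (1 / 4 : ℝ) ^ j ≤
      if K ≤ D then 0 else 8 / 3 * ((1 / 4 : ℝ) ^ D - (1 / 4) ^ K) := by
  induction K with
  | zero => simp
  | succ K ih =>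
    rw [sum_range_succ]
    by_cases hK : K + 1 ≤ D
    · rw [if_pos hK]
      rw [if_pos (by omega)] at ih
      rw [h1 K (by omega)]
      linarith
    · rw [if_neg hK]
      have h3 : m K * (1 / 4 : ℝ) ^ K ≤ 2 * (1 / 4 : ℝ) ^ K :=
        mul_le_mul_of_nonneg_right (h2 K) (by positivity)
      by_cases hK' : K ≤ D
      · rw [if_pos hK'] at ih
        have hD : D = K := by omega
        rw [hD, pow_succ]
        linarith
      · rw [if_neg hK'] at ih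
        rw [pow_succ]
        linarith

theorem tree_moment {n : ℕ} {V : Type*} [Fintype V] {μ X : V → ℝ} {D : ℕ}
    (hμ : ∀ j < D, ∑ v, μ v * X v ^ j = 0) (hμ2 : ∀ j, |∑ v, μ v * X v ^ j| ≤ 2) {κ : ℝ}
    (O : Set ℝ) (T : Tree n) (C : Finset (Cube n)) (p : Cube n → ℝ) (h0 : ∀ x, 0 ≤ p x)
    (h1 : ∀ x, p x ≤ 1) (hC : ∀ x ∈ C, 1 / 4 ≤ p x ∧ p x ≤ 3 / 4)
    (hT : (hits T C : ℝ) * (16 / 3 * κ ^ 2) ≤ 1 / 16) :
    |∑ v, μ v * Ex (fun x => if x ∈ C then p x + κ * X v else p x) (oi T O)| ≤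
      8 / 3 * (1 / 4) ^ D := by
  have h := tree_poly μ X κ O T C p 1 (hits T C) (1 / 16) h0 h1 hC (by simp) hT
  simp only [Polynomial.eval_one, mul_one] at h
  refine h.trans ?_
  have e : ∀ j : ℕ, √(∑ l ∈ range (j + 1), (1 / 16 : ℝ) ^ (j - l) *
      (1 : Polynomial ℝ).coeff l ^ 2) = (1 / 4) ^ j := by
    intro j
    have e1 : ∑ l ∈ range (j + 1), (1 / 16 : ℝ) ^ (j - l) * (1 : Polynomial ℝ).coeff l ^ 2 =
        (1 / 16 : ℝ) ^ j := by
      rw [sum_range_succ']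
      simp [Polynomial.coeff_one]
    rw [e1, show (1 / 16 : ℝ) ^ j = ((1 / 4) ^ j) ^ 2 by rw [← pow_mul, mul_comm, pow_mul]; norm_num]
    exact Real.sqrt_sq (by positivity)
  simp_rw [e]
  refine (b05_geom (m := fun j => |∑ v, μ v * X v ^ j|) (D := D) ?_ hμ2 (hits T C + 1)).trans ?_
  · intro j hj
    simp [hμ j hj]
  · split_ifs
    · positivity
    · have : (0 : ℝ) ≤ (1 / 4) ^ (hits T C + 1) := by positivity
      linarith

end Pool.Agent.Work.MP_8f25a0_lc.Decoy
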