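import Pool.Agent.Work.MP_8f25a0_lc.Decoy.Basic

/-!
# Block B06: the truncated tree hits every cell at most `t₀` times
-/

namespace Pool.Agent.Work.MP_8f25a0_lc.Decoy

open Finset

theorem b06_gen {n k : ℕ} (e : Fin k → Fin n) (t₀ : ℕ) (r : ℝ) (z : Cube k) (T : Tree n) :
    ∀ S : Finset (Cube n), (S.filter fun y : Cube n => y ∘ e = z).card ≤ t₀ →
      hits (trunc e t₀ r T S) ((univ.filter fun y : Cube n => y ∘ e = z) \ S) +
        (S.filter fun y : Cube n => y ∘ e = z).card ≤ t₀ := by
  induction T with
  | out r' =>
    intro S hS
    simpa [trunc, hits] using hS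
  | ask x t ih =>
    intro S hS
    by_cases hc : ((insert x S).filter fun y : Cube n => y ∘ e = x ∘ e).card ≤ t₀
    · have e1 : trunc e t₀ r (.ask x t) S =
          .ask x (fun b => trunc e t₀ r (t b) (insert x S)) := by
        rw [trunc, if_pos hc]
      rw [e1]
      by_cases hx : x ∈ (univ.filter fun y : Cube n => y ∘ e = z) \ S
      · have hx' := hx
        rw [mem_sdiff, mem_filter] at hx'
        obtain ⟨⟨_, hxe⟩, hxS⟩ := hx'
        rw [hxe] at hc
        have e2 : ((univ.filter fun y : Cube n => y ∘ e = z) \ S).erase x =
            (univ.filter fun y : Cube n => y ∘ e = z) \ insert x S := by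
          ext y
          simp only [mem_erase, mem_sdiff, mem_filter, mem_univ, true_and, mem_insert]
          tauto
        have e3 : ((insert x S).filter fun y : Cube n => y ∘ e = z).card =
            (S.filter fun y : Cube n => y ∘ e = z).card + 1 := by
          rw [filter_insert, if_pos hxe, card_insert_of_notMem]
          simp [hxS]
        have h1 := ih false (insert x S) hc
        have h2 := ih true (insert x S) hc
        rw [hits, if_pos hx, e2]
        rw [e3] at h1 h2
        omega
      · have e2 : (univ.filter fun y : Cube n => y ∘ e = z) \ insert x S =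
            (univ.filter fun y : Cube n => y ∘ e = z) \ S := by
          ext y
          simp only [mem_sdiff, mem_filter, mem_univ, true_and, mem_insert] at hx ⊢
          constructor
          · rintro ⟨h1, h2⟩
            exact ⟨h1, fun h => h2 (Or.inr h)⟩
          · rintro ⟨h1, h2⟩
            refine ⟨h1, ?_⟩
            rintro (rfl | h)
            · exact hx ⟨h1, h2⟩
            · exact h2 h
        have e3 : (insert x S).filter (fun y : Cube n => y ∘ e = z) =
            S.filter (fun y : Cube n => y ∘ e = z) := by
          ext y
          simp only [mem_sdiff, mem_filter, mem_univ, true_and, mem_insert] at hx ⊢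
          constructor
          · rintro ⟨rfl | h1, h2⟩
            · by_contra hn
              exact hx ⟨h2, fun h => hn ⟨h, h2⟩⟩
            · exact ⟨h1, h2⟩
          · rintro ⟨h1, h2⟩
            exact ⟨Or.inr h1, h2⟩
        have h1 := ih false (insert x S) (by rw [e3]; exact hS)
        have h2 := ih true (insert x S) (by rw [e3]; exact hS)
        rw [hits, if_neg hx]
        rw [e2, e3] at h1 h2
        omega
    · have e1 : trunc e t₀ r (.ask x t) S = .out r := by
        rw [trunc, if_neg hc]
      rw [e1]
      simpa [hits] using hS

theorem hits_trunc {n k : ℕ} (e : Fin k → Fin n) (t₀ : ℕ) (r : ℝ) (T : Tree n) (z : Cube k) :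
    hits (trunc e t₀ r T ∅) (univ.filter fun y : Cube n => y ∘ e = z) ≤ t₀ := by
  have h := b06_gen e t₀ r z T ∅ (by simp)
  simpa using h

end Pool.Agent.Work.MP_8f25a0_lc.Decoy
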