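import Pool.Agent.Work.MP_8f25a0_lc.Decoy.Basic

/-!
# Truncation of decision trees
-/

namespace Pool.Agent.Work.MP_8f25a0_lc.Decoy

open Finset

theorem card_asked {n : ℕ} (f : Cube n → Bool) (T : Tree n) : (asked f T).card ≤ T.depth := by
  induction T with
  | out r => simp [asked, Tree.depth]
  | ask x t ih =>
    simp only [asked, Tree.depth]
    have h1 := ih (f x)
    have h2 : (t (f x)).depth ≤ max (t false).depth (t true).depth := by
      cases f x
      · exact le_max_left _ _
      · exact le_max_right _ _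
    have h3 := Finset.card_insert_le x (asked f (t (f x)))
    omega

theorem b07_oi_ask {n : ℕ} (x : Cube n) (t : Bool → Tree n) (O : Set ℝ) (f : Cube n → Bool) :
    oi (.ask x t) O f = oi (t (f x)) O f := rfl

theorem b07_oi_out_mem {n : ℕ} {r : ℝ} {O : Set ℝ} (hr : r ∈ O) (f : Cube n → Bool) :
    oi (.out r) O f = 1 := by
  unfold oi
  have : (Tree.out r).eval f = r := rfl
  rw [this, Set.indicator_of_mem hr, Pi.one_apply]

theorem b07_oi_le {n k : ℕ} (e : Fin k → Fin n) (t₀ : ℕ) {r : ℝ} {O : Set ℝ} (hr : r ∈ O)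
    (T : Tree n) (f : Cube n → Bool) (S : Finset (Cube n)) :
    oi T O f ≤ oi (trunc e t₀ r T S) O f := by
  induction T generalizing S with
  | out r => exact le_rfl
  | ask x t ih =>
    rw [trunc]
    split_ifs with h
    · rw [b07_oi_ask, b07_oi_ask]
      exact ih (f x) _
    · rw [b07_oi_out_mem hr]
      exact oi_le_one _ _ _

theorem oi_le_trunc {n k : ℕ} (e : Fin k → Fin n) (t₀ : ℕ) {r : ℝ} {O : Set ℝ} (hr : r ∈ O)
    (T : Tree n) (f : Cube n → Bool) : oi T O f ≤ oi (trunc e t₀ r T ∅) O f :=
  b07_oi_le e t₀ hr T f ∅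

theorem b07_le_oi {n k : ℕ} (e : Fin k → Fin n) (t₀ : ℕ) (r : ℝ) (O : Set ℝ)
    (T : Tree n) (f : Cube n → Bool) (S : Finset (Cube n)) :
    oi (trunc e t₀ r T S) O f ≤ oi T O f +
      ind (∃ z : Cube k, t₀ < ((S ∪ asked f T).filter fun y : Cube n => y ∘ e = z).card) := by
  induction T generalizing S with
  | out r =>
    have := ind_nonneg (∃ z : Cube k,
      t₀ < ((S ∪ asked f (Tree.out r)).filter fun y : Cube n => y ∘ e = z).card)
    simp only [trunc]
    linarith
  | ask x t ih =>
    rw [trunc]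
    have hset : S ∪ asked f (Tree.ask x t) = insert x S ∪ asked f (t (f x)) := by
      simp only [asked]
      rw [Finset.union_insert, Finset.insert_union]
    rw [hset]
    split_ifs with h
    · rw [b07_oi_ask, b07_oi_ask]
      exact ih (f x) _
    · have h1 : ind (∃ z : Cube k,
          t₀ < ((insert x S ∪ asked f (t (f x))).filter fun y : Cube n => y ∘ e = z).card) = 1 := by
        refine ind_of ⟨x ∘ e, ?_⟩
        refine lt_of_lt_of_le (not_le.1 h) (Finset.card_le_card ?_)
        exact Finset.filter_subset_filter _ Finset.subset_union_left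
      rw [h1]
      have h2 := oi_nonneg (Tree.ask x t) O f
      have h3 := oi_le_one (Tree.out r) O f
      linarith

theorem trunc_le_oi {n k : ℕ} (e : Fin k → Fin n) (t₀ : ℕ) (r : ℝ) (O : Set ℝ)
    (T : Tree n) (f : Cube n → Bool) : oi (trunc e t₀ r T ∅) O f ≤
      oi T O f + ind (∃ z : Cube k, t₀ < ((asked f T).filter fun y : Cube n => y ∘ e = z).card) := by
  have h := b07_le_oi e t₀ r O T f ∅
  rwa [Finset.empty_union] at h

end Pool.Agent.Work.MP_8f25a0_lc.Decoy
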