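import Pool.Agent.Work.MP_8f25a0_lc.Decoy.Basic

namespace Pool.Agent.Work.MP_8f25a0_lc.Decoy

open Finset

theorem card_fix {n : ℕ} (A : Finset (Fin n)) (c : Cube n) :
    (univ.filter fun y : Cube n => ∀ i ∈ A, y i = c i).card * 2 ^ A.card = 2 ^ n := by
  have h : (univ.filter fun y : Cube n => ∀ i ∈ A, y i = c i) =
      Fintype.piFinset fun i => if i ∈ A then {c i} else (univ : Finset Bool) := by
    ext y
    simp only [mem_filter, mem_univ, true_and, Fintype.mem_piFinset]
    constructor
    · intro hy i
      by_cases hi : i ∈ A
      · rw [if_pos hi, mem_singleton]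
        exact hy i hi
      · rw [if_neg hi]
        exact mem_univ _
    · intro hy i hi
      have := hy i
      rwa [if_pos hi, mem_singleton] at this
  rw [h, Fintype.card_piFinset]
  have h1 : ∀ i : Fin n, (if i ∈ A then ({c i} : Finset Bool) else univ).card =
      if i ∈ A then 1 else 2 := by
    intro i
    split_ifs
    · exact card_singleton _
    · exact Fintype.card_bool
  rw [prod_congr rfl fun i _ => h1 i, prod_ite, prod_const, prod_const, one_pow, one_mul,
    ← pow_add]
  congr 1
  have h2 : (univ.filter fun i : Fin n => ¬ i ∈ A) = Aᶜ := by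
    ext i
    simp
  rw [h2, card_compl, Fintype.card_fin]
  have := card_le_univ A
  rw [Fintype.card_fin] at this
  omega

end Pool.Agent.Work.MP_8f25a0_lc.Decoy
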