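import Pool.Agent.Work.MP_8f25a0_lc.Decoy.B08

namespace Pool.Agent.Work.MP_8f25a0_lc.Decoy

open Finset

theorem b09_card_rg {n k : ℕ} {e : Fin k → Fin n} (he : Function.Injective e) :
    (rg e).card = k := by
  unfold rg
  rw [card_image_of_injective _ he, card_univ, Fintype.card_fin]

theorem card_cells {n k s : ℕ} {e e' : Fin k → Fin n} (he : Function.Injective e)
    (he' : Function.Injective e') (hs : (rg e ∩ rg e').card ≤ s) (z z' : Cube k) :
    (univ.filter fun y : Cube n => y ∘ e = z ∧ y ∘ e' = z').card * 2 ^ (2 * k) ≤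
      2 ^ n * 2 ^ s := by
  rcases (univ.filter fun y : Cube n => y ∘ e = z ∧ y ∘ e' = z').eq_empty_or_nonempty with h | h
  · rw [h, card_empty, zero_mul]
    exact Nat.zero_le _
  · obtain ⟨c, hc⟩ := h
    simp only [mem_filter, mem_univ, true_and] at hc
    have hsub : (univ.filter fun y : Cube n => y ∘ e = z ∧ y ∘ e' = z') ⊆
        univ.filter fun y : Cube n => ∀ i ∈ rg e ∪ rg e', y i = c i := by
      intro y hy
      simp only [mem_filter, mem_univ, true_and] at hy ⊢
      intro i hi
      rcases mem_union.mp hi with hi | hi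
      · obtain ⟨j, -, rfl⟩ := mem_image.mp hi
        have h1 := congrFun hy.1 j
        have h2 := congrFun hc.1 j
        exact h1.trans h2.symm
      · obtain ⟨j, -, rfl⟩ := mem_image.mp hi
        have h1 := congrFun hy.2 j
        have h2 := congrFun hc.2 j
        exact h1.trans h2.symm
    have h1 := card_fix (rg e ∪ rg e') c
    have h2 := card_union_add_card_inter (rg e) (rg e')
    rw [b09_card_rg he, b09_card_rg he'] at h2
    calc (univ.filter fun y : Cube n => y ∘ e = z ∧ y ∘ e' = z').card * 2 ^ (2 * k)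
        ≤ (univ.filter fun y : Cube n => ∀ i ∈ rg e ∪ rg e', y i = c i).card *
            2 ^ ((rg e ∪ rg e').card + s) :=
          Nat.mul_le_mul (card_le_card hsub) (Nat.pow_le_pow_right (by norm_num) (by omega))
      _ = 2 ^ n * 2 ^ s := by rw [pow_add, ← mul_assoc, h1]

end Pool.Agent.Work.MP_8f25a0_lc.Decoy
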