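import Pool.Agent.Work.MP_8f25a0_lc.Decoy.Basic

namespace Pool.Agent.Work.MP_8f25a0_lc.Decoy

open Finset

theorem b10_ineq (d : ℕ) : 2 * d ≤ 2 + (d * d - d) := by
  rcases Nat.lt_or_ge d 2 with h | h
  · have : d = 0 ∨ d = 1 := by omega
    rcases this with rfl | rfl <;> omega
  · obtain ⟨e, rfl⟩ : ∃ e, d = e + 2 := ⟨d - 2, by omega⟩
    have : (e + 2) * (e + 2) = e * e + 4 * e + 4 := by ring
    rw [this]
    have : e ≤ e * e + e := by nlinarith
    omega

theorem comb_abs {ι α : Type*} [DecidableEq ι] [DecidableEq α] (A : Finset ι) (S : Finset α)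
    (H : ι → Finset α) {t Q I : ℕ} (ht : 1 ≤ t) (hH : ∀ a ∈ A, H a ⊆ S)
    (hc : ∀ a ∈ A, t ≤ (H a).card) (hI : ∀ a ∈ A, ∀ b ∈ A, a ≠ b → (H a ∩ H b).card ≤ I)
    (hS : S.card ≤ Q) (h : (2 * Q + t) * I ≤ t ^ 2) : A.card * t ≤ 2 * Q := by
  by_contra hcon
  push Not at hcon
  set R := 2 * Q / t + 1 with hR
  have hRt : 2 * Q < R * t := by
    rw [hR, add_mul, one_mul]
    have := Nat.div_add_mod (2 * Q) t
    have h2 := Nat.mod_lt (2 * Q) ht
    nlinarith
  have hRt' : R * t ≤ 2 * Q + t := by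
    rw [hR, add_mul, one_mul]
    have := Nat.div_mul_le_self (2 * Q) t
    omega
  have hRA : R ≤ A.card := by
    rw [hR]
    have : 2 * Q / t < A.card := by
      rw [Nat.div_lt_iff_lt_mul ht]
      exact hcon
    omega
  obtain ⟨B, hBA, hBR⟩ := exists_subset_card_eq hRA
  have hRI : R * I ≤ t := by
    have h1 : R * t * I ≤ t * t := by
      calc R * t * I ≤ (2 * Q + t) * I := Nat.mul_le_mul_right _ hRt'
        _ ≤ t ^ 2 := h
        _ = t * t := by ring
    have h2 : t * (R * I) ≤ t * t := by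
      calc t * (R * I) = R * t * I := by ring
        _ ≤ t * t := h1
    exact Nat.le_of_mul_le_mul_left h2 ht
  -- double counting
  have hd1 : R * t ≤ ∑ x ∈ S, (B.filter fun a => x ∈ H a).card := by
    have h1 : ∑ x ∈ S, (B.filter fun a => x ∈ H a).card = ∑ a ∈ B, (H a).card := by
      simp_rw [card_filter]
      rw [sum_comm]
      refine sum_congr rfl fun a ha => ?_
      rw [← card_filter]
      congr 1
      ext x
      rw [mem_filter]
      exact ⟨fun hx => hx.2, fun hx => ⟨hH a (hBA ha) hx, hx⟩⟩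
    rw [h1, ← hBR, ← smul_eq_mul]
    exact card_nsmul_le_sum _ _ _ fun a ha => hc a (hBA ha)
  have hd2 : ∑ x ∈ S, ((B.filter fun a => x ∈ H a).offDiag).card ≤ (R * R - R) * I := by
    have h1 : ∀ x, ((B.filter fun a => x ∈ H a).offDiag).card
        = ∑ p ∈ B.offDiag, if x ∈ H p.1 ∩ H p.2 then 1 else 0 := by
      intro x
      rw [← card_filter]
      congr 1
      ext p
      simp only [mem_offDiag, mem_filter, mem_inter]
      tauto
    simp_rw [h1]
    rw [sum_comm]
    have h2 : ∀ p ∈ B.offDiag, ∑ x ∈ S, (if x ∈ H p.1 ∩ H p.2 then 1 else 0) ≤ I := by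
      intro p hp
      rw [mem_offDiag] at hp
      rw [← card_filter]
      refine (card_le_card ?_).trans (hI p.1 (hBA hp.1) p.2 (hBA hp.2.1) hp.2.2)
      intro x hx
      exact (mem_filter.1 hx).2
    refine (sum_le_card_nsmul _ _ _ h2).trans ?_
    rw [offDiag_card, hBR, smul_eq_mul]
  have hmain : 2 * (R * t) ≤ 2 * Q + (R * R - R) * I := by
    calc 2 * (R * t) ≤ 2 * ∑ x ∈ S, (B.filter fun a => x ∈ H a).card :=
          Nat.mul_le_mul_left _ hd1
      _ = ∑ x ∈ S, 2 * (B.filter fun a => x ∈ H a).card := by rw [mul_sum]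
      _ ≤ ∑ x ∈ S, (2 + ((B.filter fun a => x ∈ H a).offDiag).card) := by
          refine sum_le_sum fun x _ => ?_
          rw [offDiag_card]
          exact b10_ineq _
      _ = S.card * 2 + ∑ x ∈ S, ((B.filter fun a => x ∈ H a).offDiag).card := by
          rw [sum_add_distrib, sum_const, smul_eq_mul]
      _ ≤ 2 * Q + (R * R - R) * I := by omega
  have hR1 : 1 ≤ R := Nat.le_add_left 1 _
  have h3 : (R * R - R) * I ≤ (R - 1) * t := by
    have : R * R - R = (R - 1) * R := by
      rw [Nat.sub_mul, one_mul]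
    rw [this, mul_assoc]
    exact Nat.mul_le_mul_left _ hRI
  have h4 : (R - 1) * t = R * t - t := by rw [Nat.sub_mul, one_mul]
  have h5 : t ≤ R * t := Nat.le_mul_of_pos_left _ hR1
  omega

end Pool.Agent.Work.MP_8f25a0_lc.Decoy
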