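import Pool.Agent.Work.MP_8f25a0_lc.Decoy.B09
import Pool.Agent.Work.MP_8f25a0_lc.Decoy.B10

/-!
# Decoys, block B11: few decoys have a full cell (helper23)
-/

namespace Pool.Agent.Work.MP_8f25a0_lc.Decoy

open Finset

theorem comb {n k M s t₀ Q : ℕ} (e : Fin M → Fin k → Fin n) (he : ∀ a, Function.Injective (e a))
    (hs : ∀ a b, a ≠ b → (rg (e a) ∩ rg (e b)).card ≤ s) (ht : 1 ≤ t₀)
    (h : (2 * Q + t₀) * (2 ^ n * 2 ^ s) ≤ t₀ ^ 2 * 2 ^ (2 * k)) (S : Finset (Cube n))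
    (hS : S.card ≤ Q) :
    (∑ a, ind (∃ z : Cube k, t₀ < (S.filter fun y : Cube n => y ∘ e a = z).card)) * t₀ ≤
      2 * Q := by
  classical
  set A : Finset (Fin M) := univ.filter fun a =>
    ∃ z : Cube k, t₀ < (S.filter fun y : Cube n => y ∘ e a = z).card with hA
  have hz : ∀ a : Fin M, ∃ z : Cube k, a ∈ A →
      t₀ < (S.filter fun y : Cube n => y ∘ e a = z).card := by
    intro a
    by_cases ha : a ∈ A
    · obtain ⟨z, h1⟩ := (mem_filter.mp ha).2
      exact ⟨z, fun _ => h1⟩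
    · exact ⟨fun _ => false, fun h1 => absurd h1 ha⟩
  choose z hz using hz
  have hpow : 0 < 2 ^ (2 * k) := by positivity
  have key := comb_abs A S (fun a => S.filter fun y : Cube n => y ∘ e a = z a) (t := t₀) (Q := Q)
    (I := 2 ^ n * 2 ^ s / 2 ^ (2 * k)) ht (fun a _ => filter_subset _ _)
    (fun a ha => (hz a ha).le) (fun a _ b _ hab => by
      rw [Nat.le_div_iff_mul_le hpow]
      refine le_trans (Nat.mul_le_mul_right _ (card_le_card ?_))
        (card_cells (he a) (he b) (hs a b hab) (z a) (z b))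
      intro y hy
      obtain ⟨h1, h2⟩ := mem_inter.mp hy
      exact mem_filter.mpr ⟨mem_univ _, (mem_filter.mp h1).2, (mem_filter.mp h2).2⟩)
    hS (by
      refine Nat.le_of_mul_le_mul_right ?_ hpow
      calc (2 * Q + t₀) * (2 ^ n * 2 ^ s / 2 ^ (2 * k)) * 2 ^ (2 * k)
          = (2 * Q + t₀) * (2 ^ n * 2 ^ s / 2 ^ (2 * k) * 2 ^ (2 * k)) := by ring
        _ ≤ (2 * Q + t₀) * (2 ^ n * 2 ^ s) :=
            Nat.mul_le_mul_left _ (Nat.div_mul_le_self _ _)
        _ ≤ t₀ ^ 2 * 2 ^ (2 * k) := h)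
  have h1 : ∑ a, ind (∃ z : Cube k, t₀ < (S.filter fun y : Cube n => y ∘ e a = z).card) =
      (A.card : ℝ) := by
    rw [hA, card_filter]
    push_cast
    refine sum_congr rfl fun a _ => ?_
    by_cases ha : ∃ z : Cube k, t₀ < (S.filter fun y : Cube n => y ∘ e a = z).card
    · rw [ind_of ha, if_pos ha]
    · rw [ind_of_not ha, if_neg ha]
  rw [h1]
  exact_mod_cast key

end Pool.Agent.Work.MP_8f25a0_lc.Decoy
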