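import Pool.Agent.Work.MP_8f25a0_lc.Decoy.Basic

/-!
# Decoys: block B12 (Johnson bound)
-/

namespace Pool.Agent.Work.MP_8f25a0_lc.Decoy

open Finset

/-- few sets of the family have a large intersection with `J` -/
theorem b12_card {n k M s r : ℕ} (K : Fin M → Finset (Fin n)) (hc : ∀ a, (K a).card = k)
    (hs : ∀ a b, a ≠ b → (K a ∩ K b).card ≤ s) (hr : k * s < r ^ 2) (J : Finset (Fin n))
    (hJ : J.card ≤ k) (B : Finset (Fin M)) (hB : ∀ b ∈ B, r ≤ (J ∩ K b).card) :
    B.card ≤ k ^ 2 := by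
  classical
  set d : Fin n → ℕ := fun x => (B.filter fun b => x ∈ K b).card with hd
  have h1 : ∑ x ∈ J, d x = ∑ b ∈ B, (J ∩ K b).card := by
    simp only [hd, card_eq_sum_ones, sum_filter]
    rw [sum_comm]
    refine sum_congr rfl fun b _ => ?_
    rw [← sum_filter, filter_mem_eq_inter]
  have h2 : ∑ x ∈ J, d x ^ 2 = ∑ b ∈ B, ∑ b' ∈ B, (J ∩ (K b ∩ K b')).card := by
    have h3 : ∀ x, d x ^ 2 = ∑ b ∈ B, ∑ b' ∈ B, if x ∈ K b ∩ K b' then 1 else 0 := by
      intro x
      simp only [hd, card_eq_sum_ones, sum_filter]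
      rw [sq, sum_mul_sum]
      refine sum_congr rfl fun b _ => sum_congr rfl fun b' _ => ?_
      by_cases h4 : x ∈ K b <;> by_cases h5 : x ∈ K b' <;> simp [h4, h5]
    simp only [h3]
    rw [sum_comm]
    refine sum_congr rfl fun b _ => ?_
    rw [sum_comm]
    refine sum_congr rfl fun b' _ => ?_
    rw [← sum_filter, filter_mem_eq_inter, card_eq_sum_ones]
  have h3 : ∑ b ∈ B, ∑ b' ∈ B, (J ∩ (K b ∩ K b')).card ≤ B.card * k + B.card * B.card * s := by
    have h4 : ∀ b ∈ B, ∑ b' ∈ B, (J ∩ (K b ∩ K b')).card ≤ k + B.card * s := by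
      intro b hb
      have h5 : ∀ b' ∈ B, (J ∩ (K b ∩ K b')).card ≤ (if b' = b then k else 0) + s := by
        intro b' _
        by_cases h6 : b' = b
        · rw [if_pos h6]
          have h7 : (J ∩ (K b ∩ K b')).card ≤ J.card := card_le_card inter_subset_left
          omega
        · rw [if_neg h6]
          have h7 : (J ∩ (K b ∩ K b')).card ≤ (K b ∩ K b').card := card_le_card inter_subset_right
          have h8 := hs b b' (Ne.symm h6)
          omega
      refine (sum_le_sum h5).trans ?_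
      rw [sum_add_distrib, sum_ite_eq' B b, if_pos hb, sum_const, smul_eq_mul]
    refine (sum_le_sum h4).trans ?_
    rw [sum_const, smul_eq_mul, mul_add, mul_assoc]
  have h4 : B.card * r ≤ ∑ x ∈ J, d x := by
    rw [h1, ← smul_eq_mul]
    exact card_nsmul_le_sum _ _ _ hB
  have h5 : (∑ x ∈ J, d x) ^ 2 ≤ J.card * ∑ x ∈ J, d x ^ 2 := sq_sum_le_card_mul_sum_sq
  have h6 : (B.card * r) ^ 2 ≤ k * (B.card * k + B.card * B.card * s) := by
    calc (B.card * r) ^ 2 ≤ (∑ x ∈ J, d x) ^ 2 := Nat.pow_le_pow_left h4 2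
      _ ≤ J.card * ∑ x ∈ J, d x ^ 2 := h5
      _ ≤ k * (B.card * k + B.card * B.card * s) := by
          rw [h2]
          exact Nat.mul_le_mul hJ h3
  rcases Nat.eq_zero_or_pos B.card with h0 | h0
  · omega
  · have h7 : B.card * (B.card * (k * s + 1)) ≤ B.card * (B.card * r ^ 2) :=
      Nat.mul_le_mul_left _ (Nat.mul_le_mul_left _ hr)
    have h8 : B.card * B.card ≤ B.card * k ^ 2 := by nlinarith
    exact Nat.le_of_mul_le_mul_left h8 h0

theorem john {n k M s r : ℕ} (K : Fin M → Finset (Fin n)) (hc : ∀ a, (K a).card = k)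
    (hs : ∀ a b, a ≠ b → (K a ∩ K b).card ≤ s) (hr : k * s < r ^ 2) (J : Finset (Fin n))
    (hJ : J.card ≤ k) (a : Fin M) (ha : ∀ b, (J ∩ K b).card ≤ (J ∩ K a).card) :
    ∑ b ∈ univ.erase a, (2 : ℝ) ^ (J ∩ K b).card / 2 ^ k ≤
      M * 2 ^ r / 2 ^ k + k ^ 2 * 2 ^ ((k + s) / 2) / 2 ^ k := by
  classical
  set B : Finset (Fin M) := univ.filter fun b => r ≤ (J ∩ K b).card with hB
  have hBc : B.card ≤ k ^ 2 :=
    b12_card K hc hs hr J hJ B fun b hb => (mem_filter.mp hb).2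
  have h1 : ∀ b ∈ univ.erase a, (2 : ℝ) ^ (J ∩ K b).card / 2 ^ k ≤
      2 ^ r / 2 ^ k + if b ∈ B then 2 ^ ((k + s) / 2) / 2 ^ k else 0 := by
    intro b hb
    have hba : b ≠ a := (mem_erase.mp hb).1
    by_cases h2 : b ∈ B
    · rw [if_pos h2]
      have h3 : (J ∩ K b).card + (J ∩ K a).card ≤ k + s := by
        have h4 : (J ∩ K b ∪ J ∩ K a).card + (J ∩ K b ∩ (J ∩ K a)).card =
            (J ∩ K b).card + (J ∩ K a).card := card_union_add_card_inter _ _
        have h5 : (J ∩ K b ∪ J ∩ K a).card ≤ J.card :=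
          card_le_card (union_subset inter_subset_left inter_subset_left)
        have h6 : (J ∩ K b ∩ (J ∩ K a)).card ≤ (K b ∩ K a).card :=
          card_le_card (inter_subset_inter inter_subset_right inter_subset_right)
        have h7 := hs b a hba
        omega
      have h4 := ha b
      have h5 : (J ∩ K b).card ≤ (k + s) / 2 := by omega
      have h6 : (2 : ℝ) ^ (J ∩ K b).card ≤ 2 ^ ((k + s) / 2) :=
        pow_le_pow_right₀ one_le_two h5
      have h7 : (0 : ℝ) ≤ 2 ^ r / 2 ^ k := by positivity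
      have h8 : (2 : ℝ) ^ (J ∩ K b).card / 2 ^ k ≤ 2 ^ ((k + s) / 2) / 2 ^ k := by gcongr
      linarith
    · rw [if_neg h2, add_zero]
      have h3 : ¬ r ≤ (J ∩ K b).card := fun h => h2 (mem_filter.mpr ⟨mem_univ _, h⟩)
      have h4 : (2 : ℝ) ^ (J ∩ K b).card ≤ 2 ^ r := pow_le_pow_right₀ one_le_two (by omega)
      gcongr
  refine (sum_le_sum h1).trans ?_
  rw [sum_add_distrib, sum_const, nsmul_eq_mul]
  have h2 : (((univ.erase a).card : ℕ) : ℝ) ≤ M := by
    have := card_le_card (erase_subset a (univ : Finset (Fin M)))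
    rw [card_univ, Fintype.card_fin] at this
    exact_mod_cast this
  have h3 : ∑ b ∈ univ.erase a, (if b ∈ B then (2 : ℝ) ^ ((k + s) / 2) / 2 ^ k else 0) ≤
      k ^ 2 * (2 ^ ((k + s) / 2) / 2 ^ k) := by
    have h4 : ∑ b ∈ univ.erase a, (if b ∈ B then (2 : ℝ) ^ ((k + s) / 2) / 2 ^ k else 0) ≤
        ∑ b, (if b ∈ B then (2 : ℝ) ^ ((k + s) / 2) / 2 ^ k else 0) := by
      refine sum_le_sum_of_subset_of_nonneg (erase_subset _ _) fun b _ _ => ?_
      split_ifs
      · positivity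
      · exact le_rfl
    refine h4.trans ?_
    rw [← sum_filter, sum_const, nsmul_eq_mul, filter_mem_eq_inter, univ_inter]
    have h5 : ((B.card : ℕ) : ℝ) ≤ k ^ 2 := by exact_mod_cast hBc
    gcongr
  have h4 : (0 : ℝ) ≤ 2 ^ r / 2 ^ k := by positivity
  have h5 : (((univ.erase a).card : ℕ) : ℝ) * (2 ^ r / 2 ^ k) ≤ M * (2 ^ r / 2 ^ k) :=
    mul_le_mul_of_nonneg_right h2 h4
  rw [mul_div_assoc, mul_div_assoc]
  linarith

end Pool.Agent.Work.MP_8f25a0_lc.Decoy
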