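import Pool.Agent.Work.MP_8f25a0_lc.Decoy.Basic

/-!
# Decoys: block B13 (Gilbert-Varshamov)
-/

namespace Pool.Agent.Work.MP_8f25a0_lc.Decoy

open Finset

theorem b13_card {k q : ℕ} (A : Finset (Fin k)) (c : Fin k → Fin q) :
    (univ.filter fun w : Fin k → Fin q => ∀ i ∈ A, w i = c i).card = q ^ (k - A.card) := by
  classical
  have h1 : (univ.filter fun w : Fin k → Fin q => ∀ i ∈ A, w i = c i) =
      Fintype.piFinset fun i => if i ∈ A then {c i} else univ := by
    ext w
    simp only [mem_filter, mem_univ, true_and, Fintype.mem_piFinset]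
    constructor
    · intro h i
      by_cases hi : i ∈ A
      · rw [if_pos hi, mem_singleton]; exact h i hi
      · rw [if_neg hi]; exact mem_univ _
    · intro h i hi
      have := h i
      rw [if_pos hi, mem_singleton] at this
      exact this
  rw [h1, Fintype.card_piFinset]
  have h2 : ∀ i : Fin k, (if i ∈ A then ({c i} : Finset (Fin q)) else univ).card =
      if i ∈ A then 1 else q := by
    intro i
    split_ifs
    · exact card_singleton _
    · rw [card_univ, Fintype.card_fin]
  rw [prod_congr rfl fun i _ => h2 i, prod_ite, prod_const_one, one_mul, prod_const]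
  congr 1
  have h3 : (univ.filter fun i => i ∉ A) = (univ : Finset (Fin k)) \ A := by
    ext i
    simp
  rw [h3, card_sdiff_of_subset (subset_univ A), card_univ, Fintype.card_fin]

theorem b13_bad {k q s : ℕ} (c : Fin k → Fin q) :
    (univ.filter fun w : Fin k → Fin q =>
      s + 1 ≤ (univ.filter fun i => w i = c i).card).card ≤ 2 ^ k * q ^ (k - (s + 1)) := by
  classical
  have h1 : (univ.filter fun w : Fin k → Fin q =>
      s + 1 ≤ (univ.filter fun i => w i = c i).card) ⊆
      ((univ : Finset (Fin k)).powersetCard (s + 1)).biUnion fun A =>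
        univ.filter fun w : Fin k → Fin q => ∀ i ∈ A, w i = c i := by
    intro w hw
    obtain ⟨A, hA, hc⟩ := exists_subset_card_eq (mem_filter.mp hw).2
    refine mem_biUnion.mpr ⟨A, mem_powersetCard.mpr ⟨subset_univ _, hc⟩, ?_⟩
    exact mem_filter.mpr ⟨mem_univ _, fun i hi => (mem_filter.mp (hA hi)).2⟩
  refine (card_le_card h1).trans (card_biUnion_le.trans ?_)
  have h2 : ∀ A ∈ (univ : Finset (Fin k)).powersetCard (s + 1),
      (univ.filter fun w : Fin k → Fin q => ∀ i ∈ A, w i = c i).card ≤ q ^ (k - (s + 1)) := by
    intro A hA
    rw [b13_card, (mem_powersetCard.mp hA).2]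
  refine (sum_le_card_nsmul _ _ _ h2).trans ?_
  rw [smul_eq_mul]
  refine Nat.mul_le_mul_right _ ?_
  have h3 : ((univ : Finset (Fin k)).powersetCard (s + 1)).card ≤
      ((univ : Finset (Fin k)).powerset).card := by
    refine card_le_card fun A hA => mem_powerset.mpr (subset_univ _)
  rw [card_powerset, card_univ, Fintype.card_fin] at h3
  exact h3

theorem code {k q s M : ℕ} (hq : 0 < q) (h : M * 2 ^ k ≤ q ^ (s + 1)) :
    ∃ φ : Fin M → Fin k → Fin q, ∀ a b, a ≠ b →
      (univ.filter fun i => φ a i = φ b i).card ≤ s := by
  classical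
  by_cases hk : k ≤ s
  · refine ⟨fun _ _ => ⟨0, hq⟩, fun a b _ => ?_⟩
    refine (card_filter_le _ _).trans ?_
    rw [card_univ, Fintype.card_fin]
    exact hk
  · have hsk : s + 1 ≤ k := by omega
    have key : ∀ m, m ≤ M → ∃ φ : Fin m → Fin k → Fin q, ∀ a b, a ≠ b →
        (univ.filter fun i => φ a i = φ b i).card ≤ s := by
      intro m
      induction m with
      | zero => exact fun _ => ⟨fun a => a.elim0, fun a => a.elim0⟩
      | succ m ih =>
        intro hm
        obtain ⟨φ, hφ⟩ := ih (by omega)
        have h1 : ((univ : Finset (Fin m)).biUnion fun a =>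
            univ.filter fun w : Fin k → Fin q =>
              s + 1 ≤ (univ.filter fun i => w i = φ a i).card).card < q ^ k := by
          refine lt_of_le_of_lt (card_biUnion_le.trans
            (sum_le_card_nsmul _ _ _ fun a _ => b13_bad (φ a))) ?_
          rw [card_univ, Fintype.card_fin, smul_eq_mul]
          have h2 : 0 < 2 ^ k * q ^ (k - (s + 1)) := by positivity
          calc m * (2 ^ k * q ^ (k - (s + 1))) < M * (2 ^ k * q ^ (k - (s + 1))) :=
                Nat.mul_lt_mul_of_pos_right (by omega) h2
            _ = (M * 2 ^ k) * q ^ (k - (s + 1)) := by ring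
            _ ≤ q ^ (s + 1) * q ^ (k - (s + 1)) := Nat.mul_le_mul_right _ h
            _ = q ^ k := by rw [← pow_add]; congr 1; omega
        have h2 : ∃ w : Fin k → Fin q, ∀ a, (univ.filter fun i => w i = φ a i).card ≤ s := by
          by_contra hcon
          push Not at hcon
          have h3 : ((univ : Finset (Fin m)).biUnion fun a =>
            univ.filter fun w : Fin k → Fin q =>
              s + 1 ≤ (univ.filter fun i => w i = φ a i).card) = univ := by
            refine eq_univ_iff_forall.mpr fun w => ?_
            obtain ⟨a, ha⟩ := hcon w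
            exact mem_biUnion.mpr ⟨a, mem_univ _, mem_filter.mpr ⟨mem_univ _, ha⟩⟩
          rw [h3, card_univ] at h1
          simp at h1
        obtain ⟨w, hw⟩ := h2
        refine ⟨Fin.snoc (α := fun _ => Fin k → Fin q) φ w, fun a b => ?_⟩
        refine Fin.lastCases ?_ (fun a' => ?_) a
        · refine Fin.lastCases ?_ (fun b' => ?_) b
          · intro hab; exact absurd rfl hab
          · intro _
            simp only [Fin.snoc_last, Fin.snoc_castSucc]
            exact hw b'
        · refine Fin.lastCases ?_ (fun b' => ?_) b
          · intro _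
            simp only [Fin.snoc_last, Fin.snoc_castSucc]
            have := hw a'
            simpa [eq_comm] using this
          · intro hab
            simp only [Fin.snoc_castSucc]
            refine hφ a' b' ?_
            rintro rfl
            exact hab rfl
    exact key M le_rfl

end Pool.Agent.Work.MP_8f25a0_lc.Decoy
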