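import Pool.Agent.Work.MP_8f25a0_lc.Decoy.B13

/-!
# Decoys: block B14 (sets with small intersections)
-/

namespace Pool.Agent.Work.MP_8f25a0_lc.Decoy

open Finset

theorem code_sets {k q s M : ℕ} (hq : 0 < q) (h : M * 2 ^ k ≤ q ^ (s + 1)) :
    ∃ e : Fin M → Fin k → Fin (k * q), (∀ a, Function.Injective (e a)) ∧
      ∀ a b, a ≠ b → (rg (e a) ∩ rg (e b)).card ≤ s := by
  classical
  obtain ⟨φ, hφ⟩ := code (k := k) (s := s) (M := M) hq h
  refine ⟨fun a i => finProdFinEquiv (i, φ a i), fun a i j hij => ?_, fun a b hab => ?_⟩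
  · have h1 := finProdFinEquiv.injective hij
    exact (Prod.mk.inj h1).1
  · have h1 : rg (fun i => finProdFinEquiv (i, φ a i)) ∩ rg (fun i => finProdFinEquiv (i, φ b i)) ⊆
        (univ.filter fun i => φ a i = φ b i).image fun i => finProdFinEquiv (i, φ a i) := by
      intro x hx
      rw [mem_inter] at hx
      obtain ⟨i, _, hi⟩ := mem_image.mp hx.1
      obtain ⟨j, _, hj⟩ := mem_image.mp hx.2
      have h2 : ((i, φ a i) : Fin k × Fin q) = (j, φ b j) :=
        finProdFinEquiv.injective (hi.trans hj.symm)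
      have h3 : i = j := (Prod.mk.inj h2).1
      subst h3
      exact mem_image.mpr ⟨i, mem_filter.mpr ⟨mem_univ _, (Prod.mk.inj h2).2⟩, hi⟩
    exact (card_le_card h1).trans (card_image_le.trans (hφ a b hab))

end Pool.Agent.Work.MP_8f25a0_lc.Decoy
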