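import Pool.Agent.Work.MP_8f25a0_lc.Decoy.Basic

/-!
# Averages and mixtures of two points
-/

namespace Pool.Agent.Work.MP_8f25a0_lc.Decoy

open Finset

theorem b15_mix_mix {n : ℕ} (J : Finset (Fin n)) (z y : Cube n) :
    mix J (mix J z y) (mix J y z) = z := by
  funext i
  unfold mix
  by_cases h : i ∈ J
  · simp [h]
  · simp [h]

/-- exchange the coordinates outside of `J` -/
def b15_swap {n : ℕ} (J : Finset (Fin n)) : Cube n × Cube n ≃ Cube n × Cube n where
  toFun p := (mix J p.1 p.2, mix J p.2 p.1)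
  invFun p := (mix J p.1 p.2, mix J p.2 p.1)
  left_inv p := Prod.ext (b15_mix_mix J p.1 p.2) (b15_mix_mix J p.2 p.1)
  right_inv p := Prod.ext (b15_mix_mix J p.1 p.2) (b15_mix_mix J p.2 p.1)

theorem avg_mix {n : ℕ} (J : Finset (Fin n)) (H : Cube n → ℝ) :
    avg H = avg fun z => avg fun y => H (mix J z y) := by
  have h1 : avg (fun p : Cube n × Cube n => H ((b15_swap J p).1)) =
      avg (fun p : Cube n × Cube n => H p.1) :=
    avg_equiv (b15_swap J) (fun p => H p.1)
  rw [avg_prod, avg_prod] at h1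
  have h2 : (fun a : Cube n => avg fun _b : Cube n => H a) = H := by
    funext a
    rw [avg_const]
  change (avg fun z => avg fun y => H (mix J z y)) = avg (fun a : Cube n => avg fun _ => H a) at h1
  rw [h1, h2]

end Pool.Agent.Work.MP_8f25a0_lc.Decoy
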