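import Pool.Agent.Work.MP_8f25a0_lc.Decoy.Basic

/-!
# Averages of functions which see only some coordinates
-/

namespace Pool.Agent.Work.MP_8f25a0_lc.Decoy

open Finset

theorem avg_comp {n k : ℕ} {e : Fin k → Fin n} (he : Function.Injective e) (φ : Cube k → ℝ) :
    avg (fun y : Cube n => φ (y ∘ e)) = avg φ := by
  classical
  set E1 := Equiv.piEquivPiSubtypeProd (fun i : Fin n => i ∈ Set.range e) (fun _ => Bool) with hE1
  set E2 : ({x : Fin n // x ∈ Set.range e} → Bool) ≃ Cube k :=
    Equiv.arrowCongr (Equiv.ofInjective e he).symm (Equiv.refl Bool) with hE2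
  set F : ({x : Fin n // x ∈ Set.range e} → Bool) × ({x : Fin n // x ∉ Set.range e} → Bool) → ℝ :=
    fun p => φ (E2 p.1) with hF
  have h1 : (fun y : Cube n => φ (y ∘ e)) = fun y => F (E1 y) := by
    funext y
    rfl
  rw [h1, avg_equiv E1 F, avg_prod]
  have h2 : (fun a : {x : Fin n // x ∈ Set.range e} → Bool =>
      avg fun b : {x : Fin n // x ∉ Set.range e} → Bool => F (a, b)) = fun a => φ (E2 a) := by
    funext a
    exact avg_const (α := {x : Fin n // x ∉ Set.range e} → Bool) (φ (E2 a))
  rw [h2, avg_equiv E2 φ]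

end Pool.Agent.Work.MP_8f25a0_lc.Decoy
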