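import Pool.Agent.Work.MP_8f25a0_lc.Decoy.Basic

/-!
# Decoys, block B17: the probability of a cell
-/

namespace Pool.Agent.Work.MP_8f25a0_lc.Decoy

open Finset

theorem b17_card_fix {n : ℕ} (A : Finset (Fin n)) (c : Cube n) :
    (univ.filter fun y : Cube n => ∀ i ∈ A, y i = c i).card * 2 ^ A.card = 2 ^ n := by
  have h1 : (univ.filter fun y : Cube n => ∀ i ∈ A, y i = c i) =
      Fintype.piFinset (fun i => if i ∈ A then ({c i} : Finset Bool) else univ) := by
    ext y
    simp only [mem_filter, mem_univ, true_and, Fintype.mem_piFinset]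
    refine forall_congr' fun i => ?_
    by_cases hi : i ∈ A <;> simp [hi]
  have h2 : (2 : ℕ) ^ A.card = ∏ i : Fin n, if i ∈ A then 2 else 1 := by
    rw [prod_ite, prod_const, prod_const_one, mul_one]
    congr 1
    simp
  rw [h1, Fintype.card_piFinset, h2, ← prod_mul_distrib]
  have h3 : ∀ i ∈ (univ : Finset (Fin n)), (if i ∈ A then ({c i} : Finset Bool) else univ).card *
      (if i ∈ A then 2 else 1) = 2 := by
    intro i _
    by_cases hi : i ∈ A <;> simp [hi]
  rw [prod_congr rfl h3]
  simp

theorem cell_prob {n k : ℕ} {e : Fin k → Fin n} (he : Function.Injective e)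
    (J : Finset (Fin n)) (z : Cube n) (w : Cube k) :
    ((univ.filter fun y : Cube n => mix J z y ∘ e = w).card : ℝ) / 2 ^ n ≤
      2 ^ (J ∩ rg e).card / 2 ^ k := by
  classical
  set A := rg e \ J with hA
  let c : Cube n := fun i => if h : ∃ j, e j = i then w h.choose else false
  have hc : ∀ j, c (e j) = w j := by
    intro j
    have h : ∃ j', e j' = e j := ⟨j, rfl⟩
    have h' : h.choose = j := he h.choose_spec
    simp only [c]
    rw [dif_pos h, h']
  have hsub : (univ.filter fun y : Cube n => mix J z y ∘ e = w) ⊆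
      univ.filter fun y : Cube n => ∀ i ∈ A, y i = c i := by
    intro y hy
    simp only [mem_filter, mem_univ, true_and] at hy ⊢
    intro i hi
    rw [hA, mem_sdiff] at hi
    obtain ⟨hi1, hi2⟩ := hi
    obtain ⟨j, _, rfl⟩ := mem_image.1 hi1
    rw [hc, ← hy]
    simp only [Function.comp, mix, hi2, if_false]
  have h1 := b17_card_fix A c
  have h2 := card_le_card hsub
  have hcard : (rg e).card = k := by
    unfold rg
    rw [card_image_of_injective _ he, card_univ, Fintype.card_fin]
  have h3 : A.card + (J ∩ rg e).card = k := by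
    rw [hA, inter_comm, card_sdiff_add_card_inter, hcard]
  have h4 : ((univ.filter fun y : Cube n => mix J z y ∘ e = w).card : ℝ) * 2 ^ A.card ≤ 2 ^ n := by
    have : (univ.filter fun y : Cube n => mix J z y ∘ e = w).card * 2 ^ A.card ≤ 2 ^ n := by
      rw [← h1]
      exact Nat.mul_le_mul_right _ h2
    exact_mod_cast this
  have h5 : (2 : ℝ) ^ k = 2 ^ A.card * 2 ^ (J ∩ rg e).card := by rw [← pow_add, h3]
  rw [h5, div_le_div_iff₀ (by positivity) (by positivity)]
  have h6 : (0 : ℝ) < 2 ^ (J ∩ rg e).card := by positivity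
  nlinarith [mul_le_mul_of_nonneg_left h4 h6.le]

end Pool.Agent.Work.MP_8f25a0_lc.Decoy
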