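import Pool.Agent.Work.MP_8f25a0_lc.Decoy.B17

/-!
# Decoys, block B18: the disturbance by the other decoys is linear (helper23)
-/

namespace Pool.Agent.Work.MP_8f25a0_lc.Decoy

open Finset

theorem b18_avg {n k : ℕ} (J : Finset (Fin n)) (z : Cube n) (e : Fin k → Fin n)
    (F : Cube k → ℝ) : avg (fun y : Cube n => F (mix J z y ∘ e)) =
      ∑ w : Cube k, ((univ.filter fun y : Cube n => mix J z y ∘ e = w).card : ℝ) / 2 ^ n * F w := by
  have h1 : ∑ y : Cube n, F (mix J z y ∘ e) =
      ∑ w : Cube k, ∑ y ∈ univ.filter (fun y : Cube n => mix J z y ∘ e = w), F (mix J z y ∘ e) :=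
    (sum_fiberwise univ (fun y : Cube n => mix J z y ∘ e) _).symm
  unfold avg
  have h2 : (Fintype.card (Cube n) : ℝ) = 2 ^ n := by simp
  rw [h1, h2, sum_div]
  refine sum_congr rfl fun w _ => ?_
  have h3 : ∑ y ∈ univ.filter (fun y : Cube n => mix J z y ∘ e = w), F (mix J z y ∘ e) =
      ∑ _y ∈ univ.filter (fun y : Cube n => mix J z y ∘ e = w), F w :=
    sum_congr rfl fun y hy => by rw [(mem_filter.mp hy).2]
  rw [h3, sum_const, nsmul_eq_mul]
  ring

theorem RR_linear {n k M : ℕ} {e : Fin M → Fin k → Fin n} (he : ∀ a, Function.Injective (e a))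
    (J : Finset (Fin n)) (a : Fin M) (z : Cube n) : ∃ c : Fin M × Cube k → ℝ,
      (∀ (V : Type) (X : V → ℝ) (Ξ : Fin M × Cube k → V),
        RR e X Ξ J a z = ∑ i, c i * X (Ξ i)) ∧
      ∑ i, c i ^ 2 ≤ ∑ b ∈ univ.erase a, (2 : ℝ) ^ (J ∩ rg (e b)).card / 2 ^ k := by
  set q : Fin M → Cube k → ℝ := fun b w =>
    ((univ.filter fun y : Cube n => mix J z y ∘ e b = w).card : ℝ) / 2 ^ n with hq
  have hq0 : ∀ b w, 0 ≤ q b w := fun b w => by positivity
  have hsplit : ∀ f : Fin M → ℝ, ∑ b, (if b = a then 0 else f b) = ∑ b ∈ univ.erase a, f b := by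
    intro f
    rw [← add_sum_erase univ _ (mem_univ a), if_pos rfl, zero_add]
    exact sum_congr rfl fun b hb => if_neg (mem_erase.mp hb).1
  refine ⟨fun i => if i.1 = a then 0 else q i.1 i.2, ?_, ?_⟩
  · intro V X Ξ
    rw [Fintype.sum_prod_type]
    have h1 : ∀ b : Fin M, ∑ w : Cube k, (if b = a then 0 else q b w) * X (Ξ (b, w)) =
        if b = a then 0 else ∑ w : Cube k, q b w * X (Ξ (b, w)) := by
      intro b
      split_ifs
      · simp
      · rfl
    rw [sum_congr rfl fun b _ => h1 b, hsplit]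
    unfold RR
    exact sum_congr rfl fun b _ => b18_avg J z (e b) fun w => X (Ξ (b, w))
  · rw [Fintype.sum_prod_type]
    have h1 : ∀ b : Fin M, ∑ w : Cube k, (if b = a then 0 else q b w) ^ 2 =
        if b = a then 0 else ∑ w : Cube k, q b w ^ 2 := by
      intro b
      split_ifs
      · simp
      · rfl
    rw [sum_congr rfl fun b _ => h1 b, hsplit]
    refine sum_le_sum fun b _ => ?_
    have h2 : ∑ w : Cube k, q b w = 1 := by
      have h3 := b18_avg J z (e b) fun _ => 1
      simp only [mul_one] at h3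
      rw [hq]
      rw [← h3]
      unfold avg
      simp
    have h3 : ∀ w : Cube k, q b w ^ 2 ≤ 2 ^ (J ∩ rg (e b)).card / 2 ^ k * q b w := by
      intro w
      rw [sq]
      exact mul_le_mul_of_nonneg_right (cell_prob (he b) J z w) (hq0 b w)
    refine (sum_le_sum fun w _ => h3 w).trans ?_
    rw [← mul_sum, h2, mul_one]

end Pool.Agent.Work.MP_8f25a0_lc.Decoy
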