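import Pool.Agent.Work.MP_8f25a0_lc.Decoy.Basic
import Pool.Agent.Work.MP_8f25a0_lc.Decoy.B03
import Pool.Agent.Work.MP_8f25a0_lc.Decoy.B18

/-!
# Decoys: B19, the tail of the conditional mean
-/

namespace Pool.Agent.Work.MP_8f25a0_lc.Decoy

open Finset

theorem RR_tail {n k M : ℕ} {e : Fin M → Fin k → Fin n} (he : ∀ a, Function.Injective (e a))
    {V : Type} [Fintype V] {u : Fin M × Cube k → V → ℝ} (h0 : ∀ i v, 0 ≤ u i v)
    (h1 : ∀ i, ∑ v, u i v = 1) {X : V → ℝ} (hX : ∀ v, |X v| ≤ 1)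
    (hm : ∀ i, ∑ v, u i v * X v = 0) (J : Finset (Fin n)) (a : Fin M) (z : Cube n) {β v : ℝ}
    (hβ : 0 ≤ β) (hv : 0 < v)
    (hJ : ∑ b ∈ univ.erase a, (2 : ℝ) ^ (J ∩ rg (e b)).card / 2 ^ k ≤ v) :
    EL u (fun Ξ => ind (β / 16 < |RR e X Ξ J a z|)) ≤ 2 * Real.exp (-(β ^ 2 / (512 * v))) := by
  obtain ⟨c, hc, hc2⟩ := RR_linear he J a z
  have ht : (0 : ℝ) ≤ β / 16 := by positivity
  have hexp : (β / 16) ^ 2 / (2 * v) = β ^ 2 / (512 * v) := by
    field_simp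
    ring
  have e1 := hoeff (u := u) h0 h1 (Y := fun _ v => X v) (fun _ v => hX v) hm c ht hv
    (hc2.trans hJ)
  have e2 := hoeff (u := u) h0 h1 (Y := fun _ v => -X v) (fun _ v => by
    rw [abs_neg]; exact hX v) (fun i => by
      simp only [mul_neg, sum_neg_distrib, hm i, neg_zero]) c ht hv (hc2.trans hJ)
  rw [hexp] at e1 e2
  have h3 : EL u (fun Ξ => ind (β / 16 < |RR e X Ξ J a z|)) ≤
      EL u (fun Ξ => ind (β / 16 ≤ ∑ i, c i * X (Ξ i)) + ind (β / 16 ≤ ∑ i, c i * -X (Ξ i))) := by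
    refine EL_mono h0 fun Ξ => ?_
    refine (ind_mono ?_).trans (ind_or _ _)
    intro h
    rw [hc V X Ξ] at h
    rcases lt_abs.mp h with h | h
    · exact Or.inl h.le
    · right
      have : ∑ i, c i * -X (Ξ i) = -∑ i, c i * X (Ξ i) := by
        simp only [mul_neg, sum_neg_distrib]
      rw [this]
      exact h.le
  rw [EL_add] at h3
  linarith

end Pool.Agent.Work.MP_8f25a0_lc.Decoy
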