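import Pool.Agent.Work.MP_8f25a0_lc.Decoy.Basic
import Pool.Agent.Work.MP_8f25a0_lc.Decoy.B19

/-!
# Decoys: B20, the union bound for the conditional means
-/

namespace Pool.Agent.Work.MP_8f25a0_lc.Decoy

open Finset

theorem b20_num {n M : ℕ} {β v : ℝ} (hv : 0 < v) (hM : 1 ≤ M)
    (hN : 512 * v * (n * Real.log 4 + Real.log (200 * M)) ≤ β ^ 2) :
    (2 : ℝ) ^ n * (M * (2 ^ n * (2 * Real.exp (-(β ^ 2 / (512 * v)))))) ≤ 1 / 100 := by
  have hM' : (1 : ℝ) ≤ M := by exact_mod_cast hM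
  have hM0 : (0 : ℝ) < M := by linarith
  have h1 : n * Real.log 4 + Real.log (200 * M) ≤ β ^ 2 / (512 * v) := by
    rw [le_div_iff₀ (by positivity)]
    linarith
  have h2 : Real.exp (-(β ^ 2 / (512 * v))) ≤
      Real.exp (-(n * Real.log 4 + Real.log (200 * M))) := by
    apply Real.exp_le_exp.mpr
    linarith
  have h3 : Real.exp (-(n * Real.log 4 + Real.log (200 * M))) = 1 / (4 ^ n * (200 * M)) := by
    rw [Real.exp_neg, Real.exp_add, Real.exp_log (by positivity), mul_comm (n : ℝ),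
      Real.exp_mul, Real.exp_log (by norm_num), Real.rpow_natCast, one_div]
  rw [h3] at h2
  have h4 : (4 : ℝ) ^ n = 2 ^ n * 2 ^ n := by
    rw [← mul_pow]
    norm_num
  calc (2 : ℝ) ^ n * (M * (2 ^ n * (2 * Real.exp (-(β ^ 2 / (512 * v))))))
      ≤ (2 : ℝ) ^ n * (M * (2 ^ n * (2 * (1 / (4 ^ n * (200 * M)))))) := by gcongr
    _ = 1 / 100 := by
      rw [h4]
      field_simp
      norm_num

theorem RR_union {n k M : ℕ} {e : Fin M → Fin k → Fin n} (he : ∀ a, Function.Injective (e a))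
    {V : Type} [Fintype V] {u : Fin M × Cube k → V → ℝ} (h0 : ∀ i v, 0 ≤ u i v)
    (h1 : ∀ i, ∑ v, u i v = 1) {X : V → ℝ} (hX : ∀ v, |X v| ≤ 1)
    (hm : ∀ i, ∑ v, u i v * X v = 0) {β v : ℝ} (hβ : 0 ≤ β) (hv : 0 < v) (hM : 1 ≤ M)
    (hJ : ∀ (J : Finset (Fin n)) (a : Fin M), J.card ≤ k →
      (∀ b, (J ∩ rg (e b)).card ≤ (J ∩ rg (e a)).card) →
      ∑ b ∈ univ.erase a, (2 : ℝ) ^ (J ∩ rg (e b)).card / 2 ^ k ≤ v)
    (hN : 512 * v * (n * Real.log 4 + Real.log (200 * M)) ≤ β ^ 2) :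
    EL u (fun Ξ => ind (∃ (J : Finset (Fin n)) (a : Fin M) (z : Cube n), J.card ≤ k ∧
      (∀ b, (J ∩ rg (e b)).card ≤ (J ∩ rg (e a)).card) ∧ β / 16 < |RR e X Ξ J a z|)) ≤
      1 / 100 := by
  have hpt : ∀ (J : Finset (Fin n)) (a : Fin M) (z : Cube n),
      EL u (fun Ξ => ind (J.card ≤ k ∧ (∀ b, (J ∩ rg (e b)).card ≤ (J ∩ rg (e a)).card) ∧
        β / 16 < |RR e X Ξ J a z|)) ≤ 2 * Real.exp (-(β ^ 2 / (512 * v))) := by
    intro J a z
    by_cases hc : J.card ≤ k ∧ (∀ b, (J ∩ rg (e b)).card ≤ (J ∩ rg (e a)).card)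
    · exact (EL_mono h0 fun Ξ => ind_mono fun h => h.2.2).trans
        (RR_tail he h0 h1 hX hm J a z hβ hv (hJ J a hc.1 hc.2))
    · have : EL u (fun Ξ => ind (J.card ≤ k ∧
          (∀ b, (J ∩ rg (e b)).card ≤ (J ∩ rg (e a)).card) ∧ β / 16 < |RR e X Ξ J a z|)) ≤
          EL u (fun _ => 0) := by
        refine EL_mono h0 fun Ξ => ?_
        rw [ind_of_not]
        exact fun h => hc ⟨h.1, h.2.1⟩
      rw [EL_const h1] at this
      refine this.trans ?_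
      positivity
  have hcJ : (Fintype.card (Finset (Fin n)) : ℝ) = 2 ^ n := by simp
  have hcz : (Fintype.card (Cube n) : ℝ) = 2 ^ n := by simp
  calc EL u (fun Ξ => ind (∃ (J : Finset (Fin n)) (a : Fin M) (z : Cube n), J.card ≤ k ∧
      (∀ b, (J ∩ rg (e b)).card ≤ (J ∩ rg (e a)).card) ∧ β / 16 < |RR e X Ξ J a z|))
      ≤ EL u (fun Ξ => ∑ J : Finset (Fin n), ∑ a : Fin M, ∑ z : Cube n, ind (J.card ≤ k ∧
        (∀ b, (J ∩ rg (e b)).card ≤ (J ∩ rg (e a)).card) ∧ β / 16 < |RR e X Ξ J a z|)) := by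
        refine EL_mono h0 fun Ξ => (ind_exists _).trans (sum_le_sum fun J _ => ?_)
        refine (ind_exists _).trans (sum_le_sum fun a _ => ?_)
        exact ind_exists _
    _ = ∑ J : Finset (Fin n), ∑ a : Fin M, ∑ z : Cube n, EL u (fun Ξ => ind (J.card ≤ k ∧
        (∀ b, (J ∩ rg (e b)).card ≤ (J ∩ rg (e a)).card) ∧ β / 16 < |RR e X Ξ J a z|)) := by
        rw [EL_sum u univ (fun J Ξ => ∑ a : Fin M, ∑ z : Cube n, ind (J.card ≤ k ∧
          (∀ b, (J ∩ rg (e b)).card ≤ (J ∩ rg (e a)).card) ∧ β / 16 < |RR e X Ξ J a z|))]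
        refine sum_congr rfl fun J _ => ?_
        rw [EL_sum u univ (fun a Ξ => ∑ z : Cube n, ind (J.card ≤ k ∧
          (∀ b, (J ∩ rg (e b)).card ≤ (J ∩ rg (e a)).card) ∧ β / 16 < |RR e X Ξ J a z|))]
        refine sum_congr rfl fun a _ => ?_
        rw [EL_sum u univ (fun z Ξ => ind (J.card ≤ k ∧
          (∀ b, (J ∩ rg (e b)).card ≤ (J ∩ rg (e a)).card) ∧ β / 16 < |RR e X Ξ J a z|))]
    _ ≤ ∑ _J : Finset (Fin n), ∑ _a : Fin M, ∑ _z : Cube n,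
        2 * Real.exp (-(β ^ 2 / (512 * v))) :=
        sum_le_sum fun J _ => sum_le_sum fun a _ => sum_le_sum fun z _ => hpt J a z
    _ = (2 : ℝ) ^ n * (M * (2 ^ n * (2 * Real.exp (-(β ^ 2 / (512 * v)))))) := by
        simp only [sum_const, card_univ, nsmul_eq_mul, hcJ, hcz, Fintype.card_fin]
    _ ≤ 1 / 100 := b20_num hv hM hN

end Pool.Agent.Work.MP_8f25a0_lc.Decoy
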