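import Pool.Agent.Work.MP_8f25a0_lc.Decoy.Basic
import Pool.Agent.Work.MP_8f25a0_lc.Decoy.B03

/-!
# Decoys: B21, the tail of the mean of the absolute values of one decoy
-/

namespace Pool.Agent.Work.MP_8f25a0_lc.Decoy

open Finset

theorem b21_c2 {k M : ℕ} (a : Fin M) :
    ∑ i : Fin M × Cube k, (if i.1 = a then (1 : ℝ) / 2 ^ k else 0) ^ 2 = 1 / 2 ^ k := by
  rw [Fintype.sum_prod_type]
  have h2 : (Fintype.card (Cube k) : ℝ) = 2 ^ k := by simp
  have : ∀ b : Fin M, ∑ w : Cube k, (if (b, w).1 = a then (1 : ℝ) / 2 ^ k else 0) ^ 2 =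
      if b = a then 1 / 2 ^ k else 0 := by
    intro b
    by_cases hb : b = a
    · simp only [hb, if_true, sum_const, card_univ, nsmul_eq_mul]
      rw [h2]
      field_simp
    · simp [hb]
  rw [sum_congr rfl fun b _ => this b]
  simp

theorem b21_lin {k M : ℕ} (a : Fin M) (f : Cube k → ℝ) (Y : Fin M × Cube k → ℝ)
    (hY : ∀ w, Y (a, w) = f w) :
    ∑ i : Fin M × Cube k, (if i.1 = a then (1 : ℝ) / 2 ^ k else 0) * Y i = avg f := by
  rw [Fintype.sum_prod_type]
  have h2 : (Fintype.card (Cube k) : ℝ) = 2 ^ k := by simp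
  rw [Finset.sum_eq_single a]
  · unfold avg
    rw [h2, sum_div]
    refine sum_congr rfl fun w _ => ?_
    simp only [if_true, hY]
    ring
  · intro b _ hb
    simp [hb]
  · simp

theorem abs_tail {k M : ℕ} {V : Type} [Fintype V] {u : Fin M × Cube k → V → ℝ}
    (h0 : ∀ i v, 0 ≤ u i v) (h1 : ∀ i, ∑ v, u i v = 1) {X : V → ℝ} (hX : ∀ v, |X v| ≤ 1)
    {β : ℝ} (hβ : 0 ≤ β) (a : Fin M) {E : ℝ} (hE : ∀ w, ∑ v, u (a, w) v * |X v| = E) :
    EL u (fun Ξ => ind (E + β / 16 < avg fun w : Cube k => |X (Ξ (a, w))|)) ≤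
        Real.exp (-(2 ^ k * β ^ 2 / 512)) ∧
      EL u (fun Ξ => ind ((avg fun w : Cube k => |X (Ξ (a, w))|) < E - β / 16)) ≤
        Real.exp (-(2 ^ k * β ^ 2 / 512)) := by
  have w0 : Cube k := fun _ => false
  have hE0 : 0 ≤ E := by
    rw [← hE w0]
    exact sum_nonneg fun v _ => mul_nonneg (h0 _ _) (abs_nonneg _)
  have hE1 : E ≤ 1 := by
    rw [← hE w0, ← h1 (a, w0)]
    exact sum_le_sum fun v _ => mul_le_of_le_one_right (h0 _ _) (hX v)
  have ht : (0 : ℝ) ≤ β / 16 := by positivity
  have hv : (0 : ℝ) < 1 / 2 ^ k := by positivity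
  have hexp : (β / 16) ^ 2 / (2 * (1 / 2 ^ k)) = 2 ^ k * β ^ 2 / 512 := by
    field_simp
    ring
  have havg : ∀ f : Cube k → ℝ, avg (fun w => f w - E) = avg f - E := by
    intro f
    unfold avg
    have h2 : (Fintype.card (Cube k) : ℝ) = 2 ^ k := by simp
    rw [sum_sub_distrib, sub_div]
    congr 1
    rw [sum_const, card_univ, nsmul_eq_mul, h2]
    field_simp
  have havg' : ∀ f : Cube k → ℝ, avg (fun w => -(f w - E)) = E - avg f := by
    intro f
    have : avg (fun w => -(f w - E)) = - avg (fun w => f w - E) := by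
      unfold avg
      rw [sum_neg_distrib, neg_div]
    rw [this, havg]
    ring
  have hb : ∀ v, |(|X v| - E)| ≤ 1 := by
    intro v
    have := hX v
    have := abs_nonneg (X v)
    rw [abs_le]
    constructor <;> linarith
  constructor
  · have key := hoeff (u := u) h0 h1 (Y := fun i v => if i.1 = a then |X v| - E else 0)
      (fun i v => by
        split_ifs
        · exact hb v
        · simp) (fun i => by
        by_cases hi : i.1 = a
        · simp only [hi, if_true]
          have hi' : i = (a, i.2) := Prod.ext hi rfl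
          have e1 := hE i.2
          rw [← hi'] at e1
          simp only [mul_sub, sum_sub_distrib, e1, ← sum_mul, h1 i, one_mul, sub_self]
        · simp [hi]) (fun i => if i.1 = a then (1 : ℝ) / 2 ^ k else 0) ht hv (b21_c2 a).le
    rw [hexp] at key
    refine le_trans (EL_mono h0 fun Ξ => ind_mono ?_) key
    intro h
    rw [b21_lin a (fun w => |X (Ξ (a, w))| - E) _ (fun w => by simp), havg]
    linarith
  · have key := hoeff (u := u) h0 h1 (Y := fun i v => if i.1 = a then -(|X v| - E) else 0)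
      (fun i v => by
        split_ifs
        · rw [abs_neg]; exact hb v
        · simp) (fun i => by
        by_cases hi : i.1 = a
        · simp only [hi, if_true]
          have hi' : i = (a, i.2) := Prod.ext hi rfl
          have e1 := hE i.2
          rw [← hi'] at e1
          simp only [mul_neg, sum_neg_distrib, mul_sub, sum_sub_distrib, e1, ← sum_mul, h1 i,
            one_mul, sub_self, neg_zero]
        · simp [hi]) (fun i => if i.1 = a then (1 : ℝ) / 2 ^ k else 0) ht hv (b21_c2 a).le
    rw [hexp] at key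
    refine le_trans (EL_mono h0 fun Ξ => ind_mono ?_) key
    intro h
    rw [b21_lin a (fun w => -(|X (Ξ (a, w))| - E)) _ (fun w => by simp), havg']
    linarith

end Pool.Agent.Work.MP_8f25a0_lc.Decoy
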