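import Pool.Agent.Work.MP_8f25a0_lc.Decoy.B15
import Pool.Agent.Work.MP_8f25a0_lc.Decoy.B16

/-!
# The correlation of the sum of the decoys with a junta
-/

namespace Pool.Agent.Work.MP_8f25a0_lc.Decoy

open Finset


theorem b22_mix_agree {n : ℕ} (J : Finset (Fin n)) (z y : Cube n) : ∀ i ∈ J, mix J z y i = z i := by
  intro i hi
  simp [mix, hi]

theorem b22_split {n k M : ℕ} (e : Fin M → Fin k → Fin n)
    {V : Type} (X : V → ℝ) (Ξ : Fin M × Cube k → V) (J : Finset (Fin n)) (a : Fin M)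
    {G : Cube n → Bool} (hG : ∀ x y : Cube n, (∀ i ∈ J, x i = y i) → G x = G y) :
    avg (fun y => FF e X Ξ y * sg (G y)) =
      avg (fun y : Cube n => X (Ξ (a, y ∘ e a)) * sg (G y)) +
        avg (fun z => RR e X Ξ J a z * sg (G z)) := by
  have h1 : (fun y => FF e X Ξ y * sg (G y)) = fun y : Cube n =>
      X (Ξ (a, y ∘ e a)) * sg (G y) + (∑ b ∈ univ.erase a, X (Ξ (b, y ∘ e b))) * sg (G y) := by
    funext y
    unfold FF
    rw [← Finset.add_sum_erase univ (fun b => X (Ξ (b, y ∘ e b))) (mem_univ a), add_mul]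
  rw [h1, avg_add]
  congr 1
  rw [avg_mix J]
  congr 1
  funext z
  have h2 : (fun y : Cube n => (∑ b ∈ univ.erase a, X (Ξ (b, mix J z y ∘ e b))) *
      sg (G (mix J z y))) = fun y : Cube n =>
        (∑ b ∈ univ.erase a, X (Ξ (b, mix J z y ∘ e b))) * sg (G z) := by
    funext y
    rw [hG (mix J z y) z (b22_mix_agree J z y)]
  rw [h2, avg_mul_right, avg_sum]
  rfl

theorem b22_abs_mul {x : ℝ} (b : Bool) : |x * sg b| = |x| := by
  rw [abs_mul, abs_sg, mul_one]

theorem corr_le {n k M : ℕ} {e : Fin M → Fin k → Fin n} (he : ∀ a, Function.Injective (e a))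
    {V : Type} {X : V → ℝ} {Ξ : Fin M × Cube k → V} (hM : 1 ≤ M) {U B : ℝ}
    (hU : ∀ a, (avg fun w : Cube k => |X (Ξ (a, w))|) ≤ U)
    (hB : ∀ (J : Finset (Fin n)) (a : Fin M) (z : Cube n), J.card ≤ k →
      (∀ b, (J ∩ rg (e b)).card ≤ (J ∩ rg (e a)).card) → |RR e X Ξ J a z| ≤ B)
    {G : Cube n → Bool} (hG : IsJunta k G) :
    avg (fun y => FF e X Ξ y * sg (G y)) ≤ U + B := by
  obtain ⟨J, hJ, hG⟩ := hG
  have hne : (univ : Finset (Fin M)).Nonempty := ⟨⟨0, hM⟩, mem_univ _⟩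
  obtain ⟨a, _, ha⟩ := Finset.exists_max_image univ (fun b => (J ∩ rg (e b)).card) hne
  rw [b22_split e X Ξ J a hG]
  refine add_le_add ?_ ?_
  · refine le_trans (avg_mono (G := fun y : Cube n => |X (Ξ (a, y ∘ e a))|) ?_) ?_
    · intro y
      refine (le_abs_self _).trans (le_of_eq (b22_abs_mul _))
    · rw [avg_comp (he a) (fun w => |X (Ξ (a, w))|)]
      exact hU a
  · refine avg_le_of_forall fun z => ?_
    refine (le_abs_self _).trans ((le_of_eq (b22_abs_mul _)).trans ?_)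
    exact hB J a z hJ fun b => ha b (mem_univ b)

end Pool.Agent.Work.MP_8f25a0_lc.Decoy
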