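import Pool.Agent.Work.MP_8f25a0_lc.Decoy.B22

/-!
# A junta with a large correlation with the sum of the decoys
-/

namespace Pool.Agent.Work.MP_8f25a0_lc.Decoy

open Finset

theorem b23_sign (x : ℝ) : x * sg (decide (x < 0)) = |x| := by
  by_cases h : x < 0
  · rw [decide_eq_true h, abs_of_neg h]
    simp [sg]
  · rw [decide_eq_false h, abs_of_nonneg (not_lt.1 h)]
    simp [sg]

theorem le_corr {n k M : ℕ} {e : Fin M → Fin k → Fin n} (he : ∀ a, Function.Injective (e a))
    {V : Type} {X : V → ℝ} {Ξ : Fin M × Cube k → V} {L B : ℝ} (a : Fin M)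
    (hL : L ≤ avg fun w : Cube k => |X (Ξ (a, w))|)
    (hB : ∀ (J : Finset (Fin n)) (a : Fin M) (z : Cube n), J.card ≤ k →
      (∀ b, (J ∩ rg (e b)).card ≤ (J ∩ rg (e a)).card) → |RR e X Ξ J a z| ≤ B) :
    ∃ G : Cube n → Bool, IsJunta k G ∧ L - B ≤ avg (fun y => FF e X Ξ y * sg (G y)) := by
  classical
  have hJc : (rg (e a)).card ≤ k := by
    unfold rg
    refine Finset.card_image_le.trans ?_
    simp
  have hG : ∀ x y : Cube n, (∀ i ∈ rg (e a), x i = y i) →
      decide (X (Ξ (a, x ∘ e a)) < 0) = decide (X (Ξ (a, y ∘ e a)) < 0) := by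
    intro x y h
    have : x ∘ e a = y ∘ e a := by
      funext i
      exact h _ (by simp [rg])
    rw [this]
  refine ⟨fun x => decide (X (Ξ (a, x ∘ e a)) < 0), ⟨rg (e a), hJc, hG⟩, ?_⟩
  rw [b22_split e X Ξ (rg (e a)) a hG, sub_eq_add_neg]
  refine add_le_add ?_ ?_
  · have h1 : (fun y : Cube n => X (Ξ (a, y ∘ e a)) * sg (decide (X (Ξ (a, y ∘ e a)) < 0)))
        = fun y : Cube n => |X (Ξ (a, y ∘ e a))| := by
      funext y
      exact b23_sign _
    rw [h1, avg_comp (he a) (fun w => |X (Ξ (a, w))|)]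
    exact hL
  · rw [← avg_const (α := Cube n) (-B)]
    refine avg_mono fun z => ?_
    have h2 : |RR e X Ξ (rg (e a)) a z * sg (decide (X (Ξ (a, z ∘ e a)) < 0))| ≤ B := by
      rw [b22_abs_mul]
      refine hB _ a z hJc fun b => ?_
      rw [Finset.inter_self]
      exact Finset.card_le_card Finset.inter_subset_left
    exact (abs_le.1 h2).1

end Pool.Agent.Work.MP_8f25a0_lc.Decoy
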