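import Pool.Agent.Work.MP_8f25a0_lc.Decoy.Basic

namespace Pool.Agent.Work.MP_8f25a0_lc.Decoy

open Finset

/-- a point of the cube of dimension `N + d` is a pair of points -/
def b24_e (N d : ℕ) : Cube d × Cube N ≃ Cube (N + d) where
  toFun p := Fin.append p.2 p.1
  invFun x := (x ∘ Fin.natAdd N, x ∘ Fin.castAdd d)
  left_inv p := by
    rcases p with ⟨b, a⟩
    simp only [Prod.mk.injEq]
    constructor
    · funext i
      simp
    · funext i
      simp
  right_inv x := by
    funext i
    induction i using Fin.addCases <;> simp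

theorem b24_fst {N d : ℕ} (b : Cube d) (a : Cube N) : b24_e N d (b, a) ∘ Fin.castAdd d = a := by
  funext i
  simp [b24_e]

theorem b24_avg {N d : ℕ} (H : Cube (N + d) → ℝ) :
    avg H = avg fun b : Cube d => avg fun a : Cube N => H (b24_e N d (b, a)) := by
  rw [← avg_equiv (b24_e N d) H, avg_prod]

theorem lift_le {N d k : ℕ} {F : Cube N → ℝ} {B : ℝ}
    (h : ∀ G : Cube N → Bool, IsJunta k G → avg (fun y => F y * sg (G y)) ≤ B)
    {G : Cube (N + d) → Bool} (hG : IsJunta k G) :
    avg (fun x : Cube (N + d) => F (x ∘ Fin.castAdd d) * sg (G x)) ≤ B := by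
  classical
  rw [b24_avg]
  apply avg_le_of_forall
  intro b
  simp_rw [b24_fst]
  apply h
  obtain ⟨J, hJ, hG⟩ := hG
  refine ⟨univ.filter fun i : Fin N => Fin.castAdd d i ∈ J, ?_, ?_⟩
  · have h1 : ((univ.filter fun i : Fin N => Fin.castAdd d i ∈ J).image (Fin.castAdd d)) ⊆ J := by
      intro i hi
      obtain ⟨j, hj, rfl⟩ := mem_image.1 hi
      exact (mem_filter.1 hj).2
    have h2 := card_le_card h1
    rw [card_image_of_injective _ (Fin.castAdd_injective N d)] at h2
    omega
  · intro x y hxy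
    apply hG
    intro i hi
    induction i using Fin.addCases with
    | left j =>
      have := hxy j (mem_filter.2 ⟨mem_univ _, hi⟩)
      simpa [b24_e] using this
    | right j => simp [b24_e]

theorem le_lift {N k : ℕ} (d : ℕ) {F : Cube N → ℝ} {B : ℝ}
    (h : ∃ G : Cube N → Bool, IsJunta k G ∧ B ≤ avg (fun y => F y * sg (G y))) :
    ∃ G : Cube (N + d) → Bool, IsJunta k G ∧
      B ≤ avg (fun x : Cube (N + d) => F (x ∘ Fin.castAdd d) * sg (G x)) := by
  classical
  obtain ⟨G, ⟨J, hJ, hG⟩, hB⟩ := h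
  refine ⟨fun x => G (x ∘ Fin.castAdd d), ⟨J.image (Fin.castAdd d), card_image_le.trans hJ, ?_⟩, ?_⟩
  · intro x y hxy
    apply hG
    intro i hi
    exact hxy _ (mem_image_of_mem _ hi)
  · rw [b24_avg]
    simp_rw [b24_fst]
    rw [avg_const]
    exact hB

end Pool.Agent.Work.MP_8f25a0_lc.Decoy
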