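import Pool.Agent.Work.MP_8f25a0_lc.Decoy.Basic

/-!
# Decoys, block B25: the noise
-/

namespace Pool.Agent.Work.MP_8f25a0_lc.Decoy

open Finset

theorem noise_lower {n k : ℕ} (hn : 0 < n) {p : Cube n → ℝ} (h0 : ∀ x, 0 ≤ p x)
    (h1 : ∀ x, p x ≤ 1) {U t : ℝ} (ht : 0 ≤ t) (hU : ∀ G, IsJunta k G → ecorr p G ≤ U) :
    Ex p (fun f => ind (distK k f < (1 - U) / 2 - t)) ≤
      (n : ℝ) ^ k * 2 ^ (2 ^ k) * Real.exp (-(2 ^ n * t ^ 2 / 2)) := by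
  classical
  refine le_trans ?_ (Ex_union (k := k) hn h0 h1 ht)
  apply Ex_mono h0 h1
  intro f _
  by_cases h : distK k f < (1 - U) / 2 - t
  · rw [ind_of h, if_pos]
    obtain ⟨G, hG, hG'⟩ := exists_distK k f
    rw [hG'] at h
    refine ⟨G, hG, ?_⟩
    have := hU G hG
    linarith
  · rw [ind_of_not h]
    split_ifs <;> norm_num

theorem noise_upper {n k : ℕ} {p : Cube n → ℝ} (h0 : ∀ x, 0 ≤ p x)
    (h1 : ∀ x, p x ≤ 1) {L t : ℝ} (ht : 0 ≤ t) (hL : ∃ G, IsJunta k G ∧ L ≤ ecorr p G) :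
    Ex p (fun f => ind ((1 - L) / 2 + t < distK k f)) ≤ Real.exp (-(2 ^ n * t ^ 2 / 2)) := by
  obtain ⟨G, hG, hLG⟩ := hL
  refine le_trans ?_ (Ex_single h0 h1 ht G)
  apply Ex_mono h0 h1
  intro f _
  by_cases h : (1 - L) / 2 + t < distK k f
  · rw [ind_of h, if_pos]
    have := distK_le (f := f) hG
    linarith
  · rw [ind_of_not h]
    split_ifs <;> norm_num

end Pool.Agent.Work.MP_8f25a0_lc.Decoy
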