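import Pool.Agent.Work.MP_8f25a0_lc.Decoy.Basic
import Mathlib.Algebra.Group.ForwardDiff

/-!
# Decoys, block B26: an alternating sum of absolute values (helper23)
-/

namespace Pool.Agent.Work.MP_8f25a0_lc.Decoy

open Finset

theorem b26_sign {N k : ℕ} (hN : Even N) (hk : k ≤ N) : (-1 : ℝ) ^ (N - k) = (-1) ^ k := by
  have h1 : Even (N - k) ↔ Even k := by
    rw [Nat.even_sub hk]
    tauto
  rcases Nat.even_or_odd k with h | h
  · rw [h.neg_one_pow, (h1.mpr h).neg_one_pow]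
  · rw [h.neg_one_pow]
    have h2 : Odd (N - k) := by
      rw [← Nat.not_even_iff_odd, h1, Nat.not_even_iff_odd]
      exact h
    rw [h2.neg_one_pow]

theorem b26_diff (f : ℕ → ℝ) {N : ℕ} (hN : Even N) :
    (fwdDiff 1)^[N] f 0 = ∑ i ∈ range (N + 1), (-1 : ℝ) ^ i * (N.choose i) * f i := by
  rw [fwdDiff_iter_eq_sum_shift]
  refine sum_congr rfl fun i hi => ?_
  have hi' : i ≤ N := by
    have := mem_range.mp hi
    omega
  rw [zsmul_eq_mul]
  push_cast
  rw [b26_sign hN hi']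
  congr 2
  simp

theorem sum_choose_abs (m : ℕ) (hm : 1 ≤ m) :
    ∑ i ∈ range (2 * m + 1), (-1 : ℝ) ^ i * ((2 * m).choose i) * |(m : ℝ) - i| =
      2 * (-1) ^ (m - 1) * ((2 * m - 2).choose (m - 1)) := by
  obtain ⟨n, rfl⟩ : ∃ n, m = n + 1 := ⟨m - 1, by omega⟩
  have h1 := b26_diff (fun i => |((n + 1 : ℕ) : ℝ) - i|) (N := 2 * (n + 1)) ⟨n + 1, by ring⟩
  rw [← h1]
  have h2 : 2 * (n + 1) = 2 * n + 2 := by ring
  have h3 : fwdDiff 1 (fwdDiff 1 (fun i : ℕ => |((n + 1 : ℕ) : ℝ) - i|)) =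
      fun i : ℕ => if i = n then (2 : ℝ) else 0 := by
    funext i
    unfold fwdDiff
    push_cast
    rcases lt_trichotomy i n with h | h | h
    · rw [if_neg (by omega)]
      have h4 : (i : ℝ) + 1 ≤ n := by exact_mod_cast h
      rw [abs_of_nonneg (by linarith), abs_of_nonneg (by linarith), abs_of_nonneg (by linarith)]
      ring
    · subst h
      rw [if_pos rfl]
      have e1 : ((i : ℝ) + 1 - (i + 1 + 1)) = -1 := by ring
      have e2 : ((i : ℝ) + 1 - (i + 1)) = 0 := by ring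
      have e3 : ((i : ℝ) + 1 - i) = 1 := by ring
      rw [e1, e2, e3]
      norm_num
    · rw [if_neg (by omega)]
      have h4 : (n : ℝ) + 1 ≤ i := by exact_mod_cast h
      rw [abs_of_nonpos (by linarith), abs_of_nonpos (by linarith), abs_of_nonpos (by linarith)]
      ring
  have h4 : (fwdDiff 1)^[2 * (n + 1)] (fun i : ℕ => |((n + 1 : ℕ) : ℝ) - i|) =
      (fwdDiff 1)^[2 * n] (fun i : ℕ => if i = n then (2 : ℝ) else 0) := by
    rw [h2, Function.iterate_add_apply, ← h3]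
    rfl
  rw [h4, b26_diff _ ⟨n, by ring⟩]
  have h5 : ∀ i ∈ range (2 * n + 1), (-1 : ℝ) ^ i * ((2 * n).choose i) *
      (if i = n then (2 : ℝ) else 0) =
      if i = n then (-1 : ℝ) ^ n * ((2 * n).choose n) * 2 else 0 := by
    intro i _
    split_ifs with h
    · rw [h]
    · ring
  rw [sum_congr rfl h5, sum_ite_eq' , if_pos (mem_range.mpr (by omega))]
  have e1 : n + 1 - 1 = n := by omega
  have e2 : 2 * (n + 1) - 2 = 2 * n := by omega
  rw [e1, e2]
  ring

end Pool.Agent.Work.MP_8f25a0_lc.Decoy
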