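import Pool.Agent.Work.MP_8f25a0_lc.Decoy.B26

/-!
# Decoys, block B27: two laws with the same moments (helper23)
-/

namespace Pool.Agent.Work.MP_8f25a0_lc.Decoy

open Finset

theorem b27_alt {m j : ℕ} (hj : j < 2 * m) :
    ∑ i ∈ range (2 * m + 1), (-1 : ℝ) ^ i * ((2 * m).choose i) * ((m : ℝ) - i) ^ j = 0 := by
  have h1 : (fwdDiff 1)^[2 * m] (fun r : ℝ => r ^ j) (-(m : ℝ)) = 0 := by
    rw [fwdDiff_iter_pow_eq_zero_of_lt hj]
    rfl
  rw [fwdDiff_iter_eq_sum_shift] at h1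
  have h2 : ∑ i ∈ range (2 * m + 1), (-1 : ℝ) ^ i * ((2 * m).choose i) * ((m : ℝ) - i) ^ j =
      (-1) ^ j * ∑ k ∈ range (2 * m + 1),
        ((-1 : ℤ) ^ (2 * m - k) * ((2 * m).choose k : ℤ)) • (-(m : ℝ) + k • (1 : ℝ)) ^ j := by
    rw [mul_sum]
    refine sum_congr rfl fun i hi => ?_
    have hi' : i ≤ 2 * m := by
      have := mem_range.mp hi
      omega
    rw [zsmul_eq_mul]
    push_cast
    rw [b26_sign ⟨m, by ring⟩ hi']
    have e1 : -(m : ℝ) + i • (1 : ℝ) = (-1) * ((m : ℝ) - i) := by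
      rw [nsmul_eq_mul]
      ring
    rw [e1, mul_pow]
    have e2 : (-1 : ℝ) ^ j * (-1) ^ j = 1 := by
      rw [← mul_pow]
      norm_num
    linear_combination (-((-1 : ℝ) ^ i * ((2 * m).choose i) * ((m : ℝ) - i) ^ j)) * e2
  rw [h2, h1, mul_zero]

theorem b27_sum (m : ℕ) : ∑ i ∈ range (2 * m + 1), (((2 * m).choose i : ℕ) : ℝ) = 4 ^ m := by
  have h := Nat.sum_range_choose (2 * m)
  have h1 : ((∑ i ∈ range (2 * m + 1), (2 * m).choose i : ℕ) : ℝ) = ((2 ^ (2 * m) : ℕ) : ℝ) := by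
    rw [h]
  push_cast at h1
  rw [h1, pow_mul]
  norm_num

theorem b27_mean (m : ℕ) :
    ∑ i ∈ range (2 * m + 1), (((2 * m).choose i : ℕ) : ℝ) * ((m : ℝ) - i) = 0 := by
  have h := sum_range_reflect (fun i => (((2 * m).choose i : ℕ) : ℝ) * ((m : ℝ) - i)) (2 * m + 1)
  have h1 : ∀ j ∈ range (2 * m + 1),
      (((2 * m).choose (2 * m + 1 - 1 - j) : ℕ) : ℝ) * ((m : ℝ) - (2 * m + 1 - 1 - j : ℕ)) =
      -((((2 * m).choose j : ℕ) : ℝ) * ((m : ℝ) - j)) := by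
    intro j hj
    have hj' : j ≤ 2 * m := by
      have := mem_range.mp hj
      omega
    have e1 : 2 * m + 1 - 1 - j = 2 * m - j := by omega
    rw [e1, Nat.choose_symm hj', Nat.cast_sub hj']
    push_cast
    ring
  rw [sum_congr rfl h1, sum_neg_distrib] at h
  linarith

theorem b27_gap {m : ℕ} (hm : 2 ≤ m) :
    1 / (2 * (m : ℝ) ^ 2) ≤ 4 * ((2 * m - 2).choose (m - 1) : ℕ) / (4 ^ m * m) := by
  obtain ⟨n, rfl⟩ : ∃ n, m = n + 1 := ⟨m - 1, by omega⟩
  have hn : 1 ≤ n := by omega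
  have e1 : n + 1 - 1 = n := by omega
  have e2 : 2 * (n + 1) - 2 = 2 * n := by omega
  rw [e1, e2]
  have h1 := Nat.four_pow_le_two_mul_self_mul_centralBinom n hn
  rw [Nat.centralBinom_eq_two_mul_choose] at h1
  have h2 : (4 : ℝ) ^ n ≤ 2 * n * ((2 * n).choose n : ℕ) := by exact_mod_cast h1
  have hn0 : (0 : ℝ) < n := by exact_mod_cast hn
  set c : ℝ := (((2 * n).choose n : ℕ) : ℝ) with hc
  have hc0 : 0 ≤ c := Nat.cast_nonneg _
  have h4 : (0 : ℝ) < 4 ^ n := by positivity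
  rw [div_le_div_iff₀ (by positivity) (by positivity)]
  push_cast
  rw [pow_succ]
  have h5 : (4 : ℝ) ^ n ≤ 2 * (n + 1) * c := by nlinarith
  nlinarith [mul_le_mul_of_nonneg_right h5 (show (0 : ℝ) ≤ 4 * (n + 1) by positivity)]

theorem exists_pair (m : ℕ) (hm : 2 ≤ m) :
    Nonempty (Pair (Fin (2 * m + 1)) (2 * m) (1 / (2 * (m : ℝ) ^ 2))) := by
  have hm0 : (0 : ℝ) < m := by
    have : 0 < m := by omega
    exact_mod_cast this
  set s : ℝ := (-1) ^ (m - 1) with hs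
  have hss : s * s = 1 := by
    rw [hs, ← mul_pow]
    norm_num
  have hsi : ∀ i : ℕ, s * (-1) ^ i = 1 ∨ s * (-1) ^ i = -1 := by
    intro i
    rw [hs, ← pow_add]
    exact neg_one_pow_eq_or ℝ _
  -- the difference of the sums
  have key : ∀ (a : ℝ) (g : ℕ → ℝ), ∑ i : Fin (2 * m + 1),
      (1 + a * (-1) ^ (i : ℕ)) * (((2 * m).choose i : ℕ) : ℝ) / 4 ^ m * g i =
      (∑ i ∈ range (2 * m + 1), (((2 * m).choose i : ℕ) : ℝ) * g i) / 4 ^ m +
      a * (∑ i ∈ range (2 * m + 1), (-1 : ℝ) ^ i * ((2 * m).choose i) * g i) / 4 ^ m := by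
    intro a g
    rw [Fin.sum_univ_eq_sum_range (fun i => (1 + a * (-1) ^ i) * (((2 * m).choose i : ℕ) : ℝ) /
      4 ^ m * g i) (2 * m + 1), mul_sum, sum_div, sum_div, ← sum_add_distrib]
    refine sum_congr rfl fun i _ => ?_
    ring
  have k0 : ∀ a : ℝ, ∑ i : Fin (2 * m + 1),
      (1 + a * (-1) ^ (i : ℕ)) * (((2 * m).choose i : ℕ) : ℝ) / 4 ^ m = 1 := by
    intro a
    have h1 := key a (fun _ => 1)
    simp only [mul_one] at h1
    rw [h1, b27_sum]
    have h2 := b27_alt (m := m) (j := 0) (by omega)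
    simp only [pow_zero, mul_one] at h2
    rw [h2]
    field_simp
    ring
  have k1 : ∀ a : ℝ, ∑ i : Fin (2 * m + 1),
      (1 + a * (-1) ^ (i : ℕ)) * (((2 * m).choose i : ℕ) : ℝ) / 4 ^ m *
        (((m : ℝ) - (i : ℕ)) / m) = 0 := by
    intro a
    rw [key a (fun i => ((m : ℝ) - i) / m)]
    have h1 : ∑ i ∈ range (2 * m + 1), (((2 * m).choose i : ℕ) : ℝ) * (((m : ℝ) - i) / m) =
        (∑ i ∈ range (2 * m + 1), (((2 * m).choose i : ℕ) : ℝ) * ((m : ℝ) - i)) / m := by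
      rw [sum_div]
      exact sum_congr rfl fun i _ => by ring
    have h2 : ∑ i ∈ range (2 * m + 1), (-1 : ℝ) ^ i * ((2 * m).choose i) * (((m : ℝ) - i) / m) =
        (∑ i ∈ range (2 * m + 1), (-1 : ℝ) ^ i * ((2 * m).choose i) * ((m : ℝ) - i) ^ 1) / m := by
      rw [sum_div]
      exact sum_congr rfl fun i _ => by ring
    rw [h1, h2, b27_mean, b27_alt (by omega)]
    simp
  have hX : ∀ i : Fin (2 * m + 1), |((m : ℝ) - (i : ℕ)) / m| ≤ 1 := by
    intro i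
    have h1 : ((i : ℕ) : ℝ) ≤ 2 * m := by
      have := i.2
      exact_mod_cast (by omega : (i : ℕ) ≤ 2 * m)
    have h2 : (0 : ℝ) ≤ ((i : ℕ) : ℝ) := Nat.cast_nonneg _
    rw [abs_div, abs_of_pos hm0, div_le_one hm0, abs_le]
    constructor <;> linarith
  have hC : ∀ i : ℕ, (0 : ℝ) ≤ (((2 * m).choose i : ℕ) : ℝ) / 4 ^ m := fun i => by positivity
  refine ⟨{
    X := fun i => ((m : ℝ) - (i : ℕ)) / m
    w0 := fun i => (1 + (-s) * (-1) ^ (i : ℕ)) * (((2 * m).choose i : ℕ) : ℝ) / 4 ^ m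
    w1 := fun i => (1 + s * (-1) ^ (i : ℕ)) * (((2 * m).choose i : ℕ) : ℝ) / 4 ^ m
    hX := hX
    n0 := ?_
    n1 := ?_
    s0 := k0 _
    s1 := k0 _
    m0 := k1 _
    m1 := k1 _
    mom := ?_
    gap := ?_ }⟩
  · intro i
    rw [mul_div_assoc]
    refine mul_nonneg ?_ (hC i)
    rcases hsi i with h | h
    · rw [neg_mul, h]; norm_num
    · rw [neg_mul, h]; norm_num
  · intro i
    rw [mul_div_assoc]
    refine mul_nonneg ?_ (hC i)
    rcases hsi i with h | h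
    · rw [h]; norm_num
    · rw [h]; norm_num
  · intro j hj
    simp only [sub_mul]
    rw [sum_sub_distrib, key s (fun i => (((m : ℝ) - i) / m) ^ j),
      key (-s) (fun i => (((m : ℝ) - i) / m) ^ j)]
    have h2 : ∑ i ∈ range (2 * m + 1),
        (-1 : ℝ) ^ i * ((2 * m).choose i) * (((m : ℝ) - i) / m) ^ j =
        (∑ i ∈ range (2 * m + 1), (-1 : ℝ) ^ i * ((2 * m).choose i) * ((m : ℝ) - i) ^ j) /
          m ^ j := by
      rw [sum_div]
      exact sum_congr rfl fun i _ => by rw [div_pow]; ring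
    rw [h2, b27_alt hj]
    simp
  · rw [key s (fun i => |((m : ℝ) - i) / m|), key (-s) (fun i => |((m : ℝ) - i) / m|)]
    have h2 : ∑ i ∈ range (2 * m + 1),
        (-1 : ℝ) ^ i * ((2 * m).choose i) * |((m : ℝ) - i) / m| =
        (∑ i ∈ range (2 * m + 1), (-1 : ℝ) ^ i * ((2 * m).choose i) * |(m : ℝ) - i|) / m := by
      rw [sum_div]
      refine sum_congr rfl fun i _ => ?_
      rw [abs_div, abs_of_pos hm0]
      ring
    rw [h2, sum_choose_abs m (by omega), ← hs]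
    refine (b27_gap hm).trans (le_of_eq ?_)
    have h3 : ∀ c : ℝ, s * (2 * s * c / m) / 4 ^ m - -s * (2 * s * c / m) / 4 ^ m =
        4 * (s * s) * c / (4 ^ m * m) := by
      intro c
      field_simp
      ring
    have h4 : ∀ a b c : ℝ, a + b - (a + c) = b - c := fun a b c => by ring
    rw [h4, h3, hss, mul_one]

end Pool.Agent.Work.MP_8f25a0_lc.Decoy
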