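import Pool.Agent.Work.MP_8f25a0_lc.Decoy.Basic

/-!
# Decoys: B32, the value of `v`
-/

namespace Pool.Agent.Work.MP_8f25a0_lc.Decoy

open Finset

theorem b32_exp {h k : ℕ} (hh : 2 ≤ h) :
    (k + k / (2 * h ^ 2)) / 2 + k / (4 * h) ≤ k := by
  have h1 : k / (2 * h ^ 2) ≤ k / 8 := Nat.div_le_div_left (by nlinarith) (by norm_num)
  have h2 : k / (4 * h) ≤ k / 8 := Nat.div_le_div_left (by nlinarith) (by norm_num)
  omega

theorem b32_log {h k M : ℕ} (hk : 1 ≤ k) (hM1 : 1 ≤ M) (hM2 : (M : ℝ) ≤ 2 ^ k) :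
    ((k * 16 ^ (h ^ 2) : ℕ) : ℝ) * Real.log 4 + Real.log (200 * M) ≤
      10 * (k * 16 ^ (h ^ 2)) := by
  have hk' : (1 : ℝ) ≤ k := by exact_mod_cast hk
  have hM' : (1 : ℝ) ≤ M := by exact_mod_cast hM1
  have hH : (1 : ℝ) ≤ 16 ^ (h ^ 2) := one_le_pow₀ (by norm_num)
  have hl2 := Real.log_two_lt_d9
  have hl4 : Real.log 4 = 2 * Real.log 2 := by
    have : (4 : ℝ) = 2 ^ 2 := by norm_num
    rw [this, Real.log_pow]
    norm_num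
  have hl200 : Real.log 200 ≤ 8 * Real.log 2 := by
    have e1 : Real.log 200 ≤ Real.log (2 ^ 8) := by
      apply Real.log_le_log (by norm_num)
      norm_num
    rw [Real.log_pow] at e1
    simpa using e1
  have hlM : Real.log (200 * M) ≤ 8 * Real.log 2 + k * Real.log 2 := by
    rw [Real.log_mul (by norm_num) (by linarith)]
    have e1 : Real.log M ≤ Real.log (2 ^ k) := Real.log_le_log (by linarith) hM2
    rw [Real.log_pow] at e1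
    linarith
  have hkH : (k : ℝ) ≤ k * 16 ^ (h ^ 2) := le_mul_of_one_le_right (by linarith) hH
  have hcast : ((k * 16 ^ (h ^ 2) : ℕ) : ℝ) = k * 16 ^ (h ^ 2) := by push_cast; ring
  rw [hcast, hl4]
  have e2 : (k : ℝ) * Real.log 2 ≤ k * 0.7 := by
    apply mul_le_mul_of_nonneg_left _ (by linarith)
    linarith
  have e3 : (k : ℝ) * 16 ^ (h ^ 2) * (2 * Real.log 2) ≤ k * 16 ^ (h ^ 2) * 1.4 := by
    apply mul_le_mul_of_nonneg_left _ (by positivity)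
    linarith
  linarith

theorem num_v {h k M : ℕ} (hh : 2 ≤ h) (hk : 1 ≤ k) (hM1 : 1 ≤ M)
    (hst : 10 ^ 13 * 16 ^ (h ^ 2) * ((k : ℝ) + 6) ^ 10 ≤ 2 ^ (k / (4 * h)))
    (hM : (M : ℝ) ≤ 2 ^ k / 2 ^ (k / h + 1) / (40960 * 16 ^ (h ^ 2) * k * ((k : ℝ) + 3) ^ 4)) :
    512 * (M * 2 ^ (k / h + 1) / 2 ^ k + (k : ℝ) ^ 2 * 2 ^ ((k + k / (2 * h ^ 2)) / 2) / 2 ^ k) *
      (((k * 16 ^ (h ^ 2) : ℕ) : ℝ) * Real.log 4 + Real.log (200 * M)) ≤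
      (1 / (2 * ((k : ℝ) + 3) ^ 2)) ^ 2 := by
  have hk' : (1 : ℝ) ≤ k := by exact_mod_cast hk
  have hM' : (1 : ℝ) ≤ M := by exact_mod_cast hM1
  set H : ℝ := 16 ^ (h ^ 2) with hHdef
  have hH : (1 : ℝ) ≤ H := one_le_pow₀ (by norm_num)
  have hH0 : 0 < H := by linarith
  have hk0 : (0 : ℝ) < k := by linarith
  set B : ℝ := 40960 * H * k * ((k : ℝ) + 3) ^ 4 with hB
  have hB0 : 0 < B := by positivity
  have hB1 : 1 ≤ B := by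
    have e1 : (1 : ℝ) ≤ ((k : ℝ) + 3) ^ 4 := one_le_pow₀ (by linarith)
    have e2 : (1 : ℝ) ≤ 40960 * H * k := by nlinarith
    calc (1 : ℝ) = 1 * 1 := by ring
      _ ≤ (40960 * H * k) * ((k : ℝ) + 3) ^ 4 := by gcongr
      _ = B := by rw [hB]
  have h2r : (0 : ℝ) < 2 ^ (k / h + 1) := by positivity
  have h2k : (0 : ℝ) < 2 ^ k := by positivity
  have hM2 : (M : ℝ) ≤ 2 ^ k := by
    refine hM.trans ?_
    rw [div_div]
    apply div_le_self h2k.le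
    have : (1 : ℝ) ≤ 2 ^ (k / h + 1) := one_le_pow₀ (by norm_num)
    nlinarith
  have hfirst : (M : ℝ) * 2 ^ (k / h + 1) / 2 ^ k ≤ 1 / B := by
    rw [div_le_div_iff₀ h2k hB0]
    rw [div_div, le_div_iff₀ (by positivity)] at hM
    linarith
  have hsecond : (k : ℝ) ^ 2 * 2 ^ ((k + k / (2 * h ^ 2)) / 2) / 2 ^ k ≤ 1 / B := by
    rw [div_le_div_iff₀ h2k hB0]
    have e1 : (2 : ℝ) ^ ((k + k / (2 * h ^ 2)) / 2) * 2 ^ (k / (4 * h)) ≤ 2 ^ k := by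
      rw [← pow_add]
      exact pow_le_pow_right₀ (by norm_num) (b32_exp hh)
    have e2 : (k : ℝ) ^ 2 * B ≤ 10 ^ 13 * H * ((k : ℝ) + 6) ^ 10 := by
      have e3 : (k : ℝ) ^ 3 ≤ ((k : ℝ) + 6) ^ 3 := by gcongr; linarith
      have e4 : ((k : ℝ) + 3) ^ 4 ≤ ((k : ℝ) + 6) ^ 4 := by gcongr; linarith
      have e5 : (1 : ℝ) ≤ ((k : ℝ) + 6) ^ 3 := one_le_pow₀ (by linarith)
      calc (k : ℝ) ^ 2 * B = 40960 * H * ((k : ℝ) ^ 3 * ((k : ℝ) + 3) ^ 4 * 1) := by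
            rw [hB]; ring
        _ ≤ 10 ^ 13 * H * (((k : ℝ) + 6) ^ 3 * ((k : ℝ) + 6) ^ 4 * ((k : ℝ) + 6) ^ 3) := by
            gcongr
            norm_num
        _ = 10 ^ 13 * H * ((k : ℝ) + 6) ^ 10 := by ring
    have e6 : (0 : ℝ) < 2 ^ ((k + k / (2 * h ^ 2)) / 2) := by positivity
    calc (k : ℝ) ^ 2 * 2 ^ ((k + k / (2 * h ^ 2)) / 2) * B
        = 2 ^ ((k + k / (2 * h ^ 2)) / 2) * ((k : ℝ) ^ 2 * B) := by ring
      _ ≤ 2 ^ ((k + k / (2 * h ^ 2)) / 2) * 2 ^ (k / (4 * h)) := by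
          apply mul_le_mul_of_nonneg_left (e2.trans hst) e6.le
      _ ≤ 2 ^ k := e1
      _ = 1 * 2 ^ k := by ring
  have hlog : ((k * 16 ^ (h ^ 2) : ℕ) : ℝ) * Real.log 4 + Real.log (200 * M) ≤
      10 * (k * H) := b32_log hk hM1 hM2
  have hsum0 : 0 ≤ 512 * ((M : ℝ) * 2 ^ (k / h + 1) / 2 ^ k +
      (k : ℝ) ^ 2 * 2 ^ ((k + k / (2 * h ^ 2)) / 2) / 2 ^ k) := by positivity
  calc 512 * ((M : ℝ) * 2 ^ (k / h + 1) / 2 ^ k +
        (k : ℝ) ^ 2 * 2 ^ ((k + k / (2 * h ^ 2)) / 2) / 2 ^ k) *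
        (((k * 16 ^ (h ^ 2) : ℕ) : ℝ) * Real.log 4 + Real.log (200 * M))
      ≤ 512 * ((M : ℝ) * 2 ^ (k / h + 1) / 2 ^ k +
        (k : ℝ) ^ 2 * 2 ^ ((k + k / (2 * h ^ 2)) / 2) / 2 ^ k) * (10 * (k * H)) :=
        mul_le_mul_of_nonneg_left hlog hsum0
    _ ≤ 512 * (1 / B + 1 / B) * (10 * (k * H)) := by gcongr
    _ = (1 / (2 * ((k : ℝ) + 3) ^ 2)) ^ 2 := by
        rw [hB]
        field_simp
        norm_num

end Pool.Agent.Work.MP_8f25a0_lc.Decoy
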