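import Pool.Agent.Work.MP_8f25a0_lc.Decoy.Basic

/-!
# Numerical inequality C
-/

namespace Pool.Agent.Work.MP_8f25a0_lc.Decoy

open Finset

theorem b33_exp5 : Real.exp (-5) ≤ 1 / 100 := by
  have h1 : (2.7 : ℝ) ≤ Real.exp 1 := by
    have := Real.exp_one_gt_d9
    linarith
  have h2 : (2.7 : ℝ) ^ 5 ≤ Real.exp 1 ^ 5 := pow_le_pow_left₀ (by norm_num) h1 5
  have h3 : Real.exp 1 ^ 5 = Real.exp 5 := by
    rw [← Real.exp_nat_mul]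
    norm_num
  rw [h3] at h2
  have h4 : (100 : ℝ) ≤ Real.exp 5 := le_trans (by norm_num) h2
  rw [Real.exp_neg, ← one_div]
  exact one_div_le_one_div_of_le (by norm_num) h4

theorem b33_two_pow_le_exp (k : ℕ) : (2 : ℝ) ^ k ≤ Real.exp k := by
  have h1 : (2 : ℝ) ≤ Real.exp 1 := by
    have := Real.exp_one_gt_d9
    linarith
  calc (2 : ℝ) ^ k ≤ Real.exp 1 ^ k := pow_le_pow_left₀ (by norm_num) h1 k
    _ = Real.exp k := by
      rw [← Real.exp_nat_mul, mul_one]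

theorem num_c {h k M : ℕ} (hh : 2 ≤ h) (hk : 1 ≤ k)
    (hst : 10 ^ 13 * 16 ^ (h ^ 2) * ((k : ℝ) + 6) ^ 10 ≤ 2 ^ (k / (4 * h)))
    (hM : (M : ℝ) ≤ 2 ^ k / 2 ^ (k / h + 1) / (40960 * 16 ^ (h ^ 2) * k * ((k : ℝ) + 3) ^ 4)) :
    M * Real.exp (-(2 ^ k * (1 / (2 * ((k : ℝ) + 3) ^ 2)) ^ 2 / 512)) ≤ 1 / 100 := by
  have hk' : (1 : ℝ) ≤ k := by exact_mod_cast hk
  have h16 : (1 : ℝ) ≤ 16 ^ (h ^ 2) := one_le_pow₀ (by norm_num)
  have hMk : (M : ℝ) ≤ 2 ^ k := by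
    refine hM.trans ?_
    have h1 : (1 : ℝ) ≤ 2 ^ (k / h + 1) := one_le_pow₀ (by norm_num)
    have h2 : (1 : ℝ) ≤ ((k : ℝ) + 3) ^ 4 := one_le_pow₀ (by linarith)
    have h3 : (1 : ℝ) ≤ 40960 * 16 ^ (h ^ 2) * k * ((k : ℝ) + 3) ^ 4 := by
      have a1 : (1 : ℝ) ≤ 40960 * 16 ^ (h ^ 2) := by linarith
      have a2 : (1 : ℝ) ≤ 40960 * 16 ^ (h ^ 2) * k := one_le_mul_of_one_le_of_one_le a1 hk'
      exact one_le_mul_of_one_le_of_one_le a2 h2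
    refine (div_le_self (by positivity) h3).trans (div_le_self (by positivity) h1)
  have hbig : (10 : ℝ) ^ 13 * ((k : ℝ) + 6) ^ 10 ≤ 2 ^ k := by
    have h1 : (2 : ℝ) ^ (k / (4 * h)) ≤ 2 ^ k :=
      pow_le_pow_right₀ (by norm_num) (Nat.div_le_self _ _)
    have h2 : (10 : ℝ) ^ 13 * ((k : ℝ) + 6) ^ 10 ≤
        10 ^ 13 * 16 ^ (h ^ 2) * ((k : ℝ) + 6) ^ 10 := by
      have : (10 : ℝ) ^ 13 * 1 ≤ 10 ^ 13 * 16 ^ (h ^ 2) :=
        mul_le_mul_of_nonneg_left h16 (by positivity)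
      rw [mul_one] at this
      exact mul_le_mul_of_nonneg_right this (by positivity)
    linarith
  have hexp : (k : ℝ) + 5 ≤ 2 ^ k * (1 / (2 * ((k : ℝ) + 3) ^ 2)) ^ 2 / 512 := by
    have hpos : (0 : ℝ) < ((k : ℝ) + 3) ^ 4 := by positivity
    have e1 : (2 : ℝ) ^ k * (1 / (2 * ((k : ℝ) + 3) ^ 2)) ^ 2 / 512 =
        2 ^ k / (2048 * ((k : ℝ) + 3) ^ 4) := by
      field_simp
      norm_num
    rw [e1, le_div_iff₀ (by positivity)]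
    have h1 : ((k : ℝ) + 3) ^ 4 ≤ ((k : ℝ) + 6) ^ 4 :=
      pow_le_pow_left₀ (by linarith) (by linarith) 4
    have h2 : ((k : ℝ) + 5) * (2048 * ((k : ℝ) + 3) ^ 4) ≤
        ((k : ℝ) + 6) * (2048 * ((k : ℝ) + 6) ^ 4) := by
      apply mul_le_mul (by linarith) (by linarith) (by positivity) (by linarith)
    have h3 : ((k : ℝ) + 6) * (2048 * ((k : ℝ) + 6) ^ 4) = 2048 * ((k : ℝ) + 6) ^ 5 := by ring
    have h4 : ((k : ℝ) + 6) ^ 5 ≤ ((k : ℝ) + 6) ^ 10 :=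
      pow_le_pow_right₀ (by linarith) (by norm_num)
    have h5 : (0 : ℝ) ≤ ((k : ℝ) + 6) ^ 10 := by positivity
    have h6 : 2048 * ((k : ℝ) + 6) ^ 10 ≤ (10 : ℝ) ^ 13 * ((k : ℝ) + 6) ^ 10 :=
      mul_le_mul_of_nonneg_right (by norm_num) h5
    linarith
  have h1 : Real.exp (-(2 ^ k * (1 / (2 * ((k : ℝ) + 3) ^ 2)) ^ 2 / 512)) ≤
      Real.exp (-((k : ℝ) + 5)) := Real.exp_le_exp.2 (by linarith)
  calc (M : ℝ) * Real.exp (-(2 ^ k * (1 / (2 * ((k : ℝ) + 3) ^ 2)) ^ 2 / 512))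
      ≤ Real.exp k * Real.exp (-((k : ℝ) + 5)) :=
        mul_le_mul (hMk.trans (b33_two_pow_le_exp k)) h1 (Real.exp_pos _).le (Real.exp_pos _).le
    _ = Real.exp (-5) := by
        rw [← Real.exp_add]
        congr 1
        ring
    _ ≤ 1 / 100 := b33_exp5

end Pool.Agent.Work.MP_8f25a0_lc.Decoy
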