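import Pool.Agent.Work.MP_8f25a0_lc.Decoy.Basic

/-!
# Numerical inequality N
-/

namespace Pool.Agent.Work.MP_8f25a0_lc.Decoy

open Finset

theorem b34_exp5 : Real.exp (-5) ≤ 1 / 100 := by
  have h1 : (2.7 : ℝ) ≤ Real.exp 1 := by
    have := Real.exp_one_gt_d9
    linarith
  have h2 : (2.7 : ℝ) ^ 5 ≤ Real.exp 1 ^ 5 := pow_le_pow_left₀ (by norm_num) h1 5
  have h3 : Real.exp 1 ^ 5 = Real.exp 5 := by
    rw [← Real.exp_nat_mul]
    norm_num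
  rw [h3] at h2
  have h4 : (100 : ℝ) ≤ Real.exp 5 := le_trans (by norm_num) h2
  rw [Real.exp_neg, ← one_div]
  exact one_div_le_one_div_of_le (by norm_num) h4

theorem b34_two_pow_le_exp (k : ℕ) : (2 : ℝ) ^ k ≤ Real.exp k := by
  have h1 : (2 : ℝ) ≤ Real.exp 1 := by
    have := Real.exp_one_gt_d9
    linarith
  calc (2 : ℝ) ^ k ≤ Real.exp 1 ^ k := pow_le_pow_left₀ (by norm_num) h1 k
    _ = Real.exp k := by
      rw [← Real.exp_nat_mul, mul_one]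

theorem num_N {n k : ℕ} {ε : ℝ} (hn : 0 < n) (hk : 1 ≤ k) (hlog : Real.log n ≤ 2 ^ k)
    (hε : 32 * ((k : ℝ) + 6) ≤ 2 ^ n / 2 ^ k * ε ^ 2) :
    (n : ℝ) ^ k * 2 ^ (2 ^ k) * Real.exp (-(2 ^ n * (ε / 4) ^ 2 / 2)) ≤ 1 / 100 := by
  have hn' : (0 : ℝ) < n := by exact_mod_cast hn
  have h2k : (1 : ℝ) ≤ 2 ^ k := one_le_pow₀ (by norm_num)
  have h1 : (n : ℝ) ^ k ≤ Real.exp (k * 2 ^ k) := by
    calc (n : ℝ) ^ k = Real.exp (Real.log n) ^ k := by rw [Real.exp_log hn']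
      _ = Real.exp (k * Real.log n) := by rw [← Real.exp_nat_mul]
      _ ≤ Real.exp (k * 2 ^ k) := by
        refine Real.exp_le_exp.2 (mul_le_mul_of_nonneg_left hlog (Nat.cast_nonneg _))
  have h2 : (2 : ℝ) ^ (2 ^ k) ≤ Real.exp (2 ^ k) := by
    have := b34_two_pow_le_exp (2 ^ k)
    rwa [Nat.cast_pow, Nat.cast_ofNat] at this
  have h3 : 2 ^ k * ((k : ℝ) + 6) ≤ 2 ^ n * (ε / 4) ^ 2 / 2 := by
    have e1 : (2 : ℝ) ^ n * (ε / 4) ^ 2 / 2 = 2 ^ k * (2 ^ n / 2 ^ k * ε ^ 2) / 32 := by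
      field_simp
      ring
    rw [e1]
    have : 2 ^ k * (32 * ((k : ℝ) + 6)) ≤ 2 ^ k * (2 ^ n / 2 ^ k * ε ^ 2) :=
      mul_le_mul_of_nonneg_left hε (by positivity)
    linarith
  have h4 : Real.exp (-(2 ^ n * (ε / 4) ^ 2 / 2)) ≤ Real.exp (-(2 ^ k * ((k : ℝ) + 6))) :=
    Real.exp_le_exp.2 (by linarith)
  calc (n : ℝ) ^ k * 2 ^ (2 ^ k) * Real.exp (-(2 ^ n * (ε / 4) ^ 2 / 2))
      ≤ Real.exp (k * 2 ^ k) * Real.exp (2 ^ k) * Real.exp (-(2 ^ k * ((k : ℝ) + 6))) :=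
        mul_le_mul (mul_le_mul h1 h2 (by positivity) (Real.exp_pos _).le) h4
          (Real.exp_pos _).le (by positivity)
    _ = Real.exp (-5 * 2 ^ k) := by
        rw [← Real.exp_add, ← Real.exp_add]
        congr 1
        ring
    _ ≤ Real.exp (-5) := Real.exp_le_exp.2 (by linarith)
    _ ≤ 1 / 100 := b34_exp5

end Pool.Agent.Work.MP_8f25a0_lc.Decoy
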