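import Pool.Agent.Work.MP_8f25a0_lc.Decoy.Basic

/-!
# Decoys: B35, the combinatorial inequality for the parameters
-/

namespace Pool.Agent.Work.MP_8f25a0_lc.Decoy

open Finset

theorem num_comb {h k n M t₀ : ℕ} {ε : ℝ} (hh : 2 ≤ h) (hk : 1 ≤ k) (hε0 : 0 < ε)
    (hst : 10 ^ 13 * 16 ^ (h ^ 2) * ((k : ℝ) + 6) ^ 10 ≤ 2 ^ (k / (4 * h)))
    (hM : (M : ℝ) ≤ 2 ^ k / 2 ^ (k / h + 1) / (40960 * 16 ^ (h ^ 2) * k * ((k : ℝ) + 3) ^ 4))
    (hε : 2 ^ n / 2 ^ k * ε ^ 2 ≤ 64 * ((k : ℝ) + 6))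
    (ht : 3 / (32768 * ((k : ℝ) + 3) ^ 4 * ε ^ 2) ≤ t₀) :
    M * (2 ^ n * 2 ^ (k / (2 * h ^ 2))) ≤ t₀ * 2 ^ (2 * k) := by
  have hk' : (1 : ℝ) ≤ k := by exact_mod_cast hk
  have hk0 : (0 : ℝ) < k := by linarith
  have hH1 : (65536 : ℝ) ≤ 16 ^ (h ^ 2) := by
    have : (16 : ℝ) ^ 4 ≤ 16 ^ (h ^ 2) := pow_le_pow_right₀ (by norm_num) (by nlinarith)
    linarith
  set H : ℝ := 16 ^ (h ^ 2) with hHdef
  have hH0 : 0 < H := by linarith
  set P : ℝ := ((k : ℝ) + 3) ^ 4 with hP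
  have hP0 : 0 < P := by positivity
  set N : ℝ := 2 ^ n with hN
  set K : ℝ := 2 ^ k with hK
  set R : ℝ := 2 ^ (k / h + 1) with hR
  set S : ℝ := 2 ^ (k / (2 * h ^ 2)) with hS
  have hN0 : 0 < N := by positivity
  have hK0 : 0 < K := by positivity
  have hR0 : 0 < R := by positivity
  have hS0 : 0 < S := by positivity
  have hSR : S ≤ R := by
    refine pow_le_pow_right₀ (by norm_num) ?_
    have h1 : k / (2 * h ^ 2) ≤ k / h := Nat.div_le_div_left (by nlinarith) (by omega)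
    omega
  -- the bound for `t₀`
  have ht2 : 3 * N / (2097152 * P * ((k : ℝ) + 6) * K) ≤ t₀ := by
    refine le_trans ?_ ht
    rw [div_le_div_iff₀ (by positivity) (by positivity)]
    have e1 : N * ε ^ 2 ≤ 64 * ((k : ℝ) + 6) * K := by
      have : N / K * ε ^ 2 = N * ε ^ 2 / K := by ring
      rw [this, div_le_iff₀ hK0] at hε
      exact hε
    calc 3 * N * (32768 * P * ε ^ 2) = 98304 * P * (N * ε ^ 2) := by ring
      _ ≤ 98304 * P * (64 * ((k : ℝ) + 6) * K) := by gcongr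
      _ = 3 * (2097152 * P * ((k : ℝ) + 6) * K) := by ring
  have hM2 : (M : ℝ) * (R * (40960 * H * k * P)) ≤ K := by
    rw [div_div, le_div_iff₀ (by positivity)] at hM
    exact hM
  have hlast : 2097152 * ((k : ℝ) + 6) ≤ 122880 * (H * k) := by
    have e1 : (65536 : ℝ) * k ≤ H * k := by gcongr
    nlinarith
  have key : (M : ℝ) * (N * S) ≤ t₀ * (K * K) := by
    have e1 : 3 * N ≤ t₀ * (2097152 * P * ((k : ℝ) + 6) * K) := by
      rwa [div_le_iff₀ (by positivity)] at ht2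
    have e2 : (M : ℝ) * R * (2097152 * ((k : ℝ) + 6) * P) ≤ 3 * K := by
      calc (M : ℝ) * R * (2097152 * ((k : ℝ) + 6) * P)
          ≤ (M : ℝ) * R * (122880 * (H * k) * P) := by gcongr
        _ = 3 * (M * (R * (40960 * H * k * P))) := by ring
        _ ≤ 3 * K := by gcongr
    have hQ0 : (0 : ℝ) < 2097152 * ((k : ℝ) + 6) * P := by positivity
    have e3 : (M : ℝ) * (N * S) * (3 * (2097152 * ((k : ℝ) + 6) * P)) ≤
        t₀ * (K * K) * (3 * (2097152 * ((k : ℝ) + 6) * P)) := by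
      calc (M : ℝ) * (N * S) * (3 * (2097152 * ((k : ℝ) + 6) * P))
          ≤ (M : ℝ) * (N * R) * (3 * (2097152 * ((k : ℝ) + 6) * P)) := by gcongr
        _ = (M : ℝ) * R * (2097152 * ((k : ℝ) + 6) * P) * (3 * N) := by ring
        _ ≤ 3 * K * (t₀ * (2097152 * P * ((k : ℝ) + 6) * K)) := by gcongr
        _ = t₀ * (K * K) * (3 * (2097152 * ((k : ℝ) + 6) * P)) := by ring
    exact le_of_mul_le_mul_right e3 (by positivity)
  have hKK : (2 : ℝ) ^ (2 * k) = K * K := by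
    rw [hK, ← pow_add]
    congr 1
    ring
  have : ((M * (2 ^ n * 2 ^ (k / (2 * h ^ 2))) : ℕ) : ℝ) ≤ ((t₀ * 2 ^ (2 * k) : ℕ) : ℝ) := by
    push_cast
    rw [hKK]
    exact key
  exact_mod_cast this

end Pool.Agent.Work.MP_8f25a0_lc.Decoy
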