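import Pool.Agent.Work.MP_8f25a0_lc.Decoy.Defs

/-!
# Decoys: basic facts on indicators and expectations
-/

namespace Pool.Agent.Work.MP_8f25a0_lc.Decoy

open Finset

theorem ind_of {P : Prop} (h : P) : ind P = 1 := by simp [ind, h]

theorem ind_of_not {P : Prop} (h : ¬ P) : ind P = 0 := by simp [ind, h]

theorem ind_nonneg (P : Prop) : 0 ≤ ind P := by
  by_cases h : P
  · rw [ind_of h]; exact zero_le_one
  · rw [ind_of_not h]

theorem ind_le_one (P : Prop) : ind P ≤ 1 := by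
  by_cases h : P
  · rw [ind_of h]
  · rw [ind_of_not h]; exact zero_le_one

theorem ind_mono {P Q : Prop} (h : P → Q) : ind P ≤ ind Q := by
  by_cases hP : P
  · rw [ind_of hP, ind_of (h hP)]
  · rw [ind_of_not hP]; exact ind_nonneg Q

theorem ind_or (P Q : Prop) : ind (P ∨ Q) ≤ ind P + ind Q := by
  by_cases hP : P
  · rw [ind_of (Or.inl hP), ind_of hP]
    have := ind_nonneg Q
    linarith
  · by_cases hQ : Q
    · rw [ind_of (Or.inr hQ), ind_of hQ]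
      have := ind_nonneg P
      linarith
    · rw [ind_of_not (by tauto : ¬ (P ∨ Q))]
      have := ind_nonneg P
      have := ind_nonneg Q
      linarith

theorem ind_exists {ι : Type*} [Fintype ι] (P : ι → Prop) : ind (∃ i, P i) ≤ ∑ i, ind (P i) := by
  by_cases h : ∃ i, P i
  · obtain ⟨i, hi⟩ := h
    rw [ind_of ⟨i, hi⟩, ← ind_of hi]
    exact single_le_sum (f := fun i => ind (P i)) (fun j _ => ind_nonneg _) (mem_univ i)
  · rw [ind_of_not h]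
    exact sum_nonneg fun j _ => ind_nonneg _

section EL

variable {I V : Type*} [Fintype I] [DecidableEq I] [Fintype V]

theorem LW_nonneg {u : I → V → ℝ} (h0 : ∀ i v, 0 ≤ u i v) (Ξ : I → V) : 0 ≤ LW u Ξ :=
  prod_nonneg fun i _ => h0 i _

theorem sum_LW {u : I → V → ℝ} (h1 : ∀ i, ∑ v, u i v = 1) : ∑ Ξ : I → V, LW u Ξ = 1 := by
  unfold LW
  rw [← Fintype.piFinset_univ, ← Finset.prod_univ_sum]
  exact prod_eq_one fun i _ => h1 i

theorem EL_const {u : I → V → ℝ} (h1 : ∀ i, ∑ v, u i v = 1) (c : ℝ) :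
    EL u (fun _ => c) = c := by
  unfold EL
  rw [← sum_mul, sum_LW h1, one_mul]

theorem EL_mono {u : I → V → ℝ} (h0 : ∀ i v, 0 ≤ u i v) {Φ Ψ : (I → V) → ℝ}
    (h : ∀ Ξ, Φ Ξ ≤ Ψ Ξ) : EL u Φ ≤ EL u Ψ :=
  sum_le_sum fun Ξ _ => mul_le_mul_of_nonneg_left (h Ξ) (LW_nonneg h0 Ξ)

theorem EL_nonneg {u : I → V → ℝ} (h0 : ∀ i v, 0 ≤ u i v) {Φ : (I → V) → ℝ}
    (h : ∀ Ξ, 0 ≤ Φ Ξ) : 0 ≤ EL u Φ :=
  sum_nonneg fun Ξ _ => mul_nonneg (LW_nonneg h0 Ξ) (h Ξ)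

theorem EL_add (u : I → V → ℝ) (Φ Ψ : (I → V) → ℝ) :
    EL u (fun Ξ => Φ Ξ + Ψ Ξ) = EL u Φ + EL u Ψ := by
  unfold EL
  rw [← sum_add_distrib]
  exact sum_congr rfl fun Ξ _ => mul_add _ _ _

theorem EL_sub (u : I → V → ℝ) (Φ Ψ : (I → V) → ℝ) :
    EL u (fun Ξ => Φ Ξ - Ψ Ξ) = EL u Φ - EL u Ψ := by
  unfold EL
  rw [← sum_sub_distrib]
  exact sum_congr rfl fun Ξ _ => mul_sub _ _ _

theorem EL_mul_left (u : I → V → ℝ) (c : ℝ) (Φ : (I → V) → ℝ) :
    EL u (fun Ξ => c * Φ Ξ) = c * EL u Φ := by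
  unfold EL
  rw [mul_sum]
  exact sum_congr rfl fun Ξ _ => by ring

theorem EL_sum {ι : Type*} (u : I → V → ℝ) (s : Finset ι) (Φ : ι → (I → V) → ℝ) :
    EL u (fun Ξ => ∑ a ∈ s, Φ a Ξ) = ∑ a ∈ s, EL u (Φ a) := by
  unfold EL
  rw [sum_comm]
  exact sum_congr rfl fun Ξ _ => mul_sum _ _ _

end EL

section Laws

variable {k M : ℕ} {V : Type*} [Fintype V] {D : ℕ} {β : ℝ}

theorem null_nonneg (P : Pair V D β) (i : Fin M × Cube k) (v : V) : 0 ≤ null P i v := P.n0 v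

theorem null_sum (P : Pair V D β) (i : Fin M × Cube k) : ∑ v, null P i v = 1 := P.s0

theorem null_mean (P : Pair V D β) (i : Fin M × Cube k) : ∑ v, null P i v * P.X v = 0 := P.m0

theorem planted_nonneg (P : Pair V D β) (a : Fin M) (i : Fin M × Cube k) (v : V) :
    0 ≤ planted P a i v := by
  unfold planted
  split_ifs
  · exact P.n1 v
  · exact P.n0 v

theorem planted_sum (P : Pair V D β) (a : Fin M) (i : Fin M × Cube k) :
    ∑ v, planted P a i v = 1 := by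
  unfold planted
  split_ifs
  · exact P.s1
  · exact P.s0

theorem planted_mean (P : Pair V D β) (a : Fin M) (i : Fin M × Cube k) :
    ∑ v, planted P a i v * P.X v = 0 := by
  unfold planted
  split_ifs
  · exact P.m1
  · exact P.m0

theorem gap' (P : Pair V D β) : β ≤ P.E1 - P.E0 := P.gap

end Laws

theorem abs_FF_le {n k M : ℕ} {V : Type*} (e : Fin M → Fin k → Fin n) {X : V → ℝ}
    (hX : ∀ v, |X v| ≤ 1) (Ξ : Fin M × Cube k → V) (x : Cube n) : |FF e X Ξ x| ≤ M := by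
  unfold FF
  refine (abs_sum_le_sum_abs _ _).trans ((sum_le_sum fun a _ => hX _).trans ?_)
  simp

theorem prb_mem {n k M : ℕ} {V : Type*} (e : Fin M → Fin k → Fin n) {X : V → ℝ}
    (hX : ∀ v, |X v| ≤ 1) {δ : ℝ} (h0 : 0 ≤ δ) (hδ : M * δ ≤ 1 / 2) (Ξ : Fin M × Cube k → V)
    (x : Cube n) : 1 / 4 ≤ prb e X δ Ξ x ∧ prb e X δ Ξ x ≤ 3 / 4 := by
  have h1 := abs_le.mp (abs_FF_le e hX Ξ x)
  have h2 : δ * FF e X Ξ x ≤ δ * M := mul_le_mul_of_nonneg_left h1.2 h0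
  have h3 : δ * -M ≤ δ * FF e X Ξ x := mul_le_mul_of_nonneg_left h1.1 h0
  unfold prb
  constructor <;> linarith

theorem ecorr_prb {n k M : ℕ} {V : Type*} (e : Fin M → Fin k → Fin n) (X : V → ℝ) (δ : ℝ)
    (Ξ : Fin M × Cube k → V) (G : Cube n → Bool) :
    ecorr (prb e X δ Ξ) G = δ * avg (fun x => FF e X Ξ x * sg (G x)) := by
  unfold ecorr avg prb
  have h2 : (Fintype.card (Cube n) : ℝ) = 2 ^ n := by simp
  rw [h2, ← mul_div_assoc, mul_sum]
  congr 1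
  exact sum_congr rfl fun x _ => by ring

end Pool.Agent.Work.MP_8f25a0_lc.Decoy
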