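import Pool.Agent.Work.MP_8f25a0_lc.Conc
import Pool.Agent.Work.MP_8f25a0_lc.SpikeTree

/-!
# Decoys: definitions for the lower bound which is exponential in `k`
-/

namespace Pool.Agent.Work.MP_8f25a0_lc.Decoy

open Finset

/-- the indicator of a proposition -/
noncomputable def ind (P : Prop) : ℝ := by
  classical
  exact if P then 1 else 0

/-- the weight of a configuration, for independent choices with weights `u i` -/
noncomputable def LW {I V : Type*} [Fintype I] (u : I → V → ℝ) (Ξ : I → V) : ℝ :=
  ∏ i, u i (Ξ i)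

/-- expectation over independent choices -/
noncomputable def EL {I V : Type*} [Fintype I] [Fintype V] [DecidableEq I] (u : I → V → ℝ)
    (Φ : (I → V) → ℝ) : ℝ := ∑ Ξ, LW u Ξ * Φ Ξ

/-- the number of different points of `C` which are asked along a path, at most -/
def hits {n : ℕ} : Tree n → Finset (Cube n) → ℕ
  | .out _, _ => 0
  | .ask x t, C => if x ∈ C then 1 + max (hits (t false) (C.erase x)) (hits (t true) (C.erase x))
      else max (hits (t false) C) (hits (t true) C)

/-- stop with the output `r` before a cell of `e` contains more than `t₀` questions -/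
def trunc {n k : ℕ} (e : Fin k → Fin n) (t₀ : ℕ) (r : ℝ) : Tree n → Finset (Cube n) → Tree n
  | .out r', _ => .out r'
  | .ask x t, S => if ((insert x S).filter fun y : Cube n => y ∘ e = x ∘ e).card ≤ t₀ then
      .ask x (fun b => trunc e t₀ r (t b) (insert x S)) else .out r

/-- the set of the questions asked when the function is `f` -/
def asked {n : ℕ} (f : Cube n → Bool) : Tree n → Finset (Cube n)
  | .out _ => ∅
  | .ask x t => insert x (asked f (t (f x)))

/-- the sum of the decoys; the decoy `a` sees the coordinates listed by `e a` -/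
noncomputable def FF {n k M : ℕ} {V : Type*} (e : Fin M → Fin k → Fin n) (X : V → ℝ)
    (Ξ : Fin M × Cube k → V) (x : Cube n) : ℝ := ∑ a, X (Ξ (a, x ∘ e a))

/-- the biases: the mean of the sign of the value at `x` is `δ * FF e X Ξ x` -/
noncomputable def prb {n k M : ℕ} {V : Type*} (e : Fin M → Fin k → Fin n) (X : V → ℝ) (δ : ℝ)
    (Ξ : Fin M × Cube k → V) (x : Cube n) : ℝ := (1 - δ * FF e X Ξ x) / 2

/-- the conditional mean, given the coordinates in `J`, of the sum of all decoys but `a` -/
noncomputable def RR {n k M : ℕ} {V : Type*} (e : Fin M → Fin k → Fin n) (X : V → ℝ)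
    (Ξ : Fin M × Cube k → V) (J : Finset (Fin n)) (a : Fin M) (z : Cube n) : ℝ :=
  ∑ b ∈ univ.erase a, avg fun y : Cube n => X (Ξ (b, mix J z y ∘ e b))

/-- the coordinates listed by `e` -/
def rg {n k : ℕ} (e : Fin k → Fin n) : Finset (Fin n) := univ.image e

/-- two probability distributions `w0`, `w1` on `[-1, 1]` (the law of `X`) with mean zero and
with the same moments of order less than `D`, such that the means of `|X|` differ by `β` -/
structure Pair (V : Type*) [Fintype V] (D : ℕ) (β : ℝ) where
  /-- the value -/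
  X : V → ℝ
  /-- the first law -/
  w0 : V → ℝ
  /-- the second law -/
  w1 : V → ℝ
  hX : ∀ v, |X v| ≤ 1
  n0 : ∀ v, 0 ≤ w0 v
  n1 : ∀ v, 0 ≤ w1 v
  s0 : ∑ v, w0 v = 1
  s1 : ∑ v, w1 v = 1
  m0 : ∑ v, w0 v * X v = 0
  m1 : ∑ v, w1 v * X v = 0
  mom : ∀ j < D, ∑ v, (w1 v - w0 v) * X v ^ j = 0
  gap : β ≤ ∑ v, w1 v * |X v| - ∑ v, w0 v * |X v|

/-- the mean of `|X|` under the first law -/
noncomputable def Pair.E0 {V : Type*} [Fintype V] {D : ℕ} {β : ℝ} (P : Pair V D β) : ℝ :=
  ∑ v, P.w0 v * |P.X v|

/-- the mean of `|X|` under the second law -/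
noncomputable def Pair.E1 {V : Type*} [Fintype V] {D : ℕ} {β : ℝ} (P : Pair V D β) : ℝ :=
  ∑ v, P.w1 v * |P.X v|

/-- the weights of the planted model: the decoy `a` follows the second law -/
noncomputable def planted {k M : ℕ} {V : Type*} [Fintype V] {D : ℕ} {β : ℝ} (P : Pair V D β)
    (a : Fin M) (i : Fin M × Cube k) : V → ℝ := if i.1 = a then P.w1 else P.w0

/-- the weights of the null model -/
noncomputable def null {k M : ℕ} {V : Type*} [Fintype V] {D : ℕ} {β : ℝ} (P : Pair V D β)
    (_ : Fin M × Cube k) : V → ℝ := P.w0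

end Pool.Agent.Work.MP_8f25a0_lc.Decoy
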