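import Pool.Agent.Work.MP_8f25a0_lc.Decoy.Basic
import Pool.Agent.Work.MP_8f25a0_lc.Decoy.B12
import Pool.Agent.Work.MP_8f25a0_lc.Decoy.B20
import Pool.Agent.Work.MP_8f25a0_lc.Decoy.B21
import Pool.Agent.Work.MP_8f25a0_lc.Decoy.B22
import Pool.Agent.Work.MP_8f25a0_lc.Decoy.B23
import Pool.Agent.Work.MP_8f25a0_lc.Decoy.B24
import Pool.Agent.Work.MP_8f25a0_lc.Decoy.B25

/-!
# Decoys: the distance to juntas in the null model and in the planted models
-/

namespace Pool.Agent.Work.MP_8f25a0_lc.Decoy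

open Finset

theorem card_rg {n k : ℕ} {e : Fin k → Fin n} (he : Function.Injective e) : (rg e).card = k := by
  unfold rg
  rw [card_image_of_injective _ he, card_univ, Fintype.card_fin]

section

variable {N k M s r D : ℕ} {V : Type} [Fintype V] {β : ℝ}

theorem rr_bad {u : Fin M × Cube k → V → ℝ} (h0 : ∀ i v, 0 ≤ u i v) (h1 : ∀ i, ∑ v, u i v = 1)
    {X : V → ℝ} (hX : ∀ v, |X v| ≤ 1) (hm : ∀ i, ∑ v, u i v * X v = 0) (hβ : 0 < β)
    {e : Fin M → Fin k → Fin N} (he : ∀ a, Function.Injective (e a))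
    (hs : ∀ a b, a ≠ b → (rg (e a) ∩ rg (e b)).card ≤ s) (hM : 1 ≤ M) (hr : k * s < r ^ 2)
    (hv : 512 * (M * 2 ^ r / 2 ^ k + k ^ 2 * 2 ^ ((k + s) / 2) / 2 ^ k) *
      (N * Real.log 4 + Real.log (200 * M)) ≤ β ^ 2) :
    EL u (fun Ξ => ind (∃ (J : Finset (Fin N)) (a : Fin M) (z : Cube N), J.card ≤ k ∧
      (∀ b, (J ∩ rg (e b)).card ≤ (J ∩ rg (e a)).card) ∧ β / 16 < |RR e X Ξ J a z|)) ≤
      1 / 100 := by
  have hM0 : (0 : ℝ) < M := by exact_mod_cast hM
  refine RR_union he h0 h1 hX hm hβ.le (v := M * 2 ^ r / 2 ^ k + k ^ 2 * 2 ^ ((k + s) / 2) / 2 ^ k)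
    (by positivity) hM (fun J a hJ ha => ?_) hv
  exact john (fun a => rg (e a)) (fun a => card_rg (he a)) hs hr J hJ a ha

theorem good_null (P : Pair V D β) (hβ : 0 < β) {e : Fin M → Fin k → Fin N}
    (he : ∀ a, Function.Injective (e a)) (hs : ∀ a b, a ≠ b → (rg (e a) ∩ rg (e b)).card ≤ s)
    (hM : 1 ≤ M) (hr : k * s < r ^ 2)
    (hv : 512 * (M * 2 ^ r / 2 ^ k + k ^ 2 * 2 ^ ((k + s) / 2) / 2 ^ k) *
      (N * Real.log 4 + Real.log (200 * M)) ≤ β ^ 2)
    (hc : M * Real.exp (-(2 ^ k * β ^ 2 / 512)) ≤ 1 / 100) :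
    EL (null P) (fun Ξ : Fin M × Cube k → V => ind (¬ ∀ G : Cube N → Bool, IsJunta k G →
      avg (fun y => FF e P.X Ξ y * sg (G y)) ≤ P.E0 + β / 8)) ≤ 1 / 50 := by
  have h1 := rr_bad (null_nonneg P) (null_sum P) P.hX (null_mean P) hβ he hs hM hr hv
  have h2 : EL (null P) (fun Ξ : Fin M × Cube k → V =>
      ind (∃ a : Fin M, P.E0 + β / 16 < avg fun w : Cube k => |P.X (Ξ (a, w))|)) ≤ 1 / 100 := by
    calc _ ≤ EL (null P) (fun Ξ : Fin M × Cube k → V => ∑ a : Fin M,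
          ind (P.E0 + β / 16 < avg fun w : Cube k => |P.X (Ξ (a, w))|)) :=
          EL_mono (null_nonneg P) fun Ξ => ind_exists _
      _ = ∑ a : Fin M, EL (null P) (fun Ξ : Fin M × Cube k → V =>
          ind (P.E0 + β / 16 < avg fun w : Cube k => |P.X (Ξ (a, w))|)) := by rw [EL_sum]
      _ ≤ ∑ _a : Fin M, Real.exp (-(2 ^ k * β ^ 2 / 512)) := by
          apply sum_le_sum
          intro a _
          exact (abs_tail (null_nonneg P) (null_sum P) P.hX hβ.le a (E := P.E0) (fun w => rfl)).1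
      _ = M * Real.exp (-(2 ^ k * β ^ 2 / 512)) := by simp
      _ ≤ _ := hc
  calc _ ≤ EL (null P) (fun Ξ : Fin M × Cube k → V =>
        ind (∃ a : Fin M, P.E0 + β / 16 < avg fun w : Cube k => |P.X (Ξ (a, w))|) +
        ind (∃ (J : Finset (Fin N)) (a : Fin M) (z : Cube N), J.card ≤ k ∧
        (∀ b, (J ∩ rg (e b)).card ≤ (J ∩ rg (e a)).card) ∧ β / 16 < |RR e P.X Ξ J a z|)) := by
        apply EL_mono (null_nonneg P)
        intro Ξ
        refine le_trans (ind_mono ?_) (ind_or _ _)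
        intro h
        by_contra hcon
        push Not at hcon
        apply h
        intro G hG
        have h3 := corr_le he (X := P.X) (Ξ := Ξ) hM (U := P.E0 + β / 16) (B := β / 16)
          (fun a => hcon.1 a) (fun J a z hJ ha => hcon.2 J a z hJ ha) hG
        linarith
    _ ≤ 1 / 50 := by rw [EL_add]; linarith

theorem good_planted (P : Pair V D β) (hβ : 0 < β) {e : Fin M → Fin k → Fin N}
    (he : ∀ a, Function.Injective (e a)) (hs : ∀ a b, a ≠ b → (rg (e a) ∩ rg (e b)).card ≤ s)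
    (hM : 1 ≤ M) (hr : k * s < r ^ 2)
    (hv : 512 * (M * 2 ^ r / 2 ^ k + k ^ 2 * 2 ^ ((k + s) / 2) / 2 ^ k) *
      (N * Real.log 4 + Real.log (200 * M)) ≤ β ^ 2)
    (hc : M * Real.exp (-(2 ^ k * β ^ 2 / 512)) ≤ 1 / 100) (a : Fin M) :
    EL (planted P a) (fun Ξ : Fin M × Cube k → V => ind (¬ ∃ G : Cube N → Bool, IsJunta k G ∧
      P.E1 - β / 8 ≤ avg (fun y => FF e P.X Ξ y * sg (G y)))) ≤ 1 / 50 := by
  have h1 := rr_bad (planted_nonneg P a) (planted_sum P a) P.hX (planted_mean P a) hβ he hs hM hr hv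
  have hM1 : (1 : ℝ) ≤ M := by exact_mod_cast hM
  have h2 : EL (planted P a) (fun Ξ : Fin M × Cube k → V =>
      ind ((avg fun w : Cube k => |P.X (Ξ (a, w))|) < P.E1 - β / 16)) ≤ 1 / 100 := by
    refine (abs_tail (planted_nonneg P a) (planted_sum P a) P.hX hβ.le a (E := P.E1)
      (fun w => ?_)).2.trans ?_
    · unfold planted
      rw [if_pos rfl]
      rfl
    · refine le_trans ?_ hc
      exact le_mul_of_one_le_left (Real.exp_pos _).le hM1
  calc _ ≤ EL (planted P a) (fun Ξ : Fin M × Cube k → V =>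
        ind ((avg fun w : Cube k => |P.X (Ξ (a, w))|) < P.E1 - β / 16) +
        ind (∃ (J : Finset (Fin N)) (a : Fin M) (z : Cube N), J.card ≤ k ∧
        (∀ b, (J ∩ rg (e b)).card ≤ (J ∩ rg (e a)).card) ∧ β / 16 < |RR e P.X Ξ J a z|)) := by
        apply EL_mono (planted_nonneg P a)
        intro Ξ
        refine le_trans (ind_mono ?_) (ind_or _ _)
        intro h
        by_contra hcon
        push Not at hcon
        apply h
        obtain ⟨G, hG, h3⟩ := le_corr he (X := P.X) (Ξ := Ξ) (L := P.E1 - β / 16) (B := β / 16) a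
          hcon.1 (fun J a z hJ ha => hcon.2 J a z hJ ha)
        exact ⟨G, hG, by linarith⟩
    _ ≤ 1 / 50 := by rw [EL_add]; linarith

end

section

variable {N d k M D : ℕ} {V : Type} [Fintype V] {β δ t : ℝ}

theorem Ex_ind_le {n : ℕ} {p : Cube n → ℝ} (h0 : ∀ x, 0 ≤ p x) (h1 : ∀ x, p x ≤ 1)
    (Q : (Cube n → Bool) → Prop) : Ex p (fun f => ind (Q f)) ≤ 1 := by
  have h := Ex_mono h0 h1 (g := fun f => ind (Q f)) (g' := fun _ => 1)
    (fun a _ => ind_le_one _)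
  rwa [Ex_const] at h

/-- the distance in the null model -/
theorem dist_null (P : Pair V D β) {e : Fin M → Fin k → Fin N} (hn : 0 < N + d) (hδ0 : 0 ≤ δ)
    (hδ : M * δ ≤ 1 / 2) (ht : 0 ≤ t)
    (hg : EL (null P) (fun Ξ : Fin M × Cube k → V => ind (¬ ∀ G : Cube N → Bool, IsJunta k G →
      avg (fun y => FF e P.X Ξ y * sg (G y)) ≤ P.E0 + β / 8)) ≤ 1 / 50)
    (hN : ((N + d : ℕ) : ℝ) ^ k * 2 ^ (2 ^ k) * Real.exp (-(2 ^ (N + d) * t ^ 2 / 2)) ≤ 1 / 100) :
    EL (null P) (fun Ξ : Fin M × Cube k → V =>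
      Ex (prb (fun a => Fin.castAdd d ∘ e a) P.X δ Ξ)
        (fun f => ind (distK k f < (1 - δ * (P.E0 + β / 8)) / 2 - t))) ≤ 3 / 100 := by
  have hp0 : ∀ (Ξ : Fin M × Cube k → V) x, 0 ≤ prb (fun a => Fin.castAdd d ∘ e a) P.X δ Ξ x :=
    fun Ξ x => by
    have := (prb_mem (fun a => Fin.castAdd d ∘ e a) P.hX hδ0 hδ Ξ x).1; linarith
  have hp1 : ∀ (Ξ : Fin M × Cube k → V) x, prb (fun a => Fin.castAdd d ∘ e a) P.X δ Ξ x ≤ 1 :=
    fun Ξ x => by
    have := (prb_mem (fun a => Fin.castAdd d ∘ e a) P.hX hδ0 hδ Ξ x).2; linarith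
  calc _ ≤ EL (null P) (fun Ξ : Fin M × Cube k → V => 1 / 100 +
        ind (¬ ∀ G : Cube N → Bool, IsJunta k G →
        avg (fun y => FF e P.X Ξ y * sg (G y)) ≤ P.E0 + β / 8)) := by
        apply EL_mono (null_nonneg P)
        intro Ξ
        by_cases h : ∀ G : Cube N → Bool, IsJunta k G →
            avg (fun y => FF e P.X Ξ y * sg (G y)) ≤ P.E0 + β / 8
        · rw [ind_of_not (not_not.mpr h), add_zero]
          refine (noise_lower hn (hp0 Ξ) (hp1 Ξ) ht (fun G hG => ?_)).trans hN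
          rw [ecorr_prb]
          exact mul_le_mul_of_nonneg_left (lift_le h hG) hδ0
        · rw [ind_of h]
          have := Ex_ind_le (hp0 Ξ) (hp1 Ξ)
            (fun f => distK k f < (1 - δ * (P.E0 + β / 8)) / 2 - t)
          linarith
    _ ≤ 3 / 100 := by
        rw [EL_add, EL_const (null_sum P)]
        linarith

/-- the distance in a planted model -/
theorem dist_planted (P : Pair V D β) {e : Fin M → Fin k → Fin N} (hδ0 : 0 ≤ δ)
    (hδ : M * δ ≤ 1 / 2) (ht : 0 ≤ t) (a : Fin M)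
    (hg : EL (planted P a) (fun Ξ : Fin M × Cube k → V => ind (¬ ∃ G : Cube N → Bool,
      IsJunta k G ∧ P.E1 - β / 8 ≤ avg (fun y => FF e P.X Ξ y * sg (G y)))) ≤ 1 / 50)
    (hN : Real.exp (-(2 ^ (N + d) * t ^ 2 / 2)) ≤ 1 / 100) :
    EL (planted P a) (fun Ξ : Fin M × Cube k → V =>
      Ex (prb (fun a => Fin.castAdd d ∘ e a) P.X δ Ξ)
        (fun f => ind ((1 - δ * (P.E1 - β / 8)) / 2 + t < distK k f))) ≤ 3 / 100 := by
  have hp0 : ∀ (Ξ : Fin M × Cube k → V) x, 0 ≤ prb (fun a => Fin.castAdd d ∘ e a) P.X δ Ξ x :=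
    fun Ξ x => by
    have := (prb_mem (fun a => Fin.castAdd d ∘ e a) P.hX hδ0 hδ Ξ x).1; linarith
  have hp1 : ∀ (Ξ : Fin M × Cube k → V) x, prb (fun a => Fin.castAdd d ∘ e a) P.X δ Ξ x ≤ 1 :=
    fun Ξ x => by
    have := (prb_mem (fun a => Fin.castAdd d ∘ e a) P.hX hδ0 hδ Ξ x).2; linarith
  calc _ ≤ EL (planted P a) (fun Ξ : Fin M × Cube k → V => 1 / 100 +
        ind (¬ ∃ G : Cube N → Bool, IsJunta k G ∧
        P.E1 - β / 8 ≤ avg (fun y => FF e P.X Ξ y * sg (G y)))) := by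
        apply EL_mono (planted_nonneg P a)
        intro Ξ
        by_cases h : ∃ G : Cube N → Bool, IsJunta k G ∧
            P.E1 - β / 8 ≤ avg (fun y => FF e P.X Ξ y * sg (G y))
        · rw [ind_of_not (not_not.mpr h), add_zero]
          obtain ⟨G, hG, h2⟩ := le_lift d h
          refine (noise_upper (hp0 Ξ) (hp1 Ξ) ht ⟨G, hG, ?_⟩).trans hN
          rw [ecorr_prb]
          exact mul_le_mul_of_nonneg_left h2 hδ0
        · rw [ind_of h]
          have := Ex_ind_le (hp0 Ξ) (hp1 Ξ)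
            (fun f => (1 - δ * (P.E1 - β / 8)) / 2 + t < distK k f)
          linarith
    _ ≤ 3 / 100 := by
        rw [EL_add, EL_const (planted_sum P a)]
        linarith

end

end Pool.Agent.Work.MP_8f25a0_lc.Decoy
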