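import Pool.Agent.Work.MP_8f25a0_lc.Decoy.Indist
import Pool.Agent.Work.MP_8f25a0_lc.Decoy.Good

/-!
# Decoys: the engine
-/

namespace Pool.Agent.Work.MP_8f25a0_lc.Decoy

open Finset

/-- the law of the function -/
noncomputable def law {n k M : ℕ} {V : Type} [Fintype V] (e : Fin M → Fin k → Fin n) (X : V → ℝ)
    (δ : ℝ) (u : Fin M × Cube k → V → ℝ) (f : Cube n → Bool) : ℝ :=
  EL u (fun Ξ => W (prb e X δ Ξ) f)

theorem sum_law_mul {n k M : ℕ} {V : Type} [Fintype V] (e : Fin M → Fin k → Fin n) (X : V → ℝ)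
    (δ : ℝ) (u : Fin M × Cube k → V → ℝ) (g : (Cube n → Bool) → ℝ) :
    ∑ f, law e X δ u f * g f = EL u (fun Ξ => Ex (prb e X δ Ξ) g) := by
  unfold law EL Ex
  simp_rw [sum_mul, mul_sum]
  rw [sum_comm]
  exact sum_congr rfl fun Ξ _ => sum_congr rfl fun f _ => by ring

/-- a correct algorithm accepts when the distance is small -/
theorem accept_small {n k q : ℕ} {ε θ c : ℝ} {A : PMF (Tree n)} (hA : Approximates n k ε q A)
    (h : c + ε ≤ θ) (f : Cube n → Bool) :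
    2 / 3 - ind (c < distK k f) ≤ accO A (Set.Iic θ) f := by
  by_cases hc : c < distK k f
  · rw [ind_of hc]
    have := accO_nonneg A (Set.Iic θ) f
    linarith
  · rw [ind_of_not hc, sub_zero]
    push Not at hc
    refine (two_thirds (hA.2 f)).trans (prob_mono A ?_)
    intro T hT
    simp only [Set.mem_ofPred_eq] at hT ⊢
    rw [abs_le] at hT
    rw [Set.mem_Iic]
    linarith

/-- a correct algorithm rejects when the distance is large -/
theorem reject_large {n k q : ℕ} {ε θ c : ℝ} {A : PMF (Tree n)} (hA : Approximates n k ε q A)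
    (h : θ + ε < c) (f : Cube n → Bool) :
    accO A (Set.Iic θ) f ≤ 1 / 3 + ind (distK k f < c) := by
  by_cases hc : distK k f < c
  · rw [ind_of hc]
    have := accO_le_one A (Set.Iic θ) f
    linarith
  · rw [ind_of_not hc, add_zero]
    push Not at hc
    have h3 := two_thirds (hA.2 f)
    have h4 : Disjoint {T : Tree n | T.eval f ∈ Set.Iic θ}
        {T : Tree n | |T.eval f - distK k f| ≤ ε} := by
      rw [Set.disjoint_left]
      intro T h5 h6
      simp only [Set.mem_ofPred_eq] at h5 h6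
      rw [Set.mem_Iic] at h5
      rw [abs_le] at h6
      linarith
    have h5 := prob_disjoint A h4
    unfold accO
    linarith

/-- **The engine.** -/
theorem engine {N d k M s r t₀ q D : ℕ} {V : Type} [Fintype V] {β ε : ℝ} (P : Pair V D β)
    (hβ : 0 < β) {e : Fin M → Fin k → Fin N} (he : ∀ a, Function.Injective (e a))
    (hs : ∀ a b, a ≠ b → (rg (e a) ∩ rg (e b)).card ≤ s) (hM : 2 ≤ M) (hn : 0 < N + d)
    (hr : k * s < r ^ 2)
    (hv : 512 * (M * 2 ^ r / 2 ^ k + k ^ 2 * 2 ^ ((k + s) / 2) / 2 ^ k) *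
      (N * Real.log 4 + Real.log (200 * M)) ≤ β ^ 2)
    (hc : M * Real.exp (-(2 ^ k * β ^ 2 / 512)) ≤ 1 / 100)
    (hε : 0 < ε) (hδ : M * (8 * ε / β) ≤ 1 / 2)
    (hD : (2 : ℝ) ^ k * (8 / 3 * (1 / 4) ^ D) ≤ 1 / 100)
    (hN : ((N + d : ℕ) : ℝ) ^ k * 2 ^ (2 ^ k) *
      Real.exp (-(2 ^ (N + d) * (ε / 4) ^ 2 / 2)) ≤ 1 / 100)
    (ht : 1 ≤ t₀) (htδ : (t₀ : ℝ) * (4 / 3 * (8 * ε / β) ^ 2) ≤ 1 / 16)
    (hcomb : M * (2 ^ (N + d) * 2 ^ s) ≤ t₀ * 2 ^ (2 * k)) {A : PMF (Tree (N + d))}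
    (hA : Approximates (N + d) k ε q A) : (t₀ : ℝ) * M / 10 ≤ q := by
  classical
  by_contra hcon
  push Not at hcon
  have hM1 : 1 ≤ M := by omega
  have hM0 : (0 : ℝ) < M := by exact_mod_cast hM1
  have ht0 : (0 : ℝ) < t₀ := by exact_mod_cast ht
  set δ : ℝ := 8 * ε / β with hδdef
  have hδ0 : 0 ≤ δ := by positivity
  have hδβ : δ * β = 8 * ε := by rw [hδdef]; field_simp
  have hg0 := good_null P hβ he hs hM1 hr hv hc
  have hg1 := good_planted P hβ he hs hM1 hr hv hc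
  have hN1 : Real.exp (-(2 ^ (N + d) * (ε / 4) ^ 2 / 2)) ≤ 1 / 100 := by
    refine le_trans ?_ hN
    apply le_mul_of_one_le_left (Real.exp_pos _).le
    have h1 : (1 : ℝ) ≤ ((N + d : ℕ) : ℝ) ^ k := one_le_pow₀ (by exact_mod_cast hn)
    have h2 : (1 : ℝ) ≤ 2 ^ (2 ^ k) := one_le_pow₀ (by norm_num)
    nlinarith
  have hd0 := dist_null P (e := e) hn hδ0 hδ (by positivity : (0 : ℝ) ≤ ε / 4) hg0 hN
  have hd1 := fun a => dist_planted (d := d) P (e := e) hδ0 hδ
    (by positivity : (0 : ℝ) ≤ ε / 4) a (hg1 a) hN1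
  set e' : Fin M → Fin k → Fin (N + d) := fun a => Fin.castAdd d ∘ e a with he'
  have he'i : ∀ a, Function.Injective (e' a) := fun a =>
    (Fin.castAdd_injective N d).comp (he a)
  have hs' : ∀ a b, a ≠ b → (rg (e' a) ∩ rg (e' b)).card ≤ s := by
    intro a b hab
    refine le_trans (le_of_eq ?_) (hs a b hab)
    have h1 : ∀ a, rg (e' a) = (rg (e a)).image (Fin.castAdd d) := by
      intro a
      unfold rg
      rw [image_image]
    rw [h1, h1, ← image_inter _ _ (Fin.castAdd_injective N d),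
      card_image_of_injective _ (Fin.castAdd_injective N d)]
  have hgap := gap' P
  set c0 : ℝ := (1 - δ * P.E0) / 2 with hc0
  have hc1 : (1 - δ * (P.E0 + β / 8)) / 2 - ε / 4 = c0 - 3 / 4 * ε := by
    rw [hc0]; linarith
  have hc2 : (1 - δ * (P.E1 - β / 8)) / 2 + ε / 4 ≤ c0 - 13 / 4 * ε := by
    have h1 := mul_le_mul_of_nonneg_left hgap hδ0
    rw [hc0]
    linarith
  set θ : ℝ := c0 - 2 * ε with hθ
  have hp0 : ∀ (Ξ : Fin M × Cube k → V) x, 0 ≤ prb e' P.X δ Ξ x := fun Ξ x => by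
    have := (prb_mem e' P.hX hδ0 hδ Ξ x).1; linarith
  have hp1 : ∀ (Ξ : Fin M × Cube k → V) x, prb e' P.X δ Ξ x ≤ 1 := fun Ξ x => by
    have := (prb_mem e' P.hX hδ0 hδ Ξ x).2; linarith
  -- the planted models
  have b1 : ∀ a : Fin M, 2 / 3 - 3 / 100 ≤
      ∑ f, law e' P.X δ (planted P a) f * accO A (Set.Iic θ) f := by
    intro a
    rw [sum_law_mul]
    have h1 : EL (planted P a) (fun Ξ => Ex (prb e' P.X δ Ξ) (fun f =>
        2 / 3 - ind ((1 - δ * (P.E1 - β / 8)) / 2 + ε / 4 < distK k f))) ≤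
        EL (planted P a) (fun Ξ => Ex (prb e' P.X δ Ξ) (accO A (Set.Iic θ))) :=
      EL_mono (planted_nonneg P a) fun Ξ => Ex_mono' (hp0 Ξ) (hp1 Ξ) fun f =>
        accept_small hA (by rw [hθ]; linarith) f
    refine le_trans ?_ h1
    have h2 : ∀ Ξ : Fin M × Cube k → V, Ex (prb e' P.X δ Ξ) (fun f =>
        2 / 3 - ind ((1 - δ * (P.E1 - β / 8)) / 2 + ε / 4 < distK k f)) =
        2 / 3 - Ex (prb e' P.X δ Ξ) (fun f =>
          ind ((1 - δ * (P.E1 - β / 8)) / 2 + ε / 4 < distK k f)) := by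
      intro Ξ
      have h3 : ∀ f : Cube (N + d) → Bool,
          2 / 3 - ind ((1 - δ * (P.E1 - β / 8)) / 2 + ε / 4 < distK k f) =
          2 / 3 + (-1) * ind ((1 - δ * (P.E1 - β / 8)) / 2 + ε / 4 < distK k f) :=
        fun f => by ring
      simp_rw [h3]
      rw [Ex_add, Ex_mul_left, Ex_const]
      ring
    simp_rw [h2]
    rw [EL_sub, EL_const (planted_sum P a)]
    have := hd1 a
    linarith
  -- the null model
  have b2 : ∑ f, law e' P.X δ (null P) f * accO A (Set.Iic θ) f ≤ 1 / 3 + 3 / 100 := by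
    rw [sum_law_mul]
    have h1 : EL (null P) (fun Ξ : Fin M × Cube k → V =>
        Ex (prb e' P.X δ Ξ) (accO A (Set.Iic θ))) ≤
        EL (null P) (fun Ξ : Fin M × Cube k → V => Ex (prb e' P.X δ Ξ) (fun f =>
        1 / 3 + ind (distK k f < (1 - δ * (P.E0 + β / 8)) / 2 - ε / 4))) :=
      EL_mono (null_nonneg P) fun Ξ => Ex_mono' (hp0 Ξ) (hp1 Ξ) fun f =>
        reject_large hA (by rw [hc1, hθ]; linarith) f
    refine h1.trans ?_
    have h2 : ∀ Ξ : Fin M × Cube k → V, Ex (prb e' P.X δ Ξ) (fun f =>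
        1 / 3 + ind (distK k f < (1 - δ * (P.E0 + β / 8)) / 2 - ε / 4)) =
        1 / 3 + Ex (prb e' P.X δ Ξ) (fun f =>
          ind (distK k f < (1 - δ * (P.E0 + β / 8)) / 2 - ε / 4)) := by
      intro Ξ
      rw [Ex_add, Ex_const]
    simp_rw [h2]
    rw [EL_add, EL_const (null_sum P)]
    linarith
  -- indistinguishability
  have hq : (2 * q + t₀) * (2 ^ (N + d) * 2 ^ s) ≤ t₀ ^ 2 * 2 ^ (2 * k) := by
    have h1 : 10 * q ≤ t₀ * M := by
      have : (10 : ℝ) * q ≤ t₀ * M := by linarith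
      exact_mod_cast this
    have h2 : 2 * q + t₀ ≤ t₀ * M := by nlinarith
    calc (2 * q + t₀) * (2 ^ (N + d) * 2 ^ s) ≤ (t₀ * M) * (2 ^ (N + d) * 2 ^ s) :=
          Nat.mul_le_mul_right _ h2
      _ = t₀ * (M * (2 ^ (N + d) * 2 ^ s)) := by ring
      _ ≤ t₀ * (t₀ * 2 ^ (2 * k)) := Nat.mul_le_mul_left _ hcomb
      _ = _ := by ring
  have b3 := sum_accO A (Set.Iic θ) (fun f => (∑ a : Fin M, law e' P.X δ (planted P a) f) -
    M * law e' P.X δ (null P) f) (q := q)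
    (D := 2 * q / t₀ + M * (2 ^ k * (8 / 3 * (1 / 4) ^ D))) hA.1 (by
      intro T hT
      have h1 := indist P e' he'i hs' hδ0 hδ ht htδ hq (O := Set.Iic θ) ⟨θ, Set.mem_Iic.mpr le_rfl⟩
        T hT
      have h2 : ∑ f, ((∑ a : Fin M, law e' P.X δ (planted P a) f) -
          M * law e' P.X δ (null P) f) * oi T (Set.Iic θ) f =
          (∑ a, EL (planted P a) (fun Ξ => Ex (prb e' P.X δ Ξ) (oi T (Set.Iic θ)))) -
          M * EL (null P) (fun Ξ : Fin M × Cube k → V =>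
            Ex (prb e' P.X δ Ξ) (oi T (Set.Iic θ))) := by
        simp_rw [← sum_law_mul, sub_mul, sum_mul]
        rw [sum_sub_distrib, sum_comm, mul_sum]
        congr 1
        exact sum_congr rfl fun f _ => by ring
      rw [h2]
      linarith)
  have b4 : ∑ f, ((∑ a : Fin M, law e' P.X δ (planted P a) f) -
      M * law e' P.X δ (null P) f) * accO A (Set.Iic θ) f =
      (∑ a : Fin M, ∑ f, law e' P.X δ (planted P a) f * accO A (Set.Iic θ) f) -
      M * ∑ f, law e' P.X δ (null P) f * accO A (Set.Iic θ) f := by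
    simp_rw [sub_mul, sum_mul]
    rw [sum_sub_distrib, sum_comm, mul_sum]
    congr 1
    exact sum_congr rfl fun f _ => by ring
  rw [b4] at b3
  have b5 : (M : ℝ) * (2 / 3 - 3 / 100) ≤
      ∑ a : Fin M, ∑ f, law e' P.X δ (planted P a) f * accO A (Set.Iic θ) f := by
    calc (M : ℝ) * (2 / 3 - 3 / 100) = ∑ _a : Fin M, (2 / 3 - 3 / 100 : ℝ) := by
          rw [sum_const, card_univ, Fintype.card_fin, nsmul_eq_mul]
      _ ≤ _ := sum_le_sum fun a _ => b1 a
  have b6 := mul_le_mul_of_nonneg_left b2 hM0.le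
  have b7 : 2 * (q : ℝ) / t₀ ≤ M / 5 := by
    rw [div_le_iff₀ ht0]
    linarith
  have b8 := mul_le_mul_of_nonneg_left hD hM0.le
  linarith

end Pool.Agent.Work.MP_8f25a0_lc.Decoy
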