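import Pool.Agent.Work.MP_8f25a0_lc.Decoy.Engine
import Pool.Agent.Work.MP_8f25a0_lc.Decoy.B14
import Pool.Agent.Work.MP_8f25a0_lc.Decoy.B27
import Pool.Agent.Work.MP_8f25a0_lc.Decoy.B32
import Pool.Agent.Work.MP_8f25a0_lc.Decoy.B33
import Pool.Agent.Work.MP_8f25a0_lc.Decoy.B34
import Pool.Agent.Work.MP_8f25a0_lc.Decoy.B35

/-!
# Decoys: the choice of the parameters
-/

namespace Pool.Agent.Work.MP_8f25a0_lc.Decoy

open Finset

theorem half_floor {x : ℝ} (hx : 1 ≤ x) : x / 2 ≤ ⌊x⌋₊ ∧ 1 ≤ ⌊x⌋₊ := by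
  have h1 : 1 ≤ ⌊x⌋₊ := Nat.le_floor (by exact_mod_cast hx)
  have h2 : (1 : ℝ) ≤ ⌊x⌋₊ := by exact_mod_cast h1
  have h3 := Nat.lt_floor_add_one x
  exact ⟨by linarith, h1⟩

/-- the number of decoys -/
theorem exists_M {h k : ℕ} (hh : 2 ≤ h) (hk : 1 ≤ k)
    (hst : 10 ^ 13 * 16 ^ (h ^ 2) * ((k : ℝ) + 6) ^ 10 ≤ 2 ^ (k / (4 * h))) :
    ∃ M : ℕ, 2 ≤ M ∧
      (M : ℝ) ≤ 2 ^ k / 2 ^ (k / h + 1) / (40960 * 16 ^ (h ^ 2) * k * ((k : ℝ) + 3) ^ 4) ∧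
      2 ^ k / 2 ^ (k / h + 1) / (2 * (40960 * 16 ^ (h ^ 2) * k * ((k : ℝ) + 3) ^ 4)) ≤ M := by
  have hk1 : (1 : ℝ) ≤ k := by exact_mod_cast hk
  set B : ℝ := 40960 * 16 ^ (h ^ 2) * k * ((k : ℝ) + 3) ^ 4 with hB
  have hB0 : 0 < B := by positivity
  have hq0 : (1 : ℝ) ≤ 16 ^ (h ^ 2) := one_le_pow₀ (by norm_num)
  have hB1 : 4 * B ≤ 10 ^ 13 * 16 ^ (h ^ 2) * ((k : ℝ) + 6) ^ 10 := by
    have h1 : (k : ℝ) * ((k : ℝ) + 3) ^ 4 ≤ ((k : ℝ) + 6) ^ 10 := by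
      calc (k : ℝ) * ((k : ℝ) + 3) ^ 4 ≤ ((k : ℝ) + 6) * ((k : ℝ) + 6) ^ 4 := by
            gcongr <;> linarith
        _ = ((k : ℝ) + 6) ^ 5 := by ring
        _ ≤ ((k : ℝ) + 6) ^ 10 := pow_le_pow_right₀ (by linarith) (by norm_num)
    calc 4 * B = 163840 * 16 ^ (h ^ 2) * ((k : ℝ) * (k + 3) ^ 4) := by rw [hB]; ring
      _ ≤ 10 ^ 13 * 16 ^ (h ^ 2) * ((k : ℝ) + 6) ^ 10 := by
          gcongr
          norm_num
  have hexp : k / (4 * h) + (k / h + 1) ≤ k + 1 := by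
    have h1 : k / h ≤ k / 2 := Nat.div_le_div_left hh (by norm_num)
    have h2 : k / (4 * h) ≤ k / 8 := Nat.div_le_div_left (by omega) (by norm_num)
    omega
  have hx : 2 ≤ 2 ^ k / 2 ^ (k / h + 1) / B := by
    rw [le_div_iff₀ hB0, le_div_iff₀ (by positivity)]
    calc 2 * B * 2 ^ (k / h + 1) = (4 * B) * 2 ^ (k / h + 1) / 2 := by ring
      _ ≤ 2 ^ (k / (4 * h)) * 2 ^ (k / h + 1) / 2 := by
          have := hB1.trans hst
          gcongr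
      _ = 2 ^ (k / (4 * h) + (k / h + 1)) / 2 := by rw [← pow_add]
      _ ≤ 2 ^ (k + 1) / 2 := by
          have : (2 : ℝ) ^ (k / (4 * h) + (k / h + 1)) ≤ 2 ^ (k + 1) :=
            pow_le_pow_right₀ (by norm_num) hexp
          linarith
      _ = 2 ^ k := by rw [pow_succ]; ring
  refine ⟨⌊2 ^ k / 2 ^ (k / h + 1) / B⌋₊, ?_, Nat.floor_le (by positivity), ?_⟩
  · exact Nat.le_floor (by exact_mod_cast hx)
  · have h1 := (half_floor (x := 2 ^ k / 2 ^ (k / h + 1) / B) (by linarith)).1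
    refine le_trans (le_of_eq ?_) h1
    rw [div_div, div_div, div_div]
    congr 1
    ring

theorem step_num {a Q κ m e : ℝ} (ha : 0 < a) (hQ : 0 < Q) (hκ : 0 < κ) (hm : 0 < m)
    (he : 0 < e) : a / (10 ^ 10 * Q * κ * m ^ 8 * e) ≤
      3 / (32768 * m ^ 4 * e) * (a / (2 * (40960 * Q * κ * m ^ 4))) / 10 := by
  have e1 : a / (10 ^ 10 * Q * κ * m ^ 8 * e) = (a / (Q * κ * m ^ 8 * e)) * (1 / 10 ^ 10) := by
    field_simp
  have e2 : 3 / (32768 * m ^ 4 * e) * (a / (2 * (40960 * Q * κ * m ^ 4))) / 10 =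
      (a / (Q * κ * m ^ 8 * e)) * (3 / 26843545600) := by
    field_simp
    norm_num
  rw [e1, e2]
  exact mul_le_mul_of_nonneg_left (by norm_num) (by positivity)

/-- one choice of the parameters -/
theorem step {h k n q : ℕ} {ε : ℝ} (hh : 2 ≤ h) (hk : 1 ≤ k)
    (hst : 10 ^ 13 * 16 ^ (h ^ 2) * ((k : ℝ) + 6) ^ 10 ≤ 2 ^ (k / (4 * h)))
    (hn : k * 16 ^ (h ^ 2) ≤ n) (hlog : Real.log n ≤ 2 ^ k) (hε0 : 0 < ε)
    (hε1 : ε ≤ 1 / 2 ^ (k * 16 ^ (h ^ 2)))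
    (hlo : 32 * ((k : ℝ) + 6) ≤ 2 ^ n / 2 ^ k * ε ^ 2)
    (hhi : 2 ^ n / 2 ^ k * ε ^ 2 ≤ 64 * ((k : ℝ) + 6)) {A : PMF (Tree n)}
    (hA : Approximates n k ε q A) :
    2 ^ k / 2 ^ (k / h + 1) / (10 ^ 10 * 16 ^ (h ^ 2) * k * ((k : ℝ) + 3) ^ 8 * ε ^ 2) ≤ q := by
  obtain ⟨d, rfl⟩ := Nat.exists_eq_add_of_le hn
  obtain ⟨M, hM2, hM, hM'⟩ := exists_M hh hk hst
  have hk1 : (1 : ℝ) ≤ k := by exact_mod_cast hk
  have hk0 : (0 : ℝ) < k := by linarith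
  have hM0 : (0 : ℝ) < M := by
    have : 0 < M := by omega
    exact_mod_cast this
  have hq0 : 65536 ≤ 16 ^ (h ^ 2) := by
    calc 65536 = 16 ^ 4 := by norm_num
      _ ≤ 16 ^ (h ^ 2) := Nat.pow_le_pow_right (by norm_num) (by nlinarith)
  have hq0' : (65536 : ℝ) ≤ 16 ^ (h ^ 2) := by exact_mod_cast hq0
  have hNpos : 0 < k * 16 ^ (h ^ 2) := by positivity
  set s : ℕ := k / (2 * h ^ 2) with hs
  set r : ℕ := k / h + 1 with hr
  set N : ℕ := k * 16 ^ (h ^ 2) with hN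
  -- the code
  have hMk : (M : ℝ) ≤ 2 ^ k := by
    refine hM.trans ?_
    rw [div_div]
    apply div_le_self (by positivity)
    have h1 : (1 : ℝ) ≤ 2 ^ r := one_le_pow₀ (by norm_num)
    have h2 : (1 : ℝ) ≤ 40960 * 16 ^ (h ^ 2) * k * ((k : ℝ) + 3) ^ 4 := by
      have h3 : (1 : ℝ) ≤ ((k : ℝ) + 3) ^ 4 := one_le_pow₀ (by linarith)
      have h4 : (1 : ℝ) ≤ 40960 * 16 ^ (h ^ 2) := by linarith
      have h5 : (1 : ℝ) ≤ 40960 * 16 ^ (h ^ 2) * k := one_le_mul_of_one_le_of_one_le h4 hk1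
      exact one_le_mul_of_one_le_of_one_le h5 h3
    exact one_le_mul_of_one_le_of_one_le h1 h2
  have hcode : M * 2 ^ k ≤ (16 ^ (h ^ 2)) ^ (s + 1) := by
    have h1 : M ≤ 2 ^ k := by exact_mod_cast hMk
    have h2 : k < (s + 1) * (2 * h ^ 2) := by
      have h3 := Nat.lt_mul_div_succ k (show 0 < 2 * h ^ 2 by positivity)
      rw [hs, mul_comm]
      exact h3
    calc M * 2 ^ k ≤ 2 ^ k * 2 ^ k := Nat.mul_le_mul_right _ h1
      _ = 2 ^ (2 * k) := by rw [← pow_add]; congr 1; ring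
      _ ≤ 2 ^ (4 * (h ^ 2 * (s + 1))) := Nat.pow_le_pow_right (by norm_num) (by nlinarith)
      _ = (16 ^ (h ^ 2)) ^ (s + 1) := by
          rw [show (16 : ℕ) = 2 ^ 4 by norm_num, ← pow_mul, ← pow_mul]
  obtain ⟨e, he, hes⟩ := code_sets (k := k) (by positivity) hcode
  -- the pair
  obtain ⟨P⟩ := exists_pair (k + 3) (by omega)
  have hcast : (((k + 3 : ℕ) : ℝ)) = (k : ℝ) + 3 := by push_cast; ring
  set β : ℝ := 1 / (2 * (((k + 3 : ℕ) : ℝ)) ^ 2) with hβ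
  have hβ' : β = 1 / (2 * ((k : ℝ) + 3) ^ 2) := by rw [hβ, hcast]
  have hβ0 : 0 < β := by rw [hβ']; positivity
  -- the number of questions per cell
  have hε2 : ε ^ 2 ≤ (1 / 2 ^ N) ^ 2 := pow_le_pow_left₀ hε0.le hε1 2
  have hkN : 16 * k + 16 ≤ N := by
    rw [hN]; nlinarith
  have h2k3 : (k : ℝ) + 3 ≤ 2 ^ (k + 2) := by
    have h1 : k + 3 ≤ 2 ^ (k + 2) := by
      have := Nat.lt_two_pow_self (n := k + 2)
      omega
    exact_mod_cast h1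
  have hx : 1 ≤ 3 / (16384 * ((k : ℝ) + 3) ^ 4 * ε ^ 2) := by
    rw [le_div_iff₀ (by positivity), one_mul]
    calc 16384 * ((k : ℝ) + 3) ^ 4 * ε ^ 2 ≤ 2 ^ 14 * (2 ^ (k + 2)) ^ 4 * (1 / 2 ^ N) ^ 2 := by
          gcongr
          norm_num
      _ = 2 ^ (14 + 4 * (k + 2)) / 2 ^ (2 * N) := by
          rw [div_pow, one_pow, ← pow_mul, ← pow_mul, pow_add, mul_one_div]
          congr 2 <;> ring
      _ ≤ 1 := by
          rw [div_le_one (by positivity)]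
          exact pow_le_pow_right₀ (by norm_num) (by omega)
      _ ≤ 3 := by norm_num
  obtain ⟨ht2, ht1⟩ := half_floor hx
  have ht3 : ((⌊3 / (16384 * ((k : ℝ) + 3) ^ 4 * ε ^ 2)⌋₊ : ℕ) : ℝ) ≤
      3 / (16384 * ((k : ℝ) + 3) ^ 4 * ε ^ 2) := Nat.floor_le (by positivity)
  obtain ⟨t₀, ht₀⟩ : ∃ t₀ : ℕ, t₀ = ⌊3 / (16384 * ((k : ℝ) + 3) ^ 4 * ε ^ 2)⌋₊ := ⟨_, rfl⟩
  rw [← ht₀] at ht1 ht2 ht3
  have ht4 : 3 / (32768 * ((k : ℝ) + 3) ^ 4 * ε ^ 2) ≤ t₀ := by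
    refine le_trans (le_of_eq ?_) ht2
    rw [div_div]
    congr 1
    ring
  -- the hypotheses of the engine
  have c1 : k * s < r ^ 2 := by
    have h1 : k < h * r := by
      rw [hr]
      have := Nat.lt_mul_div_succ k (show 0 < h by omega)
      linarith
    have h2 : s * (2 * h ^ 2) ≤ k := by rw [hs]; exact Nat.div_mul_le_self k _
    have h3 : (k * s) * (2 * h ^ 2) ≤ k * k := by
      calc (k * s) * (2 * h ^ 2) = k * (s * (2 * h ^ 2)) := by ring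
        _ ≤ k * k := Nat.mul_le_mul_left _ h2
    have h4 : k * k < (h * r) * (h * r) := Nat.mul_lt_mul'' h1 h1
    by_contra hcon
    push Not at hcon
    have h5 : r ^ 2 * (2 * h ^ 2) ≤ k * s * (2 * h ^ 2) := Nat.mul_le_mul_right _ hcon
    have h6 : 0 < r ^ 2 * h ^ 2 := by positivity
    nlinarith
  have c3 := num_v hh hk (show 1 ≤ M by omega) hst hM
  have c4 := num_c hh hk hst hM
  have c5 : (M : ℝ) * (8 * ε / β) ≤ 1 / 2 := by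
    have h1 : 8 * ε / β = 16 * ((k : ℝ) + 3) ^ 2 * ε := by
      rw [hβ']; field_simp; norm_num
    rw [h1]
    calc (M : ℝ) * (16 * ((k : ℝ) + 3) ^ 2 * ε)
        ≤ 2 ^ k * (2 ^ 4 * (2 ^ (k + 2)) ^ 2 * (1 / 2 ^ N)) := by
          gcongr
          norm_num
      _ = 2 ^ (k + 4 + 2 * (k + 2)) / 2 ^ N := by
          rw [← pow_mul, pow_add, pow_add]
          field_simp
          ring
      _ ≤ 2 ^ (N - 1) / 2 ^ N := by
          apply div_le_div_of_nonneg_right _ (by positivity)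
          exact pow_le_pow_right₀ (by norm_num) (by omega)
      _ = 1 / 2 := by
          rw [div_eq_div_iff (by positivity) (by norm_num), one_mul, ← pow_succ]
          congr 1
          omega
  have c6 : (2 : ℝ) ^ k * (8 / 3 * (1 / 4) ^ (2 * (k + 3))) ≤ 1 / 100 := by
    have h1 : ((1 : ℝ) / 4) ^ (2 * (k + 3)) = 1 / (2 ^ k * 2 ^ k * 2 ^ k * 2 ^ k * 4096) := by
      rw [one_div_pow]
      congr 1
      rw [show (4 : ℝ) = 2 ^ 2 by norm_num, ← pow_mul]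
      rw [show 2 * (2 * (k + 3)) = k + k + k + k + 12 by ring, pow_add, pow_add, pow_add, pow_add]
      norm_num
    rw [h1]
    have h2 : (1 : ℝ) ≤ 2 ^ k := one_le_pow₀ (by norm_num)
    have h3 : (1 : ℝ) ≤ 2 ^ k * 2 ^ k * 2 ^ k := by
      have := one_le_mul_of_one_le_of_one_le h2 h2
      exact one_le_mul_of_one_le_of_one_le this h2
    have h4 : (2 : ℝ) ^ k * (8 / 3 * (1 / (2 ^ k * 2 ^ k * 2 ^ k * 2 ^ k * 4096))) =
        1 / (1536 * (2 ^ k * 2 ^ k * 2 ^ k)) := by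
      field_simp
      norm_num
    rw [h4]
    apply one_div_le_one_div_of_le (by norm_num)
    linarith
  have hn0 : 0 < N + d := by omega
  have c8 := num_N (n := N + d) hn0 hk hlog hlo
  have c7 : (t₀ : ℝ) * (4 / 3 * (8 * ε / β) ^ 2) ≤ 1 / 16 := by
    have h1 : 8 * ε / β = 16 * ((k : ℝ) + 3) ^ 2 * ε := by
      rw [hβ']; field_simp; norm_num
    rw [h1]
    have h2 : 4 / 3 * (16 * ((k : ℝ) + 3) ^ 2 * ε) ^ 2 = 1024 / 3 * (((k : ℝ) + 3) ^ 4 * ε ^ 2) := by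
      ring
    rw [h2]
    calc (t₀ : ℝ) * (1024 / 3 * (((k : ℝ) + 3) ^ 4 * ε ^ 2)) ≤
          3 / (16384 * ((k : ℝ) + 3) ^ 4 * ε ^ 2) * (1024 / 3 * (((k : ℝ) + 3) ^ 4 * ε ^ 2)) :=
          mul_le_mul_of_nonneg_right ht3 (by positivity)
      _ = 1 / 16 := by field_simp; norm_num
  have c7' := num_comb (n := N + d) hh hk hε0 hst hM hhi ht4
  have hfin := engine (d := d) P hβ0 he hes hM2 hn0 c1 (by rw [hβ']; exact c3)
    (by rw [hβ']; exact c4) hε0 c5 c6 c8 ht1 c7 c7' hA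
  refine le_trans ?_ hfin
  have h1 : 3 / (32768 * ((k : ℝ) + 3) ^ 4 * ε ^ 2) *
      (2 ^ k / 2 ^ r / (2 * (40960 * 16 ^ (h ^ 2) * k * ((k : ℝ) + 3) ^ 4))) ≤ t₀ * M :=
    mul_le_mul ht4 hM' (by positivity) (by positivity)
  have h2 := step_num (a := 2 ^ k / 2 ^ r) (Q := 16 ^ (h ^ 2)) (κ := k) (m := (k : ℝ) + 3)
    (e := ε ^ 2) (by positivity) (by positivity) hk0 (by positivity) (by positivity)
  linarith

end Pool.Agent.Work.MP_8f25a0_lc.Decoy
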