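import Pool.Agent.Work.MP_8f25a0_lc.Decoy.Engine
import Pool.Agent.Work.MP_8f25a0_lc.Decoy.Step
import Pool.Agent.Work.MP_8f25a0_lc.Decoy.B27
import Pool.Agent.Work.MP_8f25a0_lc.Decoy.B34

/-!
# Decoys: the engine with abstract parameters
-/

namespace Pool.Agent.Work.MP_8f25a0_lc.Decoy

open Finset

theorem gs_log {N k M : ℕ} {Q : ℝ} (hk : 1 ≤ k) (hM : 1 ≤ M) (hMk : (M : ℝ) ≤ 2 ^ k)
    (hQN : (N : ℝ) ≤ Q) (hQk : (k : ℝ) ≤ Q) :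
    (N : ℝ) * Real.log 4 + Real.log (200 * M) ≤ 10 * Q := by
  have hk' : (1 : ℝ) ≤ k := by exact_mod_cast hk
  have hM' : (1 : ℝ) ≤ M := by exact_mod_cast hM
  have hl2 := Real.log_two_lt_d9
  have hl2' := Real.log_two_gt_d9
  have hl4 : Real.log 4 = 2 * Real.log 2 := by
    have : (4 : ℝ) = 2 ^ 2 := by norm_num
    rw [this, Real.log_pow]
    norm_num
  have hl200 : Real.log 200 ≤ 8 * Real.log 2 := by
    have e1 : Real.log 200 ≤ Real.log (2 ^ 8) := by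
      apply Real.log_le_log (by norm_num)
      norm_num
    rw [Real.log_pow] at e1
    simpa using e1
  have hlM : Real.log (200 * M) ≤ 8 * Real.log 2 + k * Real.log 2 := by
    rw [Real.log_mul (by norm_num) (by linarith)]
    have e1 : Real.log M ≤ Real.log (2 ^ k) := Real.log_le_log (by linarith) hMk
    rw [Real.log_pow] at e1
    linarith
  rw [hl4]
  have e2 : (k : ℝ) * Real.log 2 ≤ Q * 0.7 := by
    apply mul_le_mul hQk (by linarith) (by linarith) (by linarith)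
  have e3 : (N : ℝ) * (2 * Real.log 2) ≤ Q * 1.4 := by
    apply mul_le_mul hQN (by linarith) (by linarith) (by linarith)
  linarith

theorem gs_v {N k s r M : ℕ} {Q m : ℝ} (hm : 0 < m) (hk : 1 ≤ k) (hM : 1 ≤ M)
    (hMk : (M : ℝ) ≤ 2 ^ k) (hQN : (N : ℝ) ≤ Q) (hQk : (k : ℝ) ≤ Q)
    (g1 : (M : ℝ) * 2 ^ r / 2 ^ k ≤ 1 / (40960 * Q * m ^ 4))
    (g2 : (k : ℝ) ^ 2 * 2 ^ ((k + s) / 2) / 2 ^ k ≤ 1 / (40960 * Q * m ^ 4)) :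
    512 * (M * 2 ^ r / 2 ^ k + (k : ℝ) ^ 2 * 2 ^ ((k + s) / 2) / 2 ^ k) *
      (N * Real.log 4 + Real.log (200 * M)) ≤ (1 / (2 * m ^ 2)) ^ 2 := by
  have hk' : (1 : ℝ) ≤ k := by exact_mod_cast hk
  have hQ : 0 < Q := by linarith
  have h1 := gs_log hk hM hMk hQN hQk
  have h2 : 512 * (M * 2 ^ r / 2 ^ k + (k : ℝ) ^ 2 * 2 ^ ((k + s) / 2) / 2 ^ k) ≤
      1024 * (1 / (40960 * Q * m ^ 4)) := by linarith
  have h3 : 0 ≤ 512 * (M * 2 ^ r / 2 ^ k + (k : ℝ) ^ 2 * 2 ^ ((k + s) / 2) / 2 ^ k) := by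
    positivity
  calc 512 * (M * 2 ^ r / 2 ^ k + (k : ℝ) ^ 2 * 2 ^ ((k + s) / 2) / 2 ^ k) *
      (N * Real.log 4 + Real.log (200 * M))
      ≤ 512 * (M * 2 ^ r / 2 ^ k + (k : ℝ) ^ 2 * 2 ^ ((k + s) / 2) / 2 ^ k) * (10 * Q) :=
        mul_le_mul_of_nonneg_left h1 h3
    _ ≤ 1024 * (1 / (40960 * Q * m ^ 4)) * (10 * Q) :=
        mul_le_mul_of_nonneg_right h2 (by positivity)
    _ = (1 / (2 * m ^ 2)) ^ 2 := by field_simp; norm_num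

theorem gs_c {k M : ℕ} {m : ℝ} (hm : 0 < m) (hMk : (M : ℝ) ≤ 2 ^ k)
    (g3 : 2048 * m ^ 4 * ((k : ℝ) + 5) ≤ 2 ^ k) :
    M * Real.exp (-(2 ^ k * (1 / (2 * m ^ 2)) ^ 2 / 512)) ≤ 1 / 100 := by
  have h1 : (k : ℝ) + 5 ≤ 2 ^ k * (1 / (2 * m ^ 2)) ^ 2 / 512 := by
    rw [le_div_iff₀ (by norm_num), div_pow, one_pow, mul_one_div, le_div_iff₀ (by positivity)]
    calc ((k : ℝ) + 5) * 512 * (2 * m ^ 2) ^ 2 = 2048 * m ^ 4 * ((k : ℝ) + 5) := by ring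
      _ ≤ 2 ^ k := g3
  have h2 : (2 : ℝ) ^ k ≤ Real.exp k := by
    rw [← Real.exp_one_pow]
    apply pow_le_pow_left₀ (by norm_num)
    have := Real.exp_one_gt_d9
    linarith
  have h3 : Real.exp (-5) ≤ 1 / 100 := by
    rw [Real.exp_neg, ← one_div]
    apply one_div_le_one_div_of_le (by norm_num)
    have h7 : (2.7 : ℝ) ≤ Real.exp 1 := by
      have := Real.exp_one_gt_d9; linarith
    calc (100 : ℝ) ≤ 2.7 ^ 5 := by norm_num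
      _ ≤ Real.exp 1 ^ 5 := pow_le_pow_left₀ (by norm_num) h7 5
      _ = Real.exp 5 := by rw [← Real.exp_nat_mul]; norm_num
  calc M * Real.exp (-(2 ^ k * (1 / (2 * m ^ 2)) ^ 2 / 512))
      ≤ Real.exp k * Real.exp (-((k : ℝ) + 5)) := by
        apply mul_le_mul (hMk.trans h2) _ (Real.exp_pos _).le (Real.exp_pos _).le
        apply Real.exp_le_exp.mpr
        linarith
    _ = Real.exp (-5) := by rw [← Real.exp_add]; congr 1; ring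
    _ ≤ _ := h3

theorem gs_comb {n k s r M t₀ : ℕ} {Q m ε : ℝ} (hm : 0 < m) (hk : 1 ≤ k) (hQk : (k : ℝ) ≤ Q)
    (hε0 : 0 < ε) (hrs : s + 7 ≤ r) (g1 : (M : ℝ) * 2 ^ r / 2 ^ k ≤ 1 / (40960 * Q * m ^ 4))
    (hhi : 2 ^ n / 2 ^ k * ε ^ 2 ≤ 64 * ((k : ℝ) + 6))
    (ht : 3 / (32768 * m ^ 4 * ε ^ 2) ≤ t₀) :
    M * (2 ^ n * 2 ^ s) ≤ t₀ * 2 ^ (2 * k) := by
  have hk' : (1 : ℝ) ≤ k := by exact_mod_cast hk
  have hQ : 0 < Q := by linarith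
  have h2k : (0 : ℝ) < 2 ^ k := by positivity
  have hr : (128 : ℝ) * 2 ^ s ≤ 2 ^ r := by
    calc (128 : ℝ) * 2 ^ s = 2 ^ (s + 7) := by rw [pow_add]; norm_num; ring
      _ ≤ 2 ^ r := pow_le_pow_right₀ (by norm_num) hrs
  have e1 : (M : ℝ) * 2 ^ r * (40960 * Q * m ^ 4) ≤ 2 ^ k := by
    rw [div_le_div_iff₀ h2k (by positivity), one_mul] at g1
    linarith
  have e2 : (2 : ℝ) ^ n * ε ^ 2 ≤ 64 * ((k : ℝ) + 6) * 2 ^ k := by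
    have h1 := mul_le_mul_of_nonneg_right hhi h2k.le
    have h2 : 2 ^ n / 2 ^ k * ε ^ 2 * 2 ^ k = (2 : ℝ) ^ n * ε ^ 2 := by field_simp
    rw [h2] at h1
    exact h1
  have e3 : (3 : ℝ) ≤ t₀ * (32768 * m ^ 4 * ε ^ 2) := by
    rwa [div_le_iff₀ (by positivity)] at ht
  -- M * 2^n * 2^s * (stuff)
  have hX : (0 : ℝ) < 128 * (40960 * Q * m ^ 4) * ε ^ 2 := by positivity
  have key : (M : ℝ) * (2 ^ n * 2 ^ s) * (128 * (40960 * Q * m ^ 4) * ε ^ 2) ≤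
      (t₀ * 2 ^ (2 * k)) * (128 * (40960 * Q * m ^ 4) * ε ^ 2) := by
    calc (M : ℝ) * (2 ^ n * 2 ^ s) * (128 * (40960 * Q * m ^ 4) * ε ^ 2)
        = (M * (128 * 2 ^ s) * (40960 * Q * m ^ 4)) * (2 ^ n * ε ^ 2) := by ring
      _ ≤ (M * 2 ^ r * (40960 * Q * m ^ 4)) * (2 ^ n * ε ^ 2) := by gcongr
      _ ≤ 2 ^ k * (64 * ((k : ℝ) + 6) * 2 ^ k) := by
          apply mul_le_mul e1 e2 (by positivity) (by positivity)
      _ ≤ 2 ^ k * (64 * (7 * Q) * 2 ^ k) := by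
          have : (k : ℝ) + 6 ≤ 7 * Q := by linarith
          gcongr
      _ ≤ 3 * (2 ^ k * 2 ^ k * (160 * Q)) := by
          have : 0 < (2 : ℝ) ^ k * 2 ^ k * Q := by positivity
          nlinarith
      _ ≤ (t₀ * (32768 * m ^ 4 * ε ^ 2)) * (2 ^ k * 2 ^ k * (160 * Q)) := by gcongr
      _ = (t₀ * (2 ^ k * 2 ^ k)) * (128 * (40960 * Q * m ^ 4) * ε ^ 2) := by ring
      _ = (t₀ * 2 ^ (2 * k)) * (128 * (40960 * Q * m ^ 4) * ε ^ 2) := by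
          rw [two_mul, pow_add]
  have h := le_of_mul_le_mul_right key hX
  exact_mod_cast h

/-- the engine with the pair of `exists_pair` -/
theorem gstep {k N d s r M q : ℕ} {Q ε : ℝ} (hk : 1 ≤ k) (hM : 2 ≤ M)
    {e : Fin M → Fin k → Fin N} (he : ∀ a, Function.Injective (e a))
    (hs : ∀ a b, a ≠ b → (rg (e a) ∩ rg (e b)).card ≤ s) (hr : k * s < r ^ 2)
    (hrs : s + 7 ≤ r) (hQN : (N : ℝ) ≤ Q) (hQk : (k : ℝ) ≤ Q) (hMk : (M : ℝ) ≤ 2 ^ k)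
    (g1 : (M : ℝ) * 2 ^ r / 2 ^ k ≤ 1 / (40960 * Q * ((k : ℝ) + 3) ^ 4))
    (g2 : (k : ℝ) ^ 2 * 2 ^ ((k + s) / 2) / 2 ^ k ≤ 1 / (40960 * Q * ((k : ℝ) + 3) ^ 4))
    (g3 : 2048 * ((k : ℝ) + 3) ^ 4 * ((k : ℝ) + 5) ≤ 2 ^ k)
    (hn0 : 0 < N + d) (hlog : Real.log ((N + d : ℕ) : ℝ) ≤ 2 ^ k) (hε0 : 0 < ε)
    (g6 : (M : ℝ) * (16 * ((k : ℝ) + 3) ^ 2 * ε) ≤ 1 / 2)
    (g7 : 16384 * ((k : ℝ) + 3) ^ 4 * ε ^ 2 ≤ 3)
    (hlo : 32 * ((k : ℝ) + 6) ≤ 2 ^ (N + d) / 2 ^ k * ε ^ 2)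
    (hhi : 2 ^ (N + d) / 2 ^ k * ε ^ 2 ≤ 64 * ((k : ℝ) + 6)) {A : PMF (Tree (N + d))}
    (hA : Approximates (N + d) k ε q A) :
    3 / (32768 * ((k : ℝ) + 3) ^ 4 * ε ^ 2) * M / 10 ≤ q := by
  have hk1 : (1 : ℝ) ≤ k := by exact_mod_cast hk
  have hm : (0 : ℝ) < (k : ℝ) + 3 := by linarith
  have hM1 : 1 ≤ M := by omega
  obtain ⟨P⟩ := exists_pair (k + 3) (by omega)
  have hcast : (((k + 3 : ℕ) : ℝ)) = (k : ℝ) + 3 := by push_cast; ring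
  set β : ℝ := 1 / (2 * (((k + 3 : ℕ) : ℝ)) ^ 2) with hβ
  have hβ' : β = 1 / (2 * ((k : ℝ) + 3) ^ 2) := by rw [hβ, hcast]
  have hβ0 : 0 < β := by rw [hβ']; positivity
  have hx : 1 ≤ 3 / (16384 * ((k : ℝ) + 3) ^ 4 * ε ^ 2) := by
    rw [le_div_iff₀ (by positivity), one_mul]
    exact g7
  obtain ⟨ht2, ht1⟩ := half_floor hx
  have ht3 : ((⌊3 / (16384 * ((k : ℝ) + 3) ^ 4 * ε ^ 2)⌋₊ : ℕ) : ℝ) ≤
      3 / (16384 * ((k : ℝ) + 3) ^ 4 * ε ^ 2) := Nat.floor_le (by positivity)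
  obtain ⟨t₀, ht₀⟩ : ∃ t₀ : ℕ, t₀ = ⌊3 / (16384 * ((k : ℝ) + 3) ^ 4 * ε ^ 2)⌋₊ := ⟨_, rfl⟩
  rw [← ht₀] at ht1 ht2 ht3
  have ht4 : 3 / (32768 * ((k : ℝ) + 3) ^ 4 * ε ^ 2) ≤ t₀ := by
    refine le_trans (le_of_eq ?_) ht2
    rw [div_div]
    congr 1
    ring
  have h8 : 8 * ε / β = 16 * ((k : ℝ) + 3) ^ 2 * ε := by
    rw [hβ']; field_simp; norm_num
  have c6 : (2 : ℝ) ^ k * (8 / 3 * (1 / 4) ^ (2 * (k + 3))) ≤ 1 / 100 := by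
    have h1 : ((1 : ℝ) / 4) ^ (2 * (k + 3)) = 1 / (2 ^ k * 2 ^ k * 2 ^ k * 2 ^ k * 4096) := by
      rw [one_div_pow]
      congr 1
      rw [show (4 : ℝ) = 2 ^ 2 by norm_num, ← pow_mul]
      rw [show 2 * (2 * (k + 3)) = k + k + k + k + 12 by ring, pow_add, pow_add, pow_add, pow_add]
      norm_num
    rw [h1]
    have h2 : (1 : ℝ) ≤ 2 ^ k := one_le_pow₀ (by norm_num)
    have h3 : (1 : ℝ) ≤ 2 ^ k * 2 ^ k * 2 ^ k := by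
      have := one_le_mul_of_one_le_of_one_le h2 h2
      exact one_le_mul_of_one_le_of_one_le this h2
    have h4 : (2 : ℝ) ^ k * (8 / 3 * (1 / (2 ^ k * 2 ^ k * 2 ^ k * 2 ^ k * 4096))) =
        1 / (1536 * (2 ^ k * 2 ^ k * 2 ^ k)) := by
      field_simp
      norm_num
    rw [h4]
    apply one_div_le_one_div_of_le (by norm_num)
    linarith
  have c7 : (t₀ : ℝ) * (4 / 3 * (8 * ε / β) ^ 2) ≤ 1 / 16 := by
    rw [h8]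
    have h2 : 4 / 3 * (16 * ((k : ℝ) + 3) ^ 2 * ε) ^ 2 = 1024 / 3 * (((k : ℝ) + 3) ^ 4 * ε ^ 2) := by
      ring
    rw [h2]
    calc (t₀ : ℝ) * (1024 / 3 * (((k : ℝ) + 3) ^ 4 * ε ^ 2)) ≤
          3 / (16384 * ((k : ℝ) + 3) ^ 4 * ε ^ 2) * (1024 / 3 * (((k : ℝ) + 3) ^ 4 * ε ^ 2)) :=
          mul_le_mul_of_nonneg_right ht3 (by positivity)
      _ = 1 / 16 := by field_simp; norm_num
  have c3 := gs_v hm hk hM1 hMk hQN hQk g1 g2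
  have c4 := gs_c hm hMk g3
  have c8 := num_N (n := N + d) hn0 hk hlog hlo
  have c7' := gs_comb hm hk hQk hε0 hrs g1 hhi ht4
  have hfin := engine (d := d) P hβ0 he hs hM hn0 hr (by rw [hβ']; exact c3)
    (by rw [hβ']; exact c4) hε0 (by rw [h8]; exact g6) c6 c8 ht1 c7 c7' hA
  refine le_trans ?_ hfin
  have h1 : 3 / (32768 * ((k : ℝ) + 3) ^ 4 * ε ^ 2) * M ≤ t₀ * M :=
    mul_le_mul_of_nonneg_right ht4 (Nat.cast_nonneg _)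
  linarith

end Pool.Agent.Work.MP_8f25a0_lc.Decoy
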