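import Pool.Agent.Work.MP_8f25a0_lc.Decoy.Basic
import Pool.Agent.Work.MP_8f25a0_lc.Decoy.B02
import Pool.Agent.Work.MP_8f25a0_lc.Decoy.B05
import Pool.Agent.Work.MP_8f25a0_lc.Decoy.B06
import Pool.Agent.Work.MP_8f25a0_lc.Decoy.B07
import Pool.Agent.Work.MP_8f25a0_lc.Decoy.B11

/-!
# Decoys: trees with few questions do not distinguish the planted models from the null model
-/

namespace Pool.Agent.Work.MP_8f25a0_lc.Decoy

open Finset

theorem Ex_add {n : ℕ} (p : Cube n → ℝ) (g h : (Cube n → Bool) → ℝ) :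
    Ex p (fun f => g f + h f) = Ex p g + Ex p h := by
  unfold Ex
  rw [← sum_add_distrib]
  exact sum_congr rfl fun a _ => mul_add _ _ _

theorem Ex_sum {n : ℕ} {ι : Type*} (p : Cube n → ℝ) (s : Finset ι)
    (g : ι → (Cube n → Bool) → ℝ) : Ex p (fun f => ∑ i ∈ s, g i f) = ∑ i ∈ s, Ex p (g i) := by
  unfold Ex
  rw [sum_comm]
  exact sum_congr rfl fun a _ => mul_sum _ _ _

theorem Ex_mul_left {n : ℕ} (p : Cube n → ℝ) (c : ℝ) (g : (Cube n → Bool) → ℝ) :
    Ex p (fun f => c * g f) = c * Ex p g := by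
  unfold Ex
  rw [mul_sum]
  exact sum_congr rfl fun a _ => by ring

theorem Ex_mono' {n : ℕ} {p : Cube n → ℝ} (h0 : ∀ x, 0 ≤ p x) (h1 : ∀ x, p x ≤ 1)
    {g g' : (Cube n → Bool) → ℝ} (h : ∀ f, g f ≤ g' f) : Ex p g ≤ Ex p g' :=
  Ex_mono h0 h1 fun a _ => h a

/-- the change of the biases when one cell is changed -/
theorem prb_update {n k M : ℕ} {V : Type*} (e : Fin M → Fin k → Fin n) (X : V → ℝ) (δ : ℝ)
    (Ξ : Fin M × Cube k → V) (a : Fin M) (z : Cube k) (v : V) :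
    prb e X δ (Function.update Ξ (a, z) v) = fun x =>
      if x ∈ univ.filter (fun y : Cube n => y ∘ e a = z) then
        (1 - δ * ((∑ b ∈ univ.erase a, X (Ξ (b, x ∘ e b))) +
          if x ∘ e a = z then 0 else X (Ξ (a, x ∘ e a)))) / 2 + -(δ / 2) * X v
      else (1 - δ * ((∑ b ∈ univ.erase a, X (Ξ (b, x ∘ e b))) +
          if x ∘ e a = z then 0 else X (Ξ (a, x ∘ e a)))) / 2 := by
  funext x
  have h1 : FF e X (Function.update Ξ (a, z) v) x =
      (if x ∘ e a = z then X v else X (Ξ (a, x ∘ e a))) +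
        ∑ b ∈ univ.erase a, X (Ξ (b, x ∘ e b)) := by
    unfold FF
    rw [← add_sum_erase univ _ (mem_univ a)]
    congr 1
    · by_cases h : x ∘ e a = z
      · rw [if_pos h, h, Function.update_self]
      · rw [if_neg h, Function.update_of_ne]
        intro h2
        exact h (Prod.ext_iff.mp h2).2
    · apply sum_congr rfl
      intro b hb
      rw [Function.update_of_ne]
      intro h2
      exact (ne_of_mem_erase hb) (Prod.ext_iff.mp h2).1
  unfold prb
  rw [h1]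
  by_cases h : x ∘ e a = z
  · rw [if_pos h, if_pos (mem_filter.mpr ⟨mem_univ x, h⟩), if_pos h]
    ring
  · have h2 : x ∉ univ.filter (fun y : Cube n => y ∘ e a = z) := fun h2 => h (mem_filter.mp h2).2
    rw [if_neg h, if_neg h2, if_neg h]
    ring

theorem abs_sum_mul_pow_le {V : Type*} [Fintype V] {D : ℕ} {β : ℝ} (P : Pair V D β) (j : ℕ) :
    |∑ v, (P.w1 v - P.w0 v) * P.X v ^ j| ≤ 2 := by
  refine (abs_sum_le_sum_abs _ _).trans ?_
  calc ∑ v, |(P.w1 v - P.w0 v) * P.X v ^ j| ≤ ∑ v, (P.w1 v + P.w0 v) := by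
        apply sum_le_sum
        intro v _
        rw [abs_mul, abs_pow]
        have h1 : |P.X v| ^ j ≤ 1 := pow_le_one₀ (abs_nonneg _) (P.hX v)
        have h2 : |P.w1 v - P.w0 v| ≤ P.w1 v + P.w0 v := by
          have := P.n0 v
          have := P.n1 v
          rw [abs_le]
          constructor <;> linarith
        calc |P.w1 v - P.w0 v| * |P.X v| ^ j ≤ |P.w1 v - P.w0 v| * 1 :=
              mul_le_mul_of_nonneg_left h1 (abs_nonneg _)
          _ ≤ _ := by rw [mul_one]; exact h2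
    _ = 2 := by rw [sum_add_distrib, P.s0, P.s1]; norm_num

/-- one cell -/
theorem cell_step {n k M t₀ D : ℕ} {V : Type} [Fintype V] {β δ : ℝ} (P : Pair V D β)
    (e : Fin M → Fin k → Fin n) (hδ0 : 0 ≤ δ) (hδ : M * δ ≤ 1 / 2)
    (htδ : (t₀ : ℝ) * (4 / 3 * δ ^ 2) ≤ 1 / 16) (O : Set ℝ) (T : Tree n) (r : ℝ)
    (Ξ : Fin M × Cube k → V) (a : Fin M) (z : Cube k) :
    |∑ v, (P.w1 v - P.w0 v) * Ex (prb e P.X δ (Function.update Ξ (a, z) v))
      (oi (trunc (e a) t₀ r T ∅) O)| ≤ 8 / 3 * (1 / 4) ^ D := by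
  simp_rw [prb_update]
  have hM0 : (0 : ℝ) ≤ M := Nat.cast_nonneg _
  have hbd : ∀ x : Cube n, |(∑ b ∈ univ.erase a, P.X (Ξ (b, x ∘ e b))) +
      if x ∘ e a = z then 0 else P.X (Ξ (a, x ∘ e a))| ≤ M := by
    intro x
    have h1 : |∑ b ∈ univ.erase a, P.X (Ξ (b, x ∘ e b))| ≤ ((univ.erase a).card : ℝ) := by
      refine (abs_sum_le_sum_abs _ _).trans ((sum_le_sum fun b _ => P.hX _).trans ?_)
      simp
    have h2 : |if x ∘ e a = z then 0 else P.X (Ξ (a, x ∘ e a))| ≤ 1 := by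
      split_ifs
      · simp
      · exact P.hX _
    have h3 : ((univ.erase a).card : ℝ) + 1 = M := by
      have h4 := card_erase_add_one (mem_univ a)
      rw [card_univ, Fintype.card_fin] at h4
      exact_mod_cast h4
    calc _ ≤ |∑ b ∈ univ.erase a, P.X (Ξ (b, x ∘ e b))| +
          |if x ∘ e a = z then 0 else P.X (Ξ (a, x ∘ e a))| := abs_add_le _ _
      _ ≤ ((univ.erase a).card : ℝ) + 1 := add_le_add h1 h2
      _ = M := h3
  have hbd2 : ∀ x : Cube n, 1 / 4 ≤ (1 - δ * ((∑ b ∈ univ.erase a, P.X (Ξ (b, x ∘ e b))) +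
      if x ∘ e a = z then 0 else P.X (Ξ (a, x ∘ e a)))) / 2 ∧
      (1 - δ * ((∑ b ∈ univ.erase a, P.X (Ξ (b, x ∘ e b))) +
      if x ∘ e a = z then 0 else P.X (Ξ (a, x ∘ e a)))) / 2 ≤ 3 / 4 := by
    intro x
    have h1 := abs_le.mp (hbd x)
    have h2 := mul_le_mul_of_nonneg_left h1.1 hδ0
    have h3 := mul_le_mul_of_nonneg_left h1.2 hδ0
    constructor <;> linarith
  refine tree_moment P.mom (abs_sum_mul_pow_le P) O (trunc (e a) t₀ r T ∅)
    (univ.filter fun y : Cube n => y ∘ e a = z) _ (fun x => ?_) (fun x => ?_)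
    (fun x _ => hbd2 x) ?_
  · have := (hbd2 x).1; linarith
  · have := (hbd2 x).2; linarith
  · have h1 : (hits (trunc (e a) t₀ r T ∅) (univ.filter fun y : Cube n => y ∘ e a = z) : ℝ) ≤
        t₀ := by exact_mod_cast hits_trunc (e a) t₀ r T z
    calc _ ≤ (t₀ : ℝ) * (16 / 3 * (-(δ / 2)) ^ 2) :=
          mul_le_mul_of_nonneg_right h1 (by positivity)
      _ = (t₀ : ℝ) * (4 / 3 * δ ^ 2) := by ring
      _ ≤ _ := htδ

/-- **Indistinguishability.** -/
theorem indist {n k M s t₀ q D : ℕ} {V : Type} [Fintype V] {β δ : ℝ} (P : Pair V D β)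
    (e : Fin M → Fin k → Fin n) (he : ∀ a, Function.Injective (e a))
    (hs : ∀ a b, a ≠ b → (rg (e a) ∩ rg (e b)).card ≤ s) (hδ0 : 0 ≤ δ)
    (hδ : M * δ ≤ 1 / 2) (ht : 1 ≤ t₀) (htδ : (t₀ : ℝ) * (4 / 3 * δ ^ 2) ≤ 1 / 16)
    (hq : (2 * q + t₀) * (2 ^ n * 2 ^ s) ≤ t₀ ^ 2 * 2 ^ (2 * k)) {O : Set ℝ} (hO : O.Nonempty)
    (T : Tree n) (hT : T.depth ≤ q) :
    (∑ a, EL (planted P a) (fun Ξ => Ex (prb e P.X δ Ξ) (oi T O))) ≤
      M * EL (null P) (fun Ξ : Fin M × Cube k → V => Ex (prb e P.X δ Ξ) (oi T O)) + 2 * q / t₀ +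
        M * (2 ^ k * (8 / 3 * (1 / 4) ^ D)) := by
  classical
  obtain ⟨r, hr⟩ := hO
  have hp0 : ∀ (Ξ : Fin M × Cube k → V) x, 0 ≤ prb e P.X δ Ξ x := fun Ξ x => by
    have := (prb_mem e P.hX hδ0 hδ Ξ x).1; linarith
  have hp1 : ∀ (Ξ : Fin M × Cube k → V) x, prb e P.X δ Ξ x ≤ 1 := fun Ξ x => by
    have := (prb_mem e P.hX hδ0 hδ Ξ x).2; linarith
  have ht0 : (0 : ℝ) < t₀ := by exact_mod_cast ht
  -- one decoy
  have key : ∀ a : Fin M, EL (planted P a) (fun Ξ => Ex (prb e P.X δ Ξ) (oi T O)) ≤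
      EL (null P) (fun Ξ : Fin M × Cube k → V => Ex (prb e P.X δ Ξ) (oi T O)) +
      EL (null P) (fun Ξ : Fin M × Cube k → V => Ex (prb e P.X δ Ξ) (fun f =>
        ind (∃ z : Cube k, t₀ < ((asked f T).filter fun y : Cube n => y ∘ e a = z).card))) +
      2 ^ k * (8 / 3 * (1 / 4) ^ D) := by
    intro a
    set B := trunc (e a) t₀ r T ∅ with hB
    have h1 : EL (planted P a) (fun Ξ => Ex (prb e P.X δ Ξ) (oi T O)) ≤
        EL (planted P a) (fun Ξ => Ex (prb e P.X δ Ξ) (oi B O)) :=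
      EL_mono (planted_nonneg P a) fun Ξ => Ex_mono' (hp0 Ξ) (hp1 Ξ) fun f =>
        oi_le_trunc (e a) t₀ hr T f
    have h2 : EL (null P) (fun Ξ : Fin M × Cube k → V => Ex (prb e P.X δ Ξ) (oi B O)) ≤
        EL (null P) (fun Ξ : Fin M × Cube k → V => Ex (prb e P.X δ Ξ) (oi T O)) +
        EL (null P) (fun Ξ : Fin M × Cube k → V => Ex (prb e P.X δ Ξ) (fun f =>
          ind (∃ z : Cube k, t₀ < ((asked f T).filter fun y : Cube n => y ∘ e a = z).card))) := by
      rw [← EL_add]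
      apply EL_mono (null_nonneg P)
      intro Ξ
      rw [← Ex_add]
      exact Ex_mono' (hp0 Ξ) (hp1 Ξ) fun f => trunc_le_oi (e a) t₀ r O T f
    set A : Finset (Fin M × Cube k) := univ.filter fun i => i.1 = a with hA
    have hAc : (A.card : ℝ) = 2 ^ k := by
      have h3 : A = (univ : Finset (Cube k)).image fun z => (a, z) := by
        ext i
        simp only [hA, mem_filter, mem_univ, true_and, mem_image]
        constructor
        · intro h
          exact ⟨i.2, by rw [← h]⟩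
        · rintro ⟨z', h4⟩
          rw [← h4]
      rw [h3, card_image_of_injective _ (fun z z' h => (Prod.ext_iff.mp h).2)]
      simp
    have h4 := hybrid (I := Fin M × Cube k) P.n0 P.n1 P.s0 P.s1
      (fun Ξ => Ex (prb e P.X δ Ξ) (oi B O)) (κ := 8 / 3 * (1 / 4) ^ D) A (by
        rintro ⟨b, z⟩ hb Ξ
        have hb' : b = a := (mem_filter.mp hb).2
        subst hb'
        exact cell_step P e hδ0 hδ htδ O T r Ξ b z)
    have h5 : (fun i => if i ∈ A then P.w1 else P.w0) = planted P a := by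
      funext i
      unfold planted
      simp only [hA, mem_filter, mem_univ, true_and]
    rw [h5, hAc] at h4
    have h6 : (fun _ : Fin M × Cube k => P.w0) = null P := rfl
    rw [h6] at h4
    have h7 := (abs_le.mp h4).2
    linarith
  have hsum : ∑ a : Fin M, EL (null P) (fun Ξ : Fin M × Cube k → V => Ex (prb e P.X δ Ξ) (fun f =>
      ind (∃ z : Cube k, t₀ < ((asked f T).filter fun y : Cube n => y ∘ e a = z).card))) ≤
      2 * q / t₀ := by
    rw [← EL_sum]
    calc EL (null P) (fun Ξ : Fin M × Cube k → V => ∑ a : Fin M, Ex (prb e P.X δ Ξ) (fun f =>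
          ind (∃ z : Cube k, t₀ < ((asked f T).filter fun y : Cube n => y ∘ e a = z).card)))
        ≤ EL (null P) (fun _ : Fin M × Cube k → V => 2 * (q : ℝ) / t₀) := by
          apply EL_mono (null_nonneg P)
          intro Ξ
          rw [← Ex_sum, ← Ex_const (prb e P.X δ Ξ) (2 * (q : ℝ) / t₀)]
          apply Ex_mono' (hp0 Ξ) (hp1 Ξ)
          intro f
          rw [le_div_iff₀ ht0]
          exact comb e he hs ht hq (asked f T) ((card_asked f T).trans hT)
      _ = 2 * q / t₀ := EL_const (null_sum P) _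
  calc (∑ a, EL (planted P a) (fun Ξ => Ex (prb e P.X δ Ξ) (oi T O)))
      ≤ ∑ a : Fin M, (EL (null P) (fun Ξ : Fin M × Cube k → V => Ex (prb e P.X δ Ξ) (oi T O)) +
      EL (null P) (fun Ξ : Fin M × Cube k → V => Ex (prb e P.X δ Ξ) (fun f =>
        ind (∃ z : Cube k, t₀ < ((asked f T).filter fun y : Cube n => y ∘ e a = z).card))) +
      2 ^ k * (8 / 3 * (1 / 4) ^ D)) := sum_le_sum fun a _ => key a
    _ ≤ _ := by
      rw [sum_add_distrib, sum_add_distrib, sum_const, sum_const, card_univ, Fintype.card_fin,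
        nsmul_eq_mul, nsmul_eq_mul]
      linarith

end Pool.Agent.Work.MP_8f25a0_lc.Decoy
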