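import Pool.Agent.Work.MP_8f25a0_lc.Decoy.Gstep
import Pool.Agent.Work.MP_8f25a0_lc.Decoy.Main
import Pool.Agent.Work.MP_8f25a0_lc.Decoy.B14

/-!
# Decoys: a lower bound for `ε ≤ 2 ^ (-c * k)`, for every `c > 0`
-/

namespace Pool.Agent.Work.MP_8f25a0_lc.Decoy

open Finset

/-- add `ρ` common coordinates to a code -/
theorem code_ext {M κ N s : ℕ} (ρ : ℕ) (h : ∃ e : Fin M → Fin κ → Fin N,
    (∀ a, Function.Injective (e a)) ∧ ∀ a b, a ≠ b → (rg (e a) ∩ rg (e b)).card ≤ s) :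
    ∃ e : Fin M → Fin (κ + ρ) → Fin (N + ρ), (∀ a, Function.Injective (e a)) ∧
      ∀ a b, a ≠ b → (rg (e a) ∩ rg (e b)).card ≤ s + ρ := by
  obtain ⟨e, he, hs⟩ := h
  refine ⟨fun a => Fin.addCases (fun i => Fin.castAdd ρ (e a i)) (fun j => Fin.natAdd N j),
    fun a => ?_, fun a b hab => ?_⟩
  · intro x y hxy
    induction x using Fin.addCases with
    | left i =>
      induction y using Fin.addCases with
      | left j =>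
        simp only [Fin.addCases_left] at hxy
        rw [he a (Fin.castAdd_injective N ρ hxy)]
      | right j =>
        simp only [Fin.addCases_left, Fin.addCases_right] at hxy
        have h1 := congrArg Fin.val hxy
        simp only [Fin.val_castAdd, Fin.val_natAdd] at h1
        have := (e a i).isLt
        omega
    | right i =>
      induction y using Fin.addCases with
      | left j =>
        simp only [Fin.addCases_left, Fin.addCases_right] at hxy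
        have h1 := congrArg Fin.val hxy
        simp only [Fin.val_castAdd, Fin.val_natAdd] at h1
        have := (e a j).isLt
        omega
      | right j =>
        simp only [Fin.addCases_right] at hxy
        have h1 := congrArg Fin.val hxy
        simp only [Fin.val_natAdd] at h1
        congr 1
        ext
        omega
  · have hsub : rg (Fin.addCases (motive := fun _ => Fin (N + ρ)) (fun i => Fin.castAdd ρ (e a i))
        (fun j => Fin.natAdd N j) : Fin (κ + ρ) → Fin (N + ρ)) ∩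
        rg (Fin.addCases (motive := fun _ => Fin (N + ρ)) (fun i => Fin.castAdd ρ (e b i))
        (fun j => Fin.natAdd N j) : Fin (κ + ρ) → Fin (N + ρ)) ⊆
        (rg (e a) ∩ rg (e b)).image (Fin.castAdd ρ) ∪ (univ : Finset (Fin ρ)).image (Fin.natAdd N) := by
      intro x hx
      rw [mem_inter] at hx
      obtain ⟨h1, h2⟩ := hx
      unfold rg at h1 h2
      rw [mem_image] at h1 h2
      obtain ⟨y, _, hy⟩ := h1
      obtain ⟨z, _, hz⟩ := h2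
      rw [mem_union, mem_image, mem_image]
      induction y using Fin.addCases with
      | right j =>
        right
        simp only [Fin.addCases_right] at hy
        exact ⟨j, mem_univ _, hy⟩
      | left i =>
        simp only [Fin.addCases_left] at hy
        induction z using Fin.addCases with
        | right j =>
          right
          simp only [Fin.addCases_right] at hz
          exact ⟨j, mem_univ _, hz⟩
        | left j =>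
          left
          simp only [Fin.addCases_left] at hz
          refine ⟨e a i, ?_, hy⟩
          rw [mem_inter]
          unfold rg
          refine ⟨mem_image_of_mem _ (mem_univ i), ?_⟩
          have h3 : e a i = e b j := Fin.castAdd_injective N ρ (hy.trans hz.symm)
          rw [h3]
          exact mem_image_of_mem _ (mem_univ j)
    refine (card_le_card hsub).trans ((card_union_le _ _).trans ?_)
    refine Nat.add_le_add (card_image_le.trans (hs a b hab)) (card_image_le.trans ?_)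
    simp

theorem sm_M {κ k : ℕ} (hk : 1 ≤ k)
    (hst : 10 ^ 14 * ((k : ℝ) + 6) ^ 10 ≤ 2 ^ (κ / 8)) :
    ∃ M : ℕ, 2 ≤ M ∧ (M : ℝ) ≤ 2 ^ (κ / 4) / (655360 * k * ((k : ℝ) + 3) ^ 4) ∧
      2 ^ (κ / 4) / (2 * (655360 * k * ((k : ℝ) + 3) ^ 4)) ≤ M := by
  have hk1 : (1 : ℝ) ≤ k := by exact_mod_cast hk
  set B : ℝ := 655360 * k * ((k : ℝ) + 3) ^ 4 with hB
  have hB0 : 0 < B := by positivity
  have hB1 : 2 * B ≤ 10 ^ 14 * ((k : ℝ) + 6) ^ 10 := by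
    have h1 : (k : ℝ) * ((k : ℝ) + 3) ^ 4 ≤ ((k : ℝ) + 6) ^ 10 := by
      calc (k : ℝ) * ((k : ℝ) + 3) ^ 4 ≤ ((k : ℝ) + 6) * ((k : ℝ) + 6) ^ 4 := by
            gcongr <;> linarith
        _ = ((k : ℝ) + 6) ^ 5 := by ring
        _ ≤ ((k : ℝ) + 6) ^ 10 := pow_le_pow_right₀ (by linarith) (by norm_num)
    calc 2 * B = 1310720 * ((k : ℝ) * ((k : ℝ) + 3) ^ 4) := by rw [hB]; ring
      _ ≤ 10 ^ 14 * ((k : ℝ) + 6) ^ 10 := by
          gcongr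
          norm_num
  have hx : 2 ≤ 2 ^ (κ / 4) / B := by
    rw [le_div_iff₀ hB0]
    calc 2 * B ≤ 2 ^ (κ / 8) := hB1.trans hst
      _ ≤ 2 ^ (κ / 4) := pow_le_pow_right₀ (by norm_num) (by omega)
  refine ⟨⌊2 ^ (κ / 4) / B⌋₊, ?_, Nat.floor_le (by positivity), ?_⟩
  · exact Nat.le_floor (by exact_mod_cast hx)
  · have h1 := (half_floor (x := 2 ^ (κ / 4) / B) (by linarith)).1
    refine le_trans (le_of_eq ?_) h1
    rw [div_div]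
    congr 1
    ring

theorem sm_num {a κ m e M : ℝ} (hκ : 0 < κ) (hm : 0 < m)
    (he : 0 < e) (ha : 0 < a) (hM : a / (2 * (655360 * κ * m ^ 4)) ≤ M) :
    a / (10 ^ 12 * κ * m ^ 8 * e) ≤ 3 / (32768 * m ^ 4 * e) * M / 10 := by
  have e1 : a / (10 ^ 12 * κ * m ^ 8 * e) = (a / (κ * m ^ 8 * e)) * (1 / 10 ^ 12) := by
    field_simp
  have e2 : 3 / (32768 * m ^ 4 * e) * (a / (2 * (655360 * κ * m ^ 4))) / 10 =
      (a / (κ * m ^ 8 * e)) * (3 / 429496729600) := by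
    field_simp
    norm_num
  calc a / (10 ^ 12 * κ * m ^ 8 * e) ≤ (a / (κ * m ^ 8 * e)) * (3 / 429496729600) := by
        rw [e1]
        exact mul_le_mul_of_nonneg_left (by norm_num) (by positivity)
    _ = 3 / (32768 * m ^ 4 * e) * (a / (2 * (655360 * κ * m ^ 4))) / 10 := e2.symm
    _ ≤ _ := by gcongr

/-- one choice of the parameters -/
theorem sm_step {κ ρ n q : ℕ} {ε : ℝ} (hk : 1 ≤ κ + ρ)
    (hst : 10 ^ 14 * (((κ + ρ : ℕ) : ℝ) + 6) ^ 10 ≤ 2 ^ (κ / 8))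
    (hn : κ + ρ + 15 * κ ≤ n) (hlog : Real.log n ≤ 2 ^ (κ + ρ)) (hε0 : 0 < ε)
    (hε1 : ε ≤ 1 / 2 ^ (κ / 4))
    (hlo : 32 * (((κ + ρ : ℕ) : ℝ) + 6) ≤ 2 ^ n / 2 ^ (κ + ρ) * ε ^ 2)
    (hhi : 2 ^ n / 2 ^ (κ + ρ) * ε ^ 2 ≤ 64 * (((κ + ρ : ℕ) : ℝ) + 6)) {A : PMF (Tree n)}
    (hA : Approximates n (κ + ρ) ε q A) :
    2 ^ (κ / 4) / (10 ^ 12 * ((κ + ρ : ℕ) : ℝ) * (((κ + ρ : ℕ) : ℝ) + 3) ^ 8 * ε ^ 2) ≤ q := by
  obtain ⟨M, hM2, hM, hM'⟩ := sm_M (κ := κ) hk hst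
  have hN : κ * 16 + ρ ≤ n := by omega
  obtain ⟨d, rfl⟩ := Nat.exists_eq_add_of_le hN
  obtain ⟨k, hkdef⟩ : ∃ k : ℕ, k = κ + ρ := ⟨_, rfl⟩
  have hk1 : (1 : ℝ) ≤ ((κ + ρ : ℕ) : ℝ) := by exact_mod_cast hk
  have hcodek : M * 2 ^ κ ≤ 16 ^ (κ / 2 + 1) := by
    have h1 : (M : ℝ) ≤ 2 ^ κ := by
      refine hM.trans ?_
      have h2 : (1 : ℝ) ≤ 655360 * ((κ + ρ : ℕ) : ℝ) * (((κ + ρ : ℕ) : ℝ) + 3) ^ 4 := by
        have h3 : (1 : ℝ) ≤ (((κ + ρ : ℕ) : ℝ) + 3) ^ 4 := one_le_pow₀ (by linarith)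
        have h4 : (1 : ℝ) ≤ 655360 * ((κ + ρ : ℕ) : ℝ) := by linarith
        exact one_le_mul_of_one_le_of_one_le h4 h3
      refine (div_le_self (by positivity) h2).trans ?_
      exact pow_le_pow_right₀ (by norm_num) (Nat.div_le_self _ _)
    have h2 : M ≤ 2 ^ κ := by exact_mod_cast h1
    calc M * 2 ^ κ ≤ 2 ^ κ * 2 ^ κ := Nat.mul_le_mul_right _ h2
      _ = 2 ^ (κ + κ) := by rw [pow_add]
      _ ≤ 2 ^ (4 * (κ / 2 + 1)) := Nat.pow_le_pow_right (by norm_num) (by omega)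
      _ = 16 ^ (κ / 2 + 1) := by rw [pow_mul]; norm_num
  obtain ⟨e, he, hes⟩ := code_ext ρ (code_sets (k := κ) (q := 16) (by norm_num) hcodek)
  have hκ64 : 64 ≤ κ := by
    by_contra hcon
    push Not at hcon
    have h1 : (2 : ℝ) ^ (κ / 8) ≤ 2 ^ 8 := pow_le_pow_right₀ (by norm_num) (by omega)
    have h2 : (1 : ℝ) ≤ (((κ + ρ : ℕ) : ℝ) + 6) ^ 10 := one_le_pow₀ (by linarith)
    have h3 : (2 : ℝ) ^ 8 = 256 := by norm_num
    rw [h3] at h1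
    linarith
  -- the exponents
  have hrk : κ / 4 + (ρ + (κ - κ / 4)) = κ + ρ := by omega
  have hpow : (2 : ℝ) ^ (κ + ρ) = 2 ^ (κ / 4) * 2 ^ (ρ + (κ - κ / 4)) := by
    rw [← pow_add, hrk]
  have hr : (κ + ρ) * (κ / 2 + ρ) < (ρ + (κ - κ / 4)) ^ 2 := by
    have e1 : 4 * (κ / 4) ≤ κ := Nat.mul_div_le κ 4
    have e2 : 2 * (κ / 2) ≤ κ := Nat.mul_div_le κ 2
    obtain ⟨u, hu⟩ : ∃ u, u = κ / 4 := ⟨_, rfl⟩
    obtain ⟨v, hv⟩ : ∃ v, v = κ / 2 := ⟨_, rfl⟩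
    obtain ⟨w, hw⟩ : ∃ w, w = κ - κ / 4 := ⟨_, rfl⟩
    rw [← hu] at e1
    rw [← hv] at e2
    rw [← hv, ← hw]
    have e3 : w + u = κ := by omega
    have e4 : 3 * κ ≤ 4 * w := by omega
    -- `4 (κ+ρ)(v+ρ) ≤ 2(κ+ρ)(κ+2ρ) = 2κ²+6κρ+4ρ²`, `4 (ρ+w)² ≥ 4ρ²+8ρw+4w²`
    have e5 : 6 * (κ * ρ) ≤ 8 * (w * ρ) := by
      calc 6 * (κ * ρ) = 2 * (3 * κ) * ρ := by ring
        _ ≤ 2 * (4 * w) * ρ := by gcongr
        _ = 8 * (w * ρ) := by ring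
    have e6 : 9 * (κ * κ) ≤ 16 * (w * w) := by
      calc 9 * (κ * κ) = (3 * κ) * (3 * κ) := by ring
        _ ≤ (4 * w) * (4 * w) := Nat.mul_le_mul e4 e4
        _ = 16 * (w * w) := by ring
    have e7 : 4 * ((κ + ρ) * (v + ρ)) ≤ 2 * (κ * κ) + 6 * (κ * ρ) + 4 * (ρ * ρ) := by
      calc 4 * ((κ + ρ) * (v + ρ)) = 2 * ((κ + ρ) * (2 * v)) + 4 * ((κ + ρ) * ρ) := by ring
        _ ≤ 2 * ((κ + ρ) * κ) + 4 * ((κ + ρ) * ρ) := by gcongr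
        _ = 2 * (κ * κ) + 6 * (κ * ρ) + 4 * (ρ * ρ) := by ring
    have e8 : 4 * (ρ + w) ^ 2 = 4 * (ρ * ρ) + 8 * (w * ρ) + 4 * (w * w) := by ring
    have e9 : 0 < κ * κ := by positivity
    nlinarith
  have hs2 : (κ + ρ + (κ / 2 + ρ)) / 2 + κ / 8 ≤ κ + ρ := by omega
  have hk0 : (0 : ℝ) < ((κ + ρ : ℕ) : ℝ) := by linarith
  have hB0 : (0 : ℝ) < 655360 * ((κ + ρ : ℕ) : ℝ) * (((κ + ρ : ℕ) : ℝ) + 3) ^ 4 := by positivity
  have hBQ : 1 / (40960 * (16 * ((κ + ρ : ℕ) : ℝ)) * (((κ + ρ : ℕ) : ℝ) + 3) ^ 4) =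
      1 / (655360 * ((κ + ρ : ℕ) : ℝ) * (((κ + ρ : ℕ) : ℝ) + 3) ^ 4) := by
    congr 1
    ring
  have hst2 : ∀ x : ℝ, x ≤ 10 ^ 14 * (((κ + ρ : ℕ) : ℝ) + 6) ^ 10 → x ≤ 2 ^ (κ / 8) :=
    fun x hx => hx.trans hst
  have hpoly : ∀ i : ℕ, i ≤ 10 → (((κ + ρ : ℕ) : ℝ) + 6) ^ i ≤ (((κ + ρ : ℕ) : ℝ) + 6) ^ 10 :=
    fun i hi => pow_le_pow_right₀ (by linarith) hi
  have g1 : (M : ℝ) * 2 ^ (ρ + (κ - κ / 4)) / 2 ^ (κ + ρ) ≤
      1 / (40960 * (16 * ((κ + ρ : ℕ) : ℝ)) * (((κ + ρ : ℕ) : ℝ) + 3) ^ 4) := by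
    rw [hBQ, hpow]
    have h1 : (M : ℝ) * 2 ^ (ρ + (κ - κ / 4)) / (2 ^ (κ / 4) * 2 ^ (ρ + (κ - κ / 4))) =
        M / 2 ^ (κ / 4) := by field_simp
    rw [h1, div_le_iff₀ (by positivity)]
    refine hM.trans (le_of_eq ?_)
    ring
  have g2 : (((κ + ρ : ℕ) : ℝ)) ^ 2 * 2 ^ ((κ + ρ + (κ / 2 + ρ)) / 2) / 2 ^ (κ + ρ) ≤
      1 / (40960 * (16 * ((κ + ρ : ℕ) : ℝ)) * (((κ + ρ : ℕ) : ℝ) + 3) ^ 4) := by
    rw [hBQ, div_le_div_iff₀ (by positivity) hB0, one_mul]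
    have h1 : (2 : ℝ) ^ ((κ + ρ + (κ / 2 + ρ)) / 2) * 2 ^ (κ / 8) ≤ 2 ^ (κ + ρ) := by
      rw [← pow_add]
      exact pow_le_pow_right₀ (by norm_num) hs2
    have h2 : (((κ + ρ : ℕ) : ℝ)) ^ 2 *
        (655360 * ((κ + ρ : ℕ) : ℝ) * (((κ + ρ : ℕ) : ℝ) + 3) ^ 4) ≤ 2 ^ (κ / 8) := by
      apply hst2
      calc (((κ + ρ : ℕ) : ℝ)) ^ 2 *
          (655360 * ((κ + ρ : ℕ) : ℝ) * (((κ + ρ : ℕ) : ℝ) + 3) ^ 4)
          ≤ (((κ + ρ : ℕ) : ℝ) + 6) ^ 2 *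
          (655360 * (((κ + ρ : ℕ) : ℝ) + 6) * (((κ + ρ : ℕ) : ℝ) + 6) ^ 4) := by
            gcongr <;> linarith
        _ = 655360 * (((κ + ρ : ℕ) : ℝ) + 6) ^ 7 := by ring
        _ ≤ 10 ^ 14 * (((κ + ρ : ℕ) : ℝ) + 6) ^ 10 := by
            have := hpoly 7 (by norm_num)
            gcongr
            norm_num
    calc (((κ + ρ : ℕ) : ℝ)) ^ 2 * 2 ^ ((κ + ρ + (κ / 2 + ρ)) / 2) *
          (655360 * ((κ + ρ : ℕ) : ℝ) * (((κ + ρ : ℕ) : ℝ) + 3) ^ 4)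
        = ((((κ + ρ : ℕ) : ℝ)) ^ 2 *
          (655360 * ((κ + ρ : ℕ) : ℝ) * (((κ + ρ : ℕ) : ℝ) + 3) ^ 4)) *
          2 ^ ((κ + ρ + (κ / 2 + ρ)) / 2) := by ring
      _ ≤ 2 ^ (κ / 8) * 2 ^ ((κ + ρ + (κ / 2 + ρ)) / 2) := by gcongr
      _ ≤ 2 ^ (κ + ρ) := by linarith
  have hκk : (2 : ℝ) ^ (κ / 8) ≤ 2 ^ (κ + ρ) := pow_le_pow_right₀ (by norm_num) (by omega)
  have g3 : 2048 * (((κ + ρ : ℕ) : ℝ) + 3) ^ 4 * (((κ + ρ : ℕ) : ℝ) + 5) ≤ 2 ^ (κ + ρ) := by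
    refine le_trans (hst2 _ ?_) hκk
    calc 2048 * (((κ + ρ : ℕ) : ℝ) + 3) ^ 4 * (((κ + ρ : ℕ) : ℝ) + 5)
        ≤ 2048 * (((κ + ρ : ℕ) : ℝ) + 6) ^ 4 * (((κ + ρ : ℕ) : ℝ) + 6) := by
          gcongr <;> linarith
      _ = 2048 * (((κ + ρ : ℕ) : ℝ) + 6) ^ 5 := by ring
      _ ≤ 10 ^ 14 * (((κ + ρ : ℕ) : ℝ) + 6) ^ 10 := by
          have := hpoly 5 (by norm_num)
          gcongr
          norm_num
  have g6 : (M : ℝ) * (16 * (((κ + ρ : ℕ) : ℝ) + 3) ^ 2 * ε) ≤ 1 / 2 := by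
    calc (M : ℝ) * (16 * (((κ + ρ : ℕ) : ℝ) + 3) ^ 2 * ε)
        ≤ 2 ^ (κ / 4) / (655360 * ((κ + ρ : ℕ) : ℝ) * (((κ + ρ : ℕ) : ℝ) + 3) ^ 4) *
          (16 * (((κ + ρ : ℕ) : ℝ) + 3) ^ 2 * (1 / 2 ^ (κ / 4))) := by gcongr
      _ = 1 / (40960 * ((κ + ρ : ℕ) : ℝ) * (((κ + ρ : ℕ) : ℝ) + 3) ^ 2) := by
          field_simp
          norm_num
      _ ≤ 1 / 2 := by
          apply one_div_le_one_div_of_le (by norm_num)
          have h3 : (1 : ℝ) ≤ (((κ + ρ : ℕ) : ℝ) + 3) ^ 2 := one_le_pow₀ (by linarith)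
          have h4 : (1 : ℝ) ≤ ((κ + ρ : ℕ) : ℝ) * (((κ + ρ : ℕ) : ℝ) + 3) ^ 2 :=
            one_le_mul_of_one_le_of_one_le hk1 h3
          linarith
  have g7 : 16384 * (((κ + ρ : ℕ) : ℝ) + 3) ^ 4 * ε ^ 2 ≤ 3 := by
    have h1 : 16384 * (((κ + ρ : ℕ) : ℝ) + 3) ^ 4 ≤ 2 ^ (κ / 8) := by
      apply hst2
      calc 16384 * (((κ + ρ : ℕ) : ℝ) + 3) ^ 4 ≤ 16384 * (((κ + ρ : ℕ) : ℝ) + 6) ^ 4 := by
            gcongr
            norm_num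
        _ ≤ 10 ^ 14 * (((κ + ρ : ℕ) : ℝ) + 6) ^ 10 := by
            have := hpoly 4 (by norm_num)
            gcongr
            norm_num
    have h2 : ε ^ 2 ≤ (1 / 2 ^ (κ / 4)) ^ 2 := pow_le_pow_left₀ hε0.le hε1 2
    calc 16384 * (((κ + ρ : ℕ) : ℝ) + 3) ^ 4 * ε ^ 2 ≤ 2 ^ (κ / 8) * (1 / 2 ^ (κ / 4)) ^ 2 := by
          gcongr
      _ ≤ 2 ^ (κ / 4) * (1 / 2 ^ (κ / 4)) ^ 2 := by
          have : (2 : ℝ) ^ (κ / 8) ≤ 2 ^ (κ / 4) := pow_le_pow_right₀ (by norm_num) (by omega)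
          gcongr
      _ = 1 / 2 ^ (κ / 4) := by field_simp
      _ ≤ 1 := by
          rw [div_le_one (by positivity)]
          exact one_le_pow₀ (by norm_num)
      _ ≤ 3 := by norm_num
  have hQN : ((κ * 16 + ρ : ℕ) : ℝ) ≤ 16 * ((κ + ρ : ℕ) : ℝ) := by
    have h1 : κ * 16 + ρ ≤ 16 * (κ + ρ) := by omega
    exact_mod_cast h1
  have hQk : (((κ + ρ : ℕ) : ℝ)) ≤ 16 * ((κ + ρ : ℕ) : ℝ) := by linarith
  have hMk : (M : ℝ) ≤ 2 ^ (κ + ρ) := by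
    refine hM.trans ?_
    refine (div_le_self (by positivity) ?_).trans
      (pow_le_pow_right₀ (by norm_num) (by omega))
    have h3 : (1 : ℝ) ≤ (((κ + ρ : ℕ) : ℝ) + 3) ^ 4 := one_le_pow₀ (by linarith)
    have h4 : (1 : ℝ) ≤ 655360 * ((κ + ρ : ℕ) : ℝ) := by linarith
    exact one_le_mul_of_one_le_of_one_le h4 h3
  have hfin := gstep (N := κ * 16 + ρ) (d := d) (Q := 16 * ((κ + ρ : ℕ) : ℝ)) hk hM2 he hes hr
    (by omega) hQN hQk hMk g1 g2 g3 (by omega) hlog hε0 g6 g7 hlo hhi hA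
  exact (sm_num hk0 (by positivity) (by positivity) (by positivity) hM').trans hfin

end Pool.Agent.Work.MP_8f25a0_lc.Decoy
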