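import Pool.Agent.Work.MP_8f25a0_lc.Decoy.Valid

/-!
# Decoys: both bounds, for every `c > 0`
-/

namespace Pool.Agent.Work.MP_8f25a0_lc.Decoy

open Finset Filter Topology

/-- the number of variables which is used when `n` is very large -/
theorem exists_n₀' {c : ℝ} (hc : 0 < c) : ∃ k₂ : ℕ, ∀ (k : ℕ) (ε : ℝ), k₂ ≤ k → 0 < ε →
    Real.log (1 / ε) < 2 ^ k →
    ∃ n₀ : ℕ, (n₀ : ℝ) ≤ Real.exp (2 ^ k) ∧ (1 + c) * k ≤ n₀ ∧
      1 / ε ^ 2 ≤ 2 ^ n₀ / 2 ^ k := by
  obtain ⟨k₁, hk₁⟩ := exists_nat_ge (2 * c)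
  refine ⟨k₁ + 3, fun k ε hk hε0 hL => ?_⟩
  have hx1 : 2 * c ≤ (2 : ℝ) ^ k := by
    have h1 : k₁ ≤ k := by omega
    have h2 : (k₁ : ℝ) ≤ k := by exact_mod_cast h1
    have h3 : (k : ℝ) < 2 ^ k := by exact_mod_cast Nat.lt_two_pow_self
    linarith
  have hx8 : (8 : ℝ) ≤ 2 ^ k := by
    calc (8 : ℝ) = 2 ^ 3 := by norm_num
      _ ≤ 2 ^ k := pow_le_pow_right₀ (by norm_num) (by omega)
  have hkx : (k : ℝ) ≤ 2 ^ k := by exact_mod_cast Nat.lt_two_pow_self.le
  have hk0 : (0 : ℝ) ≤ k := Nat.cast_nonneg _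
  have hexp : 1 + 2 ^ k + (2 ^ k) ^ 2 / 2 ≤ Real.exp ((2 : ℝ) ^ k) :=
    Real.quadratic_le_exp_of_nonneg (by positivity)
  have hfl := Nat.lt_floor_add_one (Real.exp ((2 : ℝ) ^ k))
  have hn₀ : (2 : ℝ) ^ k + (2 ^ k) ^ 2 / 2 ≤ ⌊Real.exp ((2 : ℝ) ^ k)⌋₊ := by linarith
  refine ⟨⌊Real.exp (2 ^ k)⌋₊, Nat.floor_le (Real.exp_pos _).le, ?_, ?_⟩
  · refine le_trans ?_ hn₀
    have h1 : c * k ≤ (2 ^ k) / 2 * 2 ^ k := by
      apply mul_le_mul (by linarith) hkx hk0 (by positivity)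
    nlinarith
  · have h1 : 1 / ε ^ 2 = Real.exp (2 * Real.log (1 / ε)) := by
      rw [show 2 * Real.log (1 / ε) = Real.log (1 / ε) + Real.log (1 / ε) by ring, Real.exp_add,
        Real.exp_log (by positivity)]
      ring
    have h2 : (2 : ℝ) ^ ⌊Real.exp ((2 : ℝ) ^ k)⌋₊ / 2 ^ k =
        Real.exp (Real.log 2 * ⌊Real.exp ((2 : ℝ) ^ k)⌋₊ - Real.log 2 * k) := by
      rw [Real.exp_sub, Real.exp_mul, Real.exp_mul, Real.exp_log (by norm_num), Real.rpow_natCast,
        Real.rpow_natCast]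
    rw [h1, h2]
    apply Real.exp_le_exp.mpr
    have hlog2 := Real.log_two_gt_d9
    have h4 : (2 ^ k : ℝ) ^ 2 / 2 ≤ ⌊Real.exp ((2 : ℝ) ^ k)⌋₊ - k := by linarith
    have h5 := mul_le_mul_of_nonneg_left h4 (show (0 : ℝ) ≤ Real.log 2 by linarith)
    have h6 : 4 * (2 : ℝ) ^ k ≤ (2 ^ k : ℝ) ^ 2 / 2 := by nlinarith
    have h7 : 0.6 * (4 * (2 : ℝ) ^ k) ≤ Real.log 2 * ((2 ^ k : ℝ) ^ 2 / 2) := by
      apply mul_le_mul (by linarith) h6 (by positivity) (by linarith)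
    linarith

/-- both bounds, from the lower bound -/
theorem two_sided' {c θ : ℝ} (hc : 0 < c) (hθ : θ < 1) (hv : Valid c θ) : ∃ C : ℝ, 1 ≤ C ∧
    ∀ (n k : ℕ) (ε : ℝ), 1 ≤ k → (1 + c) * k ≤ n → 0 < ε → ε < 1 / 4 → ε ≤ 2 ^ (-(c * k)) →
    (Real.log n ≤ 2 ^ k ∨ Real.log (min n (1 / ε)) / ε ^ 2 ≤ 2 ^ n / 2 ^ k) →
    min (2 ^ n) ((2 ^ k + Real.log (min n (1 / ε))) / ε ^ 2) / (C * 2 ^ ((1 - θ) * k)) ≤
      queryComplexity n k ε ∧
    (queryComplexity n k ε : ℝ) ≤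
      C * k * min (2 ^ n) ((2 ^ k + Real.log (min n (1 / ε))) / ε ^ 2) := by
  obtain ⟨C₀, hC₀, hlow⟩ := hv
  obtain ⟨k₂, hk₂⟩ := exists_n₀' hc
  have hγ : 0 < 1 - θ := by linarith
  set C : ℝ := 2 * C₀ + 80000000 / (1 - θ) + 8000 * 2 ^ k₂ + 2000 with hC
  have hγi : 0 < 80000000 / (1 - θ) := by positivity
  have h2k₂ : (0 : ℝ) < 8000 * 2 ^ k₂ := by positivity
  have hCC₀ : 2 * C₀ ≤ C := by rw [hC]; linarith
  have hCγ : 80000000 / (1 - θ) ≤ C := by rw [hC]; linarith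
  have hCk : 8000 * 2 ^ k₂ ≤ C := by rw [hC]; linarith
  have hC2 : 2000 ≤ C := by rw [hC]; linarith
  refine ⟨C, by linarith, ?_⟩
  intro n k ε hk hCn hε0 hε4 hεC hcond
  have hk1 : (1 : ℝ) ≤ k := by exact_mod_cast hk
  have hkn : k < n := by
    have h1 : (k : ℝ) < n := by nlinarith
    exact_mod_cast h1
  have hn : 0 < n := by omega
  have hL0 := log_min_nonneg hn hε0 hε4
  obtain ⟨L, hL⟩ : ∃ L : ℝ, L = Real.log (min (n : ℝ) (1 / ε)) := ⟨_, rfl⟩
  rw [← hL] at hcond hL0 ⊢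
  have hq : (0 : ℝ) ≤ queryComplexity n k ε := Nat.cast_nonneg _
  have hg : (1 : ℝ) ≤ 2 ^ ((1 - θ) * k) := Real.one_le_rpow (by norm_num) (by positivity)
  have hg0 : (0 : ℝ) < 2 ^ ((1 - θ) * k) := by linarith
  have h2k : (0 : ℝ) < 2 ^ k := by positivity
  have hkg := le_two_rpow hγ k
  have hm0 : (0 : ℝ) ≤ min (2 ^ n) ((2 ^ k + L) / ε ^ 2) := by positivity
  constructor
  · -- the lower bound
    rw [div_le_iff₀ (by positivity)]
    have hsplit : (2 : ℝ) ^ (θ * k) * 2 ^ ((1 - θ) * k) = 2 ^ k := by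
      rw [← Real.rpow_add (by norm_num), ← Real.rpow_natCast 2 k]
      congr 1
      ring
    have hfinish : ∀ x : ℝ, 0 ≤ x → 2 ^ (θ * k) * x ≤ C₀ * queryComplexity n k ε →
        2 * 2 ^ k * x ≤ queryComplexity n k ε * (C * 2 ^ ((1 - θ) * k)) := by
      intro x _ hx
      calc 2 * 2 ^ k * x = 2 * (2 ^ (θ * k) * x) * 2 ^ ((1 - θ) * k) := by
            rw [← hsplit]; ring
        _ ≤ 2 * (C₀ * queryComplexity n k ε) * 2 ^ ((1 - θ) * k) := by gcongr
        _ ≤ queryComplexity n k ε * (C * 2 ^ ((1 - θ) * k)) := by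
            have h4 : 2 * C₀ * ((queryComplexity n k ε : ℝ) * 2 ^ ((1 - θ) * k)) ≤
                C * ((queryComplexity n k ε : ℝ) * 2 ^ ((1 - θ) * k)) :=
              mul_le_mul_of_nonneg_right hCC₀ (by positivity)
            linarith
    have hLbound : L ≤ 2 ^ k → min (2 ^ n) ((2 ^ k + L) / ε ^ 2) ≤
        2 * 2 ^ k * min (2 ^ n / 2 ^ k) (1 / ε ^ 2) := by
      intro hLk
      rw [mul_min_of_nonneg _ _ (by positivity)]
      apply min_le_min
      · rw [mul_assoc, mul_div_cancel₀ _ h2k.ne']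
        have : (0 : ℝ) < 2 ^ n := by positivity
        linarith
      · rw [mul_one_div]
        apply div_le_div_of_nonneg_right _ (by positivity)
        linarith
    rcases le_or_gt (Real.log n) (2 ^ k) with hlog | hlog
    · have h1 := hlow n k ε hk hCn hlog hε0 hε4 hεC
      have hLk : L ≤ 2 ^ k := by
        refine le_trans ?_ hlog
        rw [hL]
        apply Real.log_le_log
        · exact lt_min (by exact_mod_cast hn) (by positivity)
        · exact min_le_left _ _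
      exact (hLbound hLk).trans (hfinish _ (by positivity) h1)
    · have hcond2 : L / ε ^ 2 ≤ 2 ^ n / 2 ^ k := hcond.resolve_left (not_le.mpr hlog)
      rcases le_or_gt (2 ^ k) L with hLk | hLk
      · -- many variables and very small `ε`
        have h1 := explicit_lower hk hkn hε0 hε4
        rw [← hL, min_eq_right hcond2] at h1
        have hlk : 0 ≤ Real.log k := Real.log_nonneg hk1
        rw [div_le_iff₀ (by positivity)] at h1
        have h2 : 1 + Real.log k ≤ k := by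
          have := Real.log_le_sub_one_of_pos (show (0 : ℝ) < k by linarith)
          linarith
        calc min (2 ^ n) ((2 ^ k + L) / ε ^ 2) ≤ (2 ^ k + L) / ε ^ 2 := min_le_right _ _
          _ ≤ (2 * L) / ε ^ 2 := by
              apply div_le_div_of_nonneg_right _ (by positivity)
              linarith
          _ = 2 * (L / ε ^ 2) := by ring
          _ ≤ 2 * (queryComplexity n k ε * (20000000 * (1 + Real.log k))) := by gcongr
          _ ≤ 2 * (queryComplexity n k ε * (20000000 * (2 / (1 - θ) * 2 ^ ((1 - θ) * k)))) := by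
              have := h2.trans hkg
              gcongr
          _ = queryComplexity n k ε * (80000000 / (1 - θ) * 2 ^ ((1 - θ) * k)) := by ring
          _ ≤ queryComplexity n k ε * (C * 2 ^ ((1 - θ) * k)) := by gcongr
      · -- many variables
        rcases lt_or_ge k k₂ with hkk | hkk
        · -- small `k`
          obtain ⟨A, hA⟩ := exists_approximates n k hε0.le
          have h1 := lower_bound hkn hε0 hε4 hA
          have h2 : min (2 ^ n / 2 ^ k) (1 / ε ^ 2) ≤ min (2 ^ n) (1 / ε ^ 2) := by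
            apply min_le_min_right
            exact div_le_self (by positivity) (one_le_pow₀ (by norm_num))
          have h3 : (2 : ℝ) ^ k ≤ 2 ^ k₂ := pow_le_pow_right₀ (by norm_num) hkk.le
          calc min (2 ^ n) ((2 ^ k + L) / ε ^ 2)
              ≤ 2 * 2 ^ k * min (2 ^ n / 2 ^ k) (1 / ε ^ 2) := hLbound hLk.le
            _ ≤ 2 * 2 ^ k₂ * min (2 ^ n) (1 / ε ^ 2) := by gcongr
            _ ≤ 2 * 2 ^ k₂ * (4000 * queryComplexity n k ε) := by
                apply mul_le_mul_of_nonneg_left _ (by positivity)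
                linarith
            _ = queryComplexity n k ε * (8000 * 2 ^ k₂) := by ring
            _ ≤ queryComplexity n k ε * (C * 2 ^ ((1 - θ) * k)) := by
                have h4 : 8000 * 2 ^ k₂ ≤ C * 2 ^ ((1 - θ) * k) :=
                  hCk.trans (le_mul_of_one_le_right (by linarith) hg)
                gcongr
        · have hmin : min (n : ℝ) (1 / ε) = 1 / ε := by
            apply min_eq_right
            by_contra hcon
            push Not at hcon
            rw [min_eq_left hcon.le] at hL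
            linarith
          rw [hmin] at hL
          obtain ⟨n₀, hn₀e, hn₀C, hn₀ε⟩ := hk₂ k ε hkk hε0 (hL ▸ hLk)
          have hn₀n : n₀ ≤ n := by
            have h1 : (n₀ : ℝ) ≤ n := by
              refine hn₀e.trans ?_
              rw [← Real.le_log_iff_exp_le (by exact_mod_cast hn)]
              exact hlog.le
            exact_mod_cast h1
          have hn₀0 : (0 : ℝ) < n₀ := by nlinarith
          have hlog₀ : Real.log n₀ ≤ 2 ^ k := (Real.log_le_iff_le_exp hn₀0).mpr hn₀e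
          have h1 := hlow n₀ k ε hk hn₀C hlog₀ hε0 hε4 hεC
          rw [min_eq_right hn₀ε] at h1
          have h2 : (queryComplexity n₀ k ε : ℝ) ≤ queryComplexity n k ε := by
            exact_mod_cast qc_mono hε0.le hn₀n
          have h3 := h1.trans (mul_le_mul_of_nonneg_left h2 (by linarith : (0 : ℝ) ≤ C₀))
          refine le_trans ?_ (hfinish _ (by positivity) h3)
          calc min (2 ^ n) ((2 ^ k + L) / ε ^ 2) ≤ (2 ^ k + L) / ε ^ 2 := min_le_right _ _
            _ ≤ (2 * 2 ^ k) / ε ^ 2 := by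
                apply div_le_div_of_nonneg_right _ (by positivity)
                linarith
            _ = 2 * 2 ^ k * (1 / ε ^ 2) := by ring
  · -- the upper bound
    have h1 := upper_min hn k hε0 hε4
    rw [← hL] at h1
    have h2 : min (2 ^ n) ((2 ^ k + (k : ℝ) * L) / ε ^ 2) ≤
        (k : ℝ) * min (2 ^ n : ℝ) ((2 ^ k + L) / ε ^ 2) := by
      rw [mul_min_of_nonneg _ _ (by positivity)]
      apply min_le_min
      · exact le_mul_of_one_le_left (by positivity) hk1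
      · rw [← mul_div_assoc]
        apply div_le_div_of_nonneg_right _ (by positivity)
        have : (2 : ℝ) ^ k ≤ (k : ℝ) * 2 ^ k := le_mul_of_one_le_left h2k.le hk1
        linarith
    calc (queryComplexity n k ε : ℝ) ≤ 2000 * min (2 ^ n) ((2 ^ k + (k : ℝ) * L) / ε ^ 2) := h1
      _ ≤ 2000 * ((k : ℝ) * min (2 ^ n : ℝ) ((2 ^ k + L) / ε ^ 2)) := by gcongr
      _ = 2000 * k * min (2 ^ n : ℝ) ((2 ^ k + L) / ε ^ 2) := by ring
      _ ≤ C * k * min (2 ^ n : ℝ) ((2 ^ k + L) / ε ^ 2) := by gcongr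

/-- an exponent function -/
theorem exists_theta : ∃ θ : ℝ → ℝ, (∀ c, 0 < c → 0 < θ c ∧ θ c < 1 ∧ Valid c (θ c)) ∧
    Tendsto θ atTop (𝓝 1) := by
  classical
  obtain ⟨σ, hσ⟩ : ∃ σ : ℝ → ℝ, ∀ c, σ c = sSup {θ : ℝ | 0 < θ ∧ θ < 1 ∧ Valid c θ} :=
    ⟨_, fun _ => rfl⟩
  have hbdd : ∀ c, BddAbove {θ : ℝ | 0 < θ ∧ θ < 1 ∧ Valid c θ} :=
    fun c => ⟨1, fun θ hθ => hθ.2.1.le⟩
  have hle1 : ∀ c, 0 < c → σ c ≤ 1 := by
    intro c hc
    obtain ⟨θ₀, h1, h2, h3⟩ := valid_small hc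
    rw [hσ]
    exact csSup_le ⟨θ₀, h1, h2, h3⟩ fun θ hθ => hθ.2.1.le
  have hpos : ∀ c, 0 < c → 0 < σ c := by
    intro c hc
    obtain ⟨θ₀, h1, h2, h3⟩ := valid_small hc
    rw [hσ]
    exact lt_of_lt_of_le h1 (le_csSup (hbdd c) ⟨h1, h2, h3⟩)
  refine ⟨fun c => σ c * (c / (1 + c)), fun c hc => ?_, ?_⟩
  · have hfr0 : 0 < c / (1 + c) := by positivity
    have hfr1 : c / (1 + c) < 1 := by rw [div_lt_one (by positivity)]; linarith
    have h0 := hpos c hc
    have hlt : σ c * (c / (1 + c)) < σ c := by nlinarith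
    refine ⟨by positivity, by have := hle1 c hc; linarith, ?_⟩
    obtain ⟨θ₀, h1, h2, h3⟩ := valid_small hc
    have hne : {θ : ℝ | 0 < θ ∧ θ < 1 ∧ Valid c θ}.Nonempty := ⟨θ₀, h1, h2, h3⟩
    have hlt' : σ c * (c / (1 + c)) < sSup {θ : ℝ | 0 < θ ∧ θ < 1 ∧ Valid c θ} := by
      rw [← hσ]; exact hlt
    obtain ⟨θ', hθ', hθ'2⟩ := exists_lt_of_lt_csSup hne hlt'
    exact hθ'.2.2.mono hθ'2.le
  · rw [Metric.tendsto_atTop]
    intro η hη
    obtain ⟨c₀, hc₀, hc₀'⟩ := valid_large (γ := min (η / 3) (1 / 2)) (by positivity)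
    refine ⟨max c₀ (3 / η), fun c hc => ?_⟩
    have hc1 : c₀ ≤ c := (le_max_left _ _).trans hc
    have hc2 : 3 / η ≤ c := (le_max_right _ _).trans hc
    have hcpos : 0 < c := by linarith
    have hg1 : min (η / 3) (1 / 2) ≤ η / 3 := min_le_left _ _
    have hg2 : min (η / 3) (1 / 2) ≤ (1 / 2 : ℝ) := min_le_right _ _
    have hg3 : 0 < min (η / 3) (1 / 2) := by positivity
    have hs1 : 1 - min (η / 3) (1 / 2) ≤ σ c := by
      rw [hσ]
      exact le_csSup (hbdd c) ⟨by linarith, by linarith, hc₀' c hc1⟩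
    have hs2 := hle1 c hcpos
    have hfr0 : 0 < c / (1 + c) := by positivity
    have hfr1 : c / (1 + c) < 1 := by rw [div_lt_one (by positivity)]; linarith
    have hfr2 : 1 - η / 3 ≤ c / (1 + c) := by
      rw [le_div_iff₀ (by positivity)]
      rw [div_le_iff₀ hη] at hc2
      nlinarith
    rw [Real.dist_eq, abs_lt]
    constructor
    · have h1 : 1 - η / 3 ≤ σ c := by linarith
      have h2 : σ c * (c / (1 + c)) ≥ σ c - η / 3 := by
        have h3 : σ c * (1 - c / (1 + c)) ≤ 1 * (η / 3) := by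
          apply mul_le_mul hs2 (by linarith) (by linarith) (by norm_num)
        linarith
      linarith
    · have h0 := hpos c hcpos
      have : σ c * (c / (1 + c)) ≤ σ c := by nlinarith
      linarith

/-- **Both bounds, for every `c > 0`.** -/
theorem two_sided_all : ∃ θ : ℝ → ℝ, (∀ c, 0 < c → 0 < θ c) ∧ Tendsto θ atTop (𝓝 1) ∧
    ∀ c : ℝ, 0 < c → ∃ C : ℝ, 1 ≤ C ∧ ∀ (n k : ℕ) (ε : ℝ), 1 ≤ k → (1 + c) * k ≤ n → 0 < ε →
    ε < 1 / 4 → ε ≤ 2 ^ (-(c * k)) →
    (Real.log n ≤ 2 ^ k ∨ Real.log (min n (1 / ε)) / ε ^ 2 ≤ 2 ^ n / 2 ^ k) →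
    min (2 ^ n) ((2 ^ k + Real.log (min n (1 / ε))) / ε ^ 2) / (C * 2 ^ ((1 - θ c) * k)) ≤
      queryComplexity n k ε ∧
    (queryComplexity n k ε : ℝ) ≤
      C * k * min (2 ^ n) ((2 ^ k + Real.log (min n (1 / ε))) / ε ^ 2) := by
  obtain ⟨θ, h1, h2⟩ := exists_theta
  exact ⟨θ, fun c hc => (h1 c hc).1, h2, fun c hc =>
    two_sided' hc (h1 c hc).2.1 (h1 c hc).2.2⟩

end Pool.Agent.Work.MP_8f25a0_lc.Decoy
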