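import Pool.Agent.Work.MP_8f25a0_lc.Decoy.Main
import Pool.Agent.Work.MP_8f25a0_lc.Upper2

/-!
# Decoys: both bounds
-/

namespace Pool.Agent.Work.MP_8f25a0_lc.Decoy

open Finset

theorem le_two_rpow {γ : ℝ} (hγ : 0 < γ) (k : ℕ) : (k : ℝ) ≤ 2 / γ * 2 ^ (γ * k) := by
  have h1 : γ * k / 2 ≤ (2 : ℝ) ^ (γ * k) := by
    have h2 := Real.add_one_le_exp (Real.log 2 * (γ * k))
    rw [Real.rpow_def_of_pos (by norm_num)]
    have h3 := Real.log_two_gt_d9
    have h4 : 0 ≤ γ * (k : ℝ) := by positivity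
    nlinarith
  rw [div_mul_eq_mul_div, le_div_iff₀ hγ]
  linarith

theorem log_min_nonneg {n : ℕ} {ε : ℝ} (hn : 0 < n) (hε0 : 0 < ε) (hε4 : ε < 1 / 4) :
    0 ≤ Real.log (min (n : ℝ) (1 / ε)) := by
  apply Real.log_nonneg
  apply le_min
  · exact_mod_cast hn
  · rw [one_le_div hε0]; linarith

theorem two_rpow_neg_le {C : ℝ} (hC : 100 ≤ C) {k : ℕ} (hk : 1 ≤ k) :
    (2 : ℝ) ^ (-(C * k)) < 1 / 4 := by
  have hk1 : (1 : ℝ) ≤ k := by exact_mod_cast hk
  have h1 : (2 : ℝ) ^ (-(C * k)) ≤ 2 ^ (-3 : ℝ) := by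
    apply Real.rpow_le_rpow_of_exponent_le (by norm_num)
    nlinarith
  have h2 : (2 : ℝ) ^ (-3 : ℝ) = 1 / 8 := by
    rw [Real.rpow_neg (by norm_num)]
    norm_num
  rw [h2] at h1
  linarith

/-- the number of variables which is used for small `n` -/
theorem exists_n₀ {k : ℕ} {ε C : ℝ} (hC : 100 ≤ C) (hk : 1 ≤ k) (hε0 : 0 < ε)
    (hεC : ε ≤ 2 ^ (-(C * k))) (hL : Real.log (1 / ε) < 2 ^ k) :
    ∃ n₀ : ℕ, (n₀ : ℝ) ≤ Real.exp (2 ^ k) ∧ C / 2 * k ≤ n₀ ∧ k < n₀ ∧
      1 / ε ^ 2 ≤ 2 ^ n₀ / 2 ^ k := by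
  have hk1 : (1 : ℝ) ≤ k := by exact_mod_cast hk
  have hCk : C * k * Real.log 2 < 2 ^ k := by
    refine lt_of_le_of_lt ?_ hL
    rw [one_div, Real.log_inv]
    have h1 := Real.log_le_log hε0 hεC
    rw [Real.log_rpow (by norm_num)] at h1
    linarith
  have hlog2 := Real.log_two_gt_d9
  have hx : C / 2 * k < 2 ^ k := by
    have : 0 ≤ C * k := by positivity
    nlinarith
  have hx50 : (50 : ℝ) < 2 ^ k := by nlinarith
  have hexp : 1 + 2 ^ k + (2 ^ k) ^ 2 / 2 ≤ Real.exp ((2 : ℝ) ^ k) :=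
    Real.quadratic_le_exp_of_nonneg (by positivity)
  have hfl := Nat.lt_floor_add_one (Real.exp ((2 : ℝ) ^ k))
  have hn₀ : (2 : ℝ) ^ k + (2 ^ k) ^ 2 / 2 ≤ ⌊Real.exp ((2 : ℝ) ^ k)⌋₊ := by linarith
  refine ⟨⌊Real.exp (2 ^ k)⌋₊, Nat.floor_le (Real.exp_pos _).le, ?_, ?_, ?_⟩
  · nlinarith
  · have h1 : (k : ℝ) < ⌊Real.exp ((2 : ℝ) ^ k)⌋₊ := by
      have h2 : (k : ℝ) < 2 ^ k := by exact_mod_cast Nat.lt_two_pow_self
      nlinarith
    exact_mod_cast h1
  · have h1 : 1 / ε ^ 2 = Real.exp (2 * Real.log (1 / ε)) := by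
      rw [show 2 * Real.log (1 / ε) = Real.log (1 / ε) + Real.log (1 / ε) by ring, Real.exp_add,
        Real.exp_log (by positivity)]
      ring
    have h2 : (2 : ℝ) ^ ⌊Real.exp ((2 : ℝ) ^ k)⌋₊ / 2 ^ k =
        Real.exp (Real.log 2 * ⌊Real.exp ((2 : ℝ) ^ k)⌋₊ - Real.log 2 * k) := by
      rw [Real.exp_sub, Real.exp_mul, Real.exp_mul, Real.exp_log (by norm_num), Real.rpow_natCast,
        Real.rpow_natCast]
    rw [h1, h2]
    apply Real.exp_le_exp.mpr
    have h3 : (k : ℝ) ≤ 2 ^ k := by exact_mod_cast Nat.lt_two_pow_self.le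
    have h4 : (2 ^ k : ℝ) ^ 2 / 2 ≤ ⌊Real.exp ((2 : ℝ) ^ k)⌋₊ - k := by linarith
    have h5 := mul_le_mul_of_nonneg_left h4 (show (0 : ℝ) ≤ Real.log 2 by linarith)
    nlinarith

/-- **Both bounds.** -/
theorem two_sided {γ : ℝ} (hγ : 0 < γ) : ∃ C : ℝ, 1 ≤ C ∧ ∀ (n k : ℕ) (ε : ℝ), 1 ≤ k →
    C * k ≤ n → 0 < ε → ε ≤ 2 ^ (-(C * k)) →
    (Real.log n ≤ 2 ^ k ∨ Real.log (min n (1 / ε)) / ε ^ 2 ≤ 2 ^ n / 2 ^ k) →
    min (2 ^ n) ((2 ^ k + Real.log (min n (1 / ε))) / ε ^ 2) / (C * 2 ^ (γ * k)) ≤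
      queryComplexity n k ε ∧
    (queryComplexity n k ε : ℝ) ≤
      C * 2 ^ (γ * k) * min (2 ^ n) ((2 ^ k + Real.log (min n (1 / ε))) / ε ^ 2) := by
  obtain ⟨C₀, hC₀, hlow⟩ := decoy_lower hγ
  set C : ℝ := 100 * C₀ + 100000000 / γ with hC
  have hγi : 0 < 100000000 / γ := by positivity
  have hC100 : 100 ≤ C := by rw [hC]; linarith
  have hCC₀ : 100 * C₀ ≤ C := by rw [hC]; linarith
  have hCγ : 100000000 / γ ≤ C := by rw [hC]; linarith
  refine ⟨C, by linarith, ?_⟩
  intro n k ε hk hCn hε0 hεC hcond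
  have hk1 : (1 : ℝ) ≤ k := by exact_mod_cast hk
  have hkn : k < n := by
    have h1 : (k : ℝ) < n := by nlinarith
    exact_mod_cast h1
  have hn : 0 < n := by omega
  have hε4 : ε < 1 / 4 := lt_of_le_of_lt hεC (two_rpow_neg_le hC100 hk)
  have hL0 := log_min_nonneg hn hε0 hε4
  obtain ⟨L, hL⟩ : ∃ L : ℝ, L = Real.log (min (n : ℝ) (1 / ε)) := ⟨_, rfl⟩
  rw [← hL] at hcond hL0 ⊢
  have hq : (0 : ℝ) ≤ queryComplexity n k ε := Nat.cast_nonneg _
  have hg : (1 : ℝ) ≤ 2 ^ (γ * k) := Real.one_le_rpow (by norm_num) (by positivity)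
  have hg0 : (0 : ℝ) < 2 ^ (γ * k) := by linarith
  have h2k : (0 : ℝ) < 2 ^ k := by positivity
  have hkg := le_two_rpow hγ k
  have hm0 : (0 : ℝ) ≤ min (2 ^ n) ((2 ^ k + L) / ε ^ 2) := by positivity
  have hεC₀ : ε ≤ 2 ^ (-(C₀ * k)) := by
    refine hεC.trans (Real.rpow_le_rpow_of_exponent_le (by norm_num) ?_)
    nlinarith
  constructor
  · -- the lower bound
    rw [div_le_iff₀ (by positivity)]
    have hsplit : (2 : ℝ) ^ ((1 - γ) * k) * 2 ^ (γ * k) = 2 ^ k := by
      rw [← Real.rpow_add (by norm_num), ← Real.rpow_natCast 2 k]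
      congr 1
      ring
    rcases le_or_gt (Real.log n) (2 ^ k) with hlog | hlog
    · have h1 := hlow n k ε hkn (by nlinarith) hlog hε0 hε4 hεC₀
      have hLk : L ≤ 2 ^ k := by
        refine le_trans ?_ hlog
        rw [hL]
        apply Real.log_le_log
        · exact lt_min (by exact_mod_cast hn) (by positivity)
        · exact min_le_left _ _
      have h2 : min (2 ^ n) ((2 ^ k + L) / ε ^ 2) ≤ 2 * 2 ^ k * min (2 ^ n / 2 ^ k) (1 / ε ^ 2) := by
        rw [mul_min_of_nonneg _ _ (by positivity)]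
        apply min_le_min
        · rw [mul_assoc, mul_div_cancel₀ _ h2k.ne']
          have : (0 : ℝ) < 2 ^ n := by positivity
          linarith
        · rw [mul_one_div]
          apply div_le_div_of_nonneg_right _ (by positivity)
          linarith
      calc min (2 ^ n) ((2 ^ k + L) / ε ^ 2) ≤ 2 * 2 ^ k * min (2 ^ n / 2 ^ k) (1 / ε ^ 2) := h2
        _ = 2 * (2 ^ ((1 - γ) * k) * min (2 ^ n / 2 ^ k) (1 / ε ^ 2)) * 2 ^ (γ * k) := by
            rw [← hsplit]; ring
        _ ≤ 2 * (C₀ * queryComplexity n k ε) * 2 ^ (γ * k) := by gcongr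
        _ ≤ queryComplexity n k ε * (C * 2 ^ (γ * k)) := by
            have h3 : 2 * C₀ ≤ C := by linarith
            have h4 : 2 * C₀ * ((queryComplexity n k ε : ℝ) * 2 ^ (γ * k)) ≤
                C * ((queryComplexity n k ε : ℝ) * 2 ^ (γ * k)) :=
              mul_le_mul_of_nonneg_right h3 (by positivity)
            linarith
    · have hcond2 : L / ε ^ 2 ≤ 2 ^ n / 2 ^ k := hcond.resolve_left (not_le.mpr hlog)
      rcases le_or_gt (2 ^ k) L with hLk | hLk
      · -- many variables and very small `ε`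
        have h1 := explicit_lower hk hkn hε0 hε4
        rw [← hL, min_eq_right hcond2] at h1
        have hlk : 0 ≤ Real.log k := Real.log_nonneg hk1
        rw [div_le_iff₀ (by positivity)] at h1
        have h2 : 1 + Real.log k ≤ k := by
          have := Real.log_le_sub_one_of_pos (show (0 : ℝ) < k by linarith)
          linarith
        calc min (2 ^ n) ((2 ^ k + L) / ε ^ 2) ≤ (2 ^ k + L) / ε ^ 2 := min_le_right _ _
          _ ≤ (2 * L) / ε ^ 2 := by
              apply div_le_div_of_nonneg_right _ (by positivity)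
              linarith
          _ = 2 * (L / ε ^ 2) := by ring
          _ ≤ 2 * (queryComplexity n k ε * (20000000 * (1 + Real.log k))) := by gcongr
          _ ≤ 2 * (queryComplexity n k ε * (20000000 * (2 / γ * 2 ^ (γ * k)))) := by
              have := h2.trans hkg
              gcongr
          _ = queryComplexity n k ε * (80000000 / γ * 2 ^ (γ * k)) := by ring
          _ ≤ queryComplexity n k ε * (C * 2 ^ (γ * k)) := by
              have h3 : 80000000 / γ ≤ C := by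
                refine le_trans ?_ hCγ
                gcongr
                norm_num
              gcongr
      · -- many variables
        have hmin : min (n : ℝ) (1 / ε) = 1 / ε := by
          apply min_eq_right
          by_contra hcon
          push Not at hcon
          rw [min_eq_left hcon.le] at hL
          linarith
        rw [hmin] at hL
        obtain ⟨n₀, hn₀e, hn₀C, hn₀k, hn₀ε⟩ := exists_n₀ hC100 hk hε0 hεC (hL ▸ hLk)
        have hn₀n : n₀ ≤ n := by
          have h1 : (n₀ : ℝ) ≤ n := by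
            refine hn₀e.trans ?_
            rw [← Real.le_log_iff_exp_le (by exact_mod_cast hn)]
            exact hlog.le
          exact_mod_cast h1
        have hn₀0 : (0 : ℝ) < n₀ := by
          have : 0 < n₀ := by omega
          exact_mod_cast this
        have hlog₀ : Real.log n₀ ≤ 2 ^ k := (Real.log_le_iff_le_exp hn₀0).mpr hn₀e
        have h1 := hlow n₀ k ε hn₀k (by nlinarith) hlog₀ hε0 hε4 hεC₀
        rw [min_eq_right hn₀ε] at h1
        have h2 : (queryComplexity n₀ k ε : ℝ) ≤ queryComplexity n k ε := by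
          exact_mod_cast qc_mono hε0.le hn₀n
        calc min (2 ^ n) ((2 ^ k + L) / ε ^ 2) ≤ (2 ^ k + L) / ε ^ 2 := min_le_right _ _
          _ ≤ (2 * 2 ^ k) / ε ^ 2 := by
              apply div_le_div_of_nonneg_right _ (by positivity)
              linarith
          _ = 2 * (2 ^ ((1 - γ) * k) * (1 / ε ^ 2)) * 2 ^ (γ * k) := by
              rw [← hsplit]; ring
          _ ≤ 2 * (C₀ * queryComplexity n k ε) * 2 ^ (γ * k) := by
              have h3 := h1.trans (mul_le_mul_of_nonneg_left h2 (by linarith : (0 : ℝ) ≤ C₀))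
              gcongr
          _ ≤ queryComplexity n k ε * (C * 2 ^ (γ * k)) := by
              have h3 : 2 * C₀ ≤ C := by linarith
              have h4 : 2 * C₀ * ((queryComplexity n k ε : ℝ) * 2 ^ (γ * k)) ≤
                  C * ((queryComplexity n k ε : ℝ) * 2 ^ (γ * k)) :=
                mul_le_mul_of_nonneg_right h3 (by positivity)
              linarith
  · -- the upper bound
    have h1 := upper_min hn k hε0 hε4
    rw [← hL] at h1
    have h2 : min (2 ^ n) ((2 ^ k + (k : ℝ) * L) / ε ^ 2) ≤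
        (k : ℝ) * min (2 ^ n : ℝ) ((2 ^ k + L) / ε ^ 2) := by
      rw [mul_min_of_nonneg _ _ (by positivity)]
      apply min_le_min
      · exact le_mul_of_one_le_left (by positivity) hk1
      · rw [← mul_div_assoc]
        apply div_le_div_of_nonneg_right _ (by positivity)
        have : (2 : ℝ) ^ k ≤ (k : ℝ) * 2 ^ k := le_mul_of_one_le_left h2k.le hk1
        linarith
    calc (queryComplexity n k ε : ℝ) ≤ 2000 * min (2 ^ n) ((2 ^ k + (k : ℝ) * L) / ε ^ 2) := h1
      _ ≤ 2000 * ((k : ℝ) * min (2 ^ n : ℝ) ((2 ^ k + L) / ε ^ 2)) := by gcongr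
      _ ≤ 2000 * (2 / γ * 2 ^ (γ * k) * min (2 ^ n) ((2 ^ k + L) / ε ^ 2)) := by gcongr
      _ = 4000 / γ * 2 ^ (γ * k) * min (2 ^ n) ((2 ^ k + L) / ε ^ 2) := by ring
      _ ≤ C * 2 ^ (γ * k) * min (2 ^ n) ((2 ^ k + L) / ε ^ 2) := by
          have h3 : 4000 / γ ≤ C := by
            refine le_trans ?_ hCγ
            gcongr
            norm_num
          gcongr

end Pool.Agent.Work.MP_8f25a0_lc.Decoy
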