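import Pool.Agent.Work.MP_8f25a0_lc.Decoy.Small
import Pool.Agent.Work.MP_8f25a0_lc.Decoy.TwoSided

/-!
# Decoys: the exponent as a function of `c`
-/

namespace Pool.Agent.Work.MP_8f25a0_lc.Decoy

open Finset

theorem sm_corenum {κ k : ℕ} (hst : 10 ^ 14 * ((k : ℝ) + 6) ^ 10 ≤ 2 ^ (κ / 8)) :
    32 * ((k : ℝ) + 6) * (2 ^ (κ / 8) * (10 ^ 12 * k * ((k : ℝ) + 3) ^ 8)) ≤ 2 ^ (κ / 4) := by
  have hk0 : (0 : ℝ) ≤ k := Nat.cast_nonneg _
  have h2 : ((k : ℝ) + 6) * (k * ((k : ℝ) + 3) ^ 8) ≤ ((k : ℝ) + 6) ^ 10 := by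
    calc ((k : ℝ) + 6) * (k * ((k : ℝ) + 3) ^ 8) ≤
          ((k : ℝ) + 6) * (((k : ℝ) + 6) * ((k : ℝ) + 6) ^ 8) := by
          gcongr <;> linarith
      _ = _ := by ring
  calc 32 * ((k : ℝ) + 6) * (2 ^ (κ / 8) * (10 ^ 12 * k * ((k : ℝ) + 3) ^ 8))
      = 32 * 10 ^ 12 * (((k : ℝ) + 6) * (k * ((k : ℝ) + 3) ^ 8)) * 2 ^ (κ / 8) := by ring
    _ ≤ 10 ^ 14 * ((k : ℝ) + 6) ^ 10 * 2 ^ (κ / 8) := by
        gcongr
        norm_num
    _ ≤ 2 ^ (κ / 8) * 2 ^ (κ / 8) := by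
        apply mul_le_mul_of_nonneg_right hst (by positivity)
    _ = 2 ^ (κ / 8 + κ / 8) := by rw [pow_add]
    _ ≤ 2 ^ (κ / 4) := pow_le_pow_right₀ (by norm_num) (by omega)

theorem sm_core {κ ρ n : ℕ} {ε : ℝ} (hk : 1 ≤ κ + ρ)
    (hst : 10 ^ 14 * (((κ + ρ : ℕ) : ℝ) + 6) ^ 10 ≤ 2 ^ (κ / 8))
    (hn : κ + ρ + 16 * κ ≤ n) (hlog : Real.log n ≤ 2 ^ (κ + ρ)) (hε0 : 0 < ε)
    (hε1 : ε ≤ 1 / 2 ^ (8 * κ)) :
    2 ^ (κ / 8) * min (2 ^ n / 2 ^ (κ + ρ)) (1 / ε ^ 2) ≤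
      (queryComplexity n (κ + ρ) ε : ℝ) := by
  have hnum := sm_corenum (k := κ + ρ) hst
  have hstep := fun {n : ℕ} {ε : ℝ} {q : ℕ} => sm_step (κ := κ) (ρ := ρ) (n := n) (q := q)
    (ε := ε) hk hst
  obtain ⟨k, hkdef⟩ : ∃ k : ℕ, k = κ + ρ := ⟨_, rfl⟩
  rw [← hkdef] at hk hst hn hlog hnum hstep ⊢
  have hκk : κ ≤ k := by omega
  have hk1 : (1 : ℝ) ≤ k := by exact_mod_cast hk
  have hk0 : (0 : ℝ) < k := by linarith
  set Z : ℝ := 10 ^ 12 * k * ((k : ℝ) + 3) ^ 8 with hZ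
  have hZ0 : 0 < Z := by positivity
  have hK1 : (1 : ℝ) ≤ 32 * ((k : ℝ) + 6) := by linarith
  have h2k : (0 : ℝ) < 2 ^ k := by positivity
  rcases le_or_gt (32 * ((k : ℝ) + 6)) (2 ^ n / 2 ^ k * ε ^ 2) with hA | hB
  · -- many variables
    classical
    have hex : ∃ i : ℕ, 32 * ((k : ℝ) + 6) ≤ 2 ^ i / 2 ^ k * ε ^ 2 := ⟨n, hA⟩
    set n₁ := Nat.find hex with hn₁
    have hn₁P : 32 * ((k : ℝ) + 6) ≤ 2 ^ n₁ / 2 ^ k * ε ^ 2 := Nat.find_spec hex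
    have hn₁n : n₁ ≤ n := Nat.find_min' hex hA
    have hsmall : ∀ i : ℕ, i ≤ k + 16 * κ → 2 ^ i / 2 ^ k * ε ^ 2 < 32 * ((k : ℝ) + 6) := by
      intro i hi
      have e1 : ε ^ 2 ≤ (1 / 2 ^ (8 * κ)) ^ 2 := pow_le_pow_left₀ hε0.le hε1 2
      have e2 : (2 : ℝ) ^ i ≤ 2 ^ (k + 16 * κ) := pow_le_pow_right₀ (by norm_num) hi
      calc 2 ^ i / 2 ^ k * ε ^ 2 ≤ 2 ^ (k + 16 * κ) / 2 ^ k * (1 / 2 ^ (8 * κ)) ^ 2 := by gcongr
        _ = 1 := by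
            rw [div_pow, one_pow, ← pow_mul, pow_add, show 8 * κ * 2 = 16 * κ by ring]
            field_simp
        _ < 32 * ((k : ℝ) + 6) := by linarith
    have hNn₁ : k + 16 * κ < n₁ := by
      by_contra hcon
      push Not at hcon
      exact absurd hn₁P (not_le.mpr (hsmall n₁ hcon))
    have hhi : 2 ^ n₁ / 2 ^ k * ε ^ 2 ≤ 64 * ((k : ℝ) + 6) := by
      have h1 : ¬ 32 * ((k : ℝ) + 6) ≤ 2 ^ (n₁ - 1) / 2 ^ k * ε ^ 2 :=
        Nat.find_min hex (by omega)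
      push Not at h1
      have h2 : (2 : ℝ) ^ n₁ = 2 ^ (n₁ - 1) * 2 := by
        rw [← pow_succ]
        congr 1
        omega
      rw [h2]
      have h3 : (2 : ℝ) ^ (n₁ - 1) * 2 / 2 ^ k * ε ^ 2 = 2 * (2 ^ (n₁ - 1) / 2 ^ k * ε ^ 2) := by
        ring
      rw [h3]
      linarith
    have hlog₁ : Real.log n₁ ≤ 2 ^ k := by
      refine le_trans (Real.log_le_log ?_ ?_) hlog
      · have : 0 < n₁ := by omega
        exact_mod_cast this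
      · exact_mod_cast hn₁n
    obtain ⟨A, hA'⟩ := exists_approximates n₁ k hε0.le
    have hεs : ε ≤ 1 / 2 ^ (κ / 4) := by
      refine hε1.trans ?_
      apply one_div_le_one_div_of_le (by positivity)
      exact pow_le_pow_right₀ (by norm_num) (by omega)
    have h1 := hstep (by omega) hlog₁ hε0 hεs hn₁P hhi hA'
    have h2 : (queryComplexity n₁ k ε : ℝ) ≤ queryComplexity n k ε := by
      exact_mod_cast qc_mono hε0.le hn₁n
    have h3 : 2 ^ (κ / 8) * (1 / ε ^ 2) ≤ 2 ^ (κ / 4) / (Z * ε ^ 2) := by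
      rw [le_div_iff₀ (by positivity)]
      calc 2 ^ (κ / 8) * (1 / ε ^ 2) * (Z * ε ^ 2) = 2 ^ (κ / 8) * Z := by field_simp
        _ ≤ 32 * ((k : ℝ) + 6) * (2 ^ (κ / 8) * Z) := le_mul_of_one_le_left (by positivity) hK1
        _ ≤ 2 ^ (κ / 4) := hnum
    calc 2 ^ (κ / 8) * min (2 ^ n / 2 ^ k) (1 / ε ^ 2) ≤ 2 ^ (κ / 8) * (1 / ε ^ 2) :=
          mul_le_mul_of_nonneg_left (min_le_right _ _) (by positivity)
      _ ≤ 2 ^ (κ / 4) / (Z * ε ^ 2) := h3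
      _ ≤ queryComplexity n k ε := h1.trans h2
  · -- few variables
    set ε₂ : ℝ := √(32 * ((k : ℝ) + 6) * 2 ^ k / 2 ^ n) with hε₂
    have hε₂sq : ε₂ ^ 2 = 32 * ((k : ℝ) + 6) * 2 ^ k / 2 ^ n := Real.sq_sqrt (by positivity)
    have hε₂0 : 0 < ε₂ := Real.sqrt_pos.mpr (by positivity)
    have heq : 2 ^ n / 2 ^ k * ε₂ ^ 2 = 32 * ((k : ℝ) + 6) := by
      rw [hε₂sq]; field_simp
    have hεε : ε ≤ ε₂ := by
      have h1 : 2 ^ n / 2 ^ k * ε ^ 2 < 2 ^ n / 2 ^ k * ε₂ ^ 2 := by rw [heq]; exact hB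
      have h2 : ε ^ 2 < ε₂ ^ 2 := lt_of_mul_lt_mul_left h1 (by positivity)
      exact le_of_sq_le_sq h2.le hε₂0.le
    have hε₂1 : ε₂ ≤ 1 / 2 ^ (κ / 4) := by
      apply le_of_sq_le_sq _ (by positivity)
      rw [hε₂sq, div_pow, one_pow, div_le_div_iff₀ (by positivity) (by positivity), one_mul]
      have h1 : 32 * ((k : ℝ) + 6) ≤ 2 ^ (κ / 8) := by
        refine le_trans ?_ hst
        calc 32 * ((k : ℝ) + 6) ≤ 10 ^ 14 * ((k : ℝ) + 6) := by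
              gcongr
              norm_num
          _ ≤ 10 ^ 14 * ((k : ℝ) + 6) ^ 10 := by
              have : (k : ℝ) + 6 ≤ ((k : ℝ) + 6) ^ 10 := le_self_pow₀ (by linarith) (by norm_num)
              gcongr
      calc 32 * ((k : ℝ) + 6) * 2 ^ k * (2 ^ (κ / 4)) ^ 2 ≤
            2 ^ (κ / 8) * 2 ^ k * (2 ^ (κ / 4)) ^ 2 := by gcongr
        _ = 2 ^ (κ / 8 + k + κ / 4 * 2) := by rw [← pow_mul, ← pow_add, ← pow_add]
        _ ≤ 2 ^ n := pow_le_pow_right₀ (by norm_num) (by omega)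
    obtain ⟨A, hA'⟩ := exists_approximates n k hε₂0.le
    have h1 := hstep (by omega) hlog hε₂0 hε₂1 heq.ge (by rw [heq]; linarith) hA'
    have h2 : (queryComplexity n k ε₂ : ℝ) ≤ queryComplexity n k ε := by
      exact_mod_cast qc_eps hε0.le hεε
    have h3 : (2 : ℝ) ^ n / 2 ^ k = 32 * ((k : ℝ) + 6) / ε₂ ^ 2 := by
      rw [eq_div_iff (by positivity)]
      exact heq
    have h4 : 2 ^ (κ / 8) * (32 * ((k : ℝ) + 6) / ε₂ ^ 2) ≤ 2 ^ (κ / 4) / (Z * ε₂ ^ 2) := by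
      rw [le_div_iff₀ (by positivity)]
      calc 2 ^ (κ / 8) * (32 * ((k : ℝ) + 6) / ε₂ ^ 2) * (Z * ε₂ ^ 2) =
            32 * ((k : ℝ) + 6) * (2 ^ (κ / 8) * Z) := by field_simp
        _ ≤ 2 ^ (κ / 4) := hnum
    calc 2 ^ (κ / 8) * min (2 ^ n / 2 ^ k) (1 / ε ^ 2) ≤ 2 ^ (κ / 8) * (2 ^ n / 2 ^ k) :=
          mul_le_mul_of_nonneg_left (min_le_left _ _) (by positivity)
      _ ≤ 2 ^ (κ / 4) / (Z * ε₂ ^ 2) := by rw [h3]; exact h4
      _ ≤ queryComplexity n k ε := h1.trans h2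

/-- the lower bound with the exponent `θ` holds for `ε ≤ 2 ^ (-c * k)` -/
def Valid (c θ : ℝ) : Prop := ∃ C : ℝ, 1 ≤ C ∧ ∀ (n k : ℕ) (ε : ℝ), 1 ≤ k →
  (1 + c) * k ≤ n → Real.log n ≤ 2 ^ k → 0 < ε → ε < 1 / 4 → ε ≤ 2 ^ (-(c * k)) →
  2 ^ (θ * k) * min (2 ^ n / 2 ^ k) (1 / ε ^ 2) ≤ C * (queryComplexity n k ε : ℝ)

theorem Valid.mono {c θ θ' : ℝ} (h : Valid c θ) (hθ : θ' ≤ θ) : Valid c θ' := by
  obtain ⟨C, hC, hv⟩ := h
  refine ⟨C, hC, fun n k ε hk hn hlog hε0 hε4 hε => le_trans ?_ (hv n k ε hk hn hlog hε0 hε4 hε)⟩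
  have hk0 : (0 : ℝ) ≤ k := Nat.cast_nonneg _
  apply mul_le_mul_of_nonneg_right _ (by positivity)
  exact Real.rpow_le_rpow_of_exponent_le (by norm_num) (mul_le_mul_of_nonneg_right hθ hk0)

theorem valid_large {γ : ℝ} (hγ : 0 < γ) : ∃ c₀ : ℝ, 1 ≤ c₀ ∧ ∀ c, c₀ ≤ c → Valid c (1 - γ) := by
  obtain ⟨C, hC, h⟩ := decoy_lower hγ
  refine ⟨C, hC, fun c hc => ⟨C, hC, ?_⟩⟩
  intro n k ε hk hn hlog hε0 hε4 hε
  have hk1 : (1 : ℝ) ≤ k := by exact_mod_cast hk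
  have hck : C * k ≤ c * k := mul_le_mul_of_nonneg_right hc (by linarith)
  refine h n k ε ?_ (by nlinarith) hlog hε0 hε4 (hε.trans ?_)
  · have h1 : (k : ℝ) < n := by nlinarith
    exact_mod_cast h1
  · exact Real.rpow_le_rpow_of_exponent_le (by norm_num) (by linarith)

theorem valid_small {c : ℝ} (hc : 0 < c) : ∃ θ : ℝ, 0 < θ ∧ θ < 1 ∧ Valid c θ := by
  obtain ⟨b₀, hb₀⟩ := exists_nat_ge (16 / c)
  obtain ⟨b, hbdef⟩ : ∃ b : ℕ, b = b₀ + 1 := ⟨_, rfl⟩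
  have hb1 : 1 ≤ b := by omega
  have hb0 : (0 : ℝ) < b := by exact_mod_cast hb1
  have hbc : 16 ≤ c * b := by
    rw [div_le_iff₀ hc] at hb₀
    have h1 : (b : ℝ) = b₀ + 1 := by rw [hbdef]; push_cast; ring
    rw [h1]
    nlinarith
  obtain ⟨k₀, hk₀⟩ := star (10 ^ 14) (b * 8) (by omega)
  refine ⟨1 / (8 * b), by positivity, ?_, ?_⟩
  · rw [div_lt_one (by positivity)]
    have : (1 : ℝ) ≤ b := by exact_mod_cast hb1
    linarith
  set C : ℝ := 4000 * 2 ^ k₀ with hC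
  have h2k₀ : (1 : ℝ) ≤ 2 ^ k₀ := one_le_pow₀ (by norm_num)
  refine ⟨C, by linarith, ?_⟩
  intro n k ε hk hn hlog hε0 hε4 hε
  have hk1 : (1 : ℝ) ≤ k := by exact_mod_cast hk
  have hkn : k < n := by
    have h1 : (k : ℝ) < n := by nlinarith
    exact_mod_cast h1
  have hq : (0 : ℝ) ≤ queryComplexity n k ε := Nat.cast_nonneg _
  have hmin0 : (0 : ℝ) ≤ min (2 ^ n / 2 ^ k) (1 / ε ^ 2) := by positivity
  have hexpk : 1 / (8 * (b : ℝ)) * k ≤ k := by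
    have h1 : 1 / (8 * (b : ℝ)) ≤ 1 := by
      rw [div_le_one (by positivity)]
      have : (1 : ℝ) ≤ b := by exact_mod_cast hb1
      linarith
    calc 1 / (8 * (b : ℝ)) * k ≤ 1 * k := mul_le_mul_of_nonneg_right h1 (by linarith)
      _ = k := one_mul _
  rcases lt_or_ge k k₀ with hkk | hkk
  · -- small `k`
    obtain ⟨A, hA⟩ := exists_approximates n k hε0.le
    have h1 := lower_bound hkn hε0 hε4 hA
    have h2 : (2 : ℝ) ^ (1 / (8 * (b : ℝ)) * k) ≤ 2 ^ k₀ := by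
      rw [← Real.rpow_natCast]
      apply Real.rpow_le_rpow_of_exponent_le (by norm_num)
      have : (k : ℝ) ≤ k₀ := by exact_mod_cast hkk.le
      linarith
    have h3 : min (2 ^ n / 2 ^ k) (1 / ε ^ 2) ≤ min (2 ^ n) (1 / ε ^ 2) := by
      apply min_le_min_right
      exact div_le_self (by positivity) (one_le_pow₀ (by norm_num))
    calc _ ≤ 2 ^ k₀ * min ((2 : ℝ) ^ n) (1 / ε ^ 2) :=
          mul_le_mul h2 h3 hmin0 (by positivity)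
      _ ≤ 2 ^ k₀ * (4000 * queryComplexity n k ε) := by
          apply mul_le_mul_of_nonneg_left _ (by positivity)
          linarith
      _ = C * queryComplexity n k ε := by rw [hC]; ring
  · -- large `k`
    have hst := hk₀ k hkk
    rw [← Nat.div_div_eq_div_mul] at hst
    obtain ⟨κ, hκ⟩ : ∃ κ : ℕ, κ = k / b := ⟨_, rfl⟩
    rw [← hκ] at hst
    have hκk : κ ≤ k := by rw [hκ]; exact Nat.div_le_self _ _
    obtain ⟨ρ, hρ⟩ := Nat.exists_eq_add_of_le hκk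
    have hκb : (κ : ℝ) ≤ k / b := by rw [hκ]; exact Nat.cast_div_le
    have h16 : 16 * (κ : ℝ) ≤ c * k := by
      have h1 : (κ : ℝ) * b ≤ k := by rwa [le_div_iff₀ hb0] at hκb
      have h2 : 16 * (κ : ℝ) ≤ c * b * κ := mul_le_mul_of_nonneg_right hbc (Nat.cast_nonneg _)
      calc 16 * (κ : ℝ) ≤ c * b * κ := h2
        _ = c * (κ * b) := by ring
        _ ≤ c * k := mul_le_mul_of_nonneg_left h1 hc.le
    have hn2 : κ + ρ + 16 * κ ≤ n := by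
      rw [← hρ]
      have h1 : (k : ℝ) + 16 * κ ≤ n := by linarith
      exact_mod_cast h1
    have hε1 : ε ≤ 1 / 2 ^ (8 * κ) := by
      refine hε.trans ?_
      rw [Real.rpow_neg (by norm_num), ← one_div]
      apply one_div_le_one_div_of_le (by positivity)
      rw [← Real.rpow_natCast]
      apply Real.rpow_le_rpow_of_exponent_le (by norm_num)
      push_cast
      have : (0 : ℝ) ≤ κ := Nat.cast_nonneg _
      linarith
    have hcore := sm_core (κ := κ) (ρ := ρ) (n := n) (ε := ε) (by rw [← hρ]; exact hk)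
      (by rw [← hρ]; exact hst) hn2 (by rw [← hρ]; exact hlog) hε0 hε1
    rw [← hρ] at hcore
    -- the exponent
    have h1 : (2 : ℝ) ^ (1 / (8 * (b : ℝ)) * k) ≤ 4 * 2 ^ (κ / 8) := by
      have h2 : (4 : ℝ) * 2 ^ (κ / 8) = 2 ^ (((κ / 8 + 2 : ℕ) : ℝ)) := by
        rw [Real.rpow_natCast, pow_add]
        norm_num
        ring
      rw [h2]
      apply Real.rpow_le_rpow_of_exponent_le (by norm_num)
      have h3 : k < b * 8 * (k / (b * 8) + 1) :=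
        Nat.lt_mul_div_succ k (by omega)
      have h4 : (k : ℝ) ≤ b * 8 * ((κ / 8 : ℕ) + 1) := by
        have h5 : k / (b * 8) = κ / 8 := by rw [hκ, Nat.div_div_eq_div_mul]
        rw [h5] at h3
        exact_mod_cast h3.le
      have h6 : 1 / (8 * (b : ℝ)) * k ≤ ((κ / 8 : ℕ) : ℝ) + 1 := by
        rw [one_div, ← div_eq_inv_mul, div_le_iff₀ (by positivity)]
        linarith
      push_cast
      linarith
    calc 2 ^ (1 / (8 * (b : ℝ)) * k) * min (2 ^ n / 2 ^ k) (1 / ε ^ 2)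
        ≤ 4 * 2 ^ (κ / 8) * min (2 ^ n / 2 ^ k) (1 / ε ^ 2) :=
          mul_le_mul_of_nonneg_right h1 hmin0
      _ = 4 * (2 ^ (κ / 8) * min (2 ^ n / 2 ^ k) (1 / ε ^ 2)) := by ring
      _ ≤ 4 * queryComplexity n k ε := mul_le_mul_of_nonneg_left hcore (by norm_num)
      _ ≤ C * queryComplexity n k ε := mul_le_mul_of_nonneg_right (by linarith) hq

end Pool.Agent.Work.MP_8f25a0_lc.Decoy
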